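import Pool.Agent.TH849.CF5

set_option autoImplicit false

namespace Pool.Agent.TH849.CFN

open Set Filter Topology

theorem dig_shift (x : ℝ) (i n : ℕ) : dig (gm^[i] x) n = dig x (n + i) := by
  rw [dig, dig, Function.iterate_add_apply]

/-- shadowing: same digits in a window gives close orbit points -/
theorem shadow {x0 : ℝ} (hx : Irrational x0) (h01 : 0 < x0 ∧ x0 < 1) {a : ℕ → ℕ}
    (ha : ∀ i, 1 ≤ a i) (i K : ℕ) (h : ∀ m, i ≤ m → m < i + K → a m = dig x0 m) :
    |gm^[i] x0 - gm^[i] (val a)| ≤ 2 / 2 ^ K := by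
  have h1 := orbit hx h01 i
  have h2 := eq_F_dig h1.1 h1.2 K
  have h3 := orbit h1.1 h1.2 K
  rw [gm_iter_val ha]
  have ha' : ∀ m, 1 ≤ a (m + i) := fun m => ha _
  have h4 := val_eq_F (a := fun m => a (m + i)) ha' K
  have h5 : F (dig (gm^[i] x0)) K (gm^[K] (gm^[i] x0)) =
      F (fun m => a (m + i)) K (gm^[K] (gm^[i] x0)) := by
    apply F_congr
    intro m hm
    rw [dig_shift]
    exact (h (m + i) (by omega) (by omega)).symm
  rw [h2, h5, h4]
  exact F_dist' ha' K ⟨h3.2.1.le, h3.2.2.le⟩ (val_Icc (fun m => ha _))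

/-- special positions -/
def Sp (n : ℕ) : Prop := ∃ j : ℕ, 1 ≤ j ∧ n = 4 ^ j

open Classical in
/-- indices `i < N` whose window of length `K` meets a special position -/
noncomputable def bad (K N : ℕ) : Finset ℕ :=
  (Finset.range N).filter (fun i => ∃ s, Sp s ∧ i ≤ s ∧ s < i + K)

theorem mem_bad {K N i : ℕ} : i ∈ bad K N ↔ i < N ∧ ∃ s, Sp s ∧ i ≤ s ∧ s < i + K := by
  classical
  rw [bad, Finset.mem_filter, Finset.mem_range]

theorem bad_card (K N : ℕ) : (bad K N).card ≤ K * (Nat.sqrt (N + K) + 1) := by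
  classical
  have hsub2 : bad K N ⊆ (Finset.range (Nat.sqrt (N + K) + 1)).biUnion
      (fun j => (Finset.range (4 ^ j + 1)).filter (fun i => 4 ^ j < i + K ∧ i ≤ 4 ^ j)) := by
    intro i hi
    obtain ⟨h1', s, ⟨j, hj, rfl⟩, h2, h3⟩ := mem_bad.mp hi
    refine Finset.mem_biUnion.mpr ⟨j, ?_, ?_⟩
    · rw [Finset.mem_range]
      have h4 : (2 ^ j) * (2 ^ j) ≤ N + K := by
        rw [← mul_pow]; norm_num; omega
      have h5 : 2 ^ j ≤ Nat.sqrt (N + K) := Nat.le_sqrt.mpr h4
      have h6 : j < 2 ^ j := Nat.lt_two_pow_self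
      omega
    · exact Finset.mem_filter.mpr ⟨Finset.mem_range.mpr (by omega), h3, h2⟩
  refine (Finset.card_le_card hsub2).trans ?_
  refine Finset.card_biUnion_le.trans ?_
  have hj : ∀ j ∈ Finset.range (Nat.sqrt (N + K) + 1),
      ((Finset.range (4 ^ j + 1)).filter (fun i => 4 ^ j < i + K ∧ i ≤ 4 ^ j)).card ≤ K := by
    intro j _
    have : (Finset.range (4 ^ j + 1)).filter (fun i => 4 ^ j < i + K ∧ i ≤ 4 ^ j) ⊆
        (Finset.range K).image (fun k => 4 ^ j - k) := by
      intro i hi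
      obtain ⟨_, h1, h2⟩ := Finset.mem_filter.mp hi
      exact Finset.mem_image.mpr ⟨4 ^ j - i, Finset.mem_range.mpr (by omega), by omega⟩
    calc _ ≤ _ := Finset.card_le_card this
      _ ≤ (Finset.range K).card := Finset.card_image_le
      _ = K := Finset.card_range K
  refine (Finset.sum_le_sum hj).trans ?_
  rw [Finset.sum_const, Finset.card_range, smul_eq_mul, mul_comm]

theorem bad_small (K : ℕ) (ε : ℝ) (hε : 0 < ε) :
    ∀ᶠ N : ℕ in atTop, ((bad K N).card : ℝ) ≤ ε * N := by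
  obtain ⟨s0, hs0⟩ := exists_nat_gt (4 * (K : ℝ) / ε + 1)
  filter_upwards [eventually_ge_atTop (K + (s0 + 1) ^ 2)] with N hN
  have h1 : ((bad K N).card : ℝ) ≤ K * (Nat.sqrt (N + K) + 1) := by exact_mod_cast bad_card K N
  obtain ⟨s, hs⟩ : ∃ s, s = Nat.sqrt (N + K) := ⟨_, rfl⟩
  rw [← hs] at h1
  have h2 : s * s ≤ N + K := by rw [hs]; exact Nat.sqrt_le _
  have h3 : s0 ≤ s := by
    rw [hs]
    apply Nat.le_sqrt.mpr
    nlinarith
  have h4 : (s : ℝ) * s ≤ 2 * N := by
    have : s * s ≤ 2 * N := by omega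
    exact_mod_cast this
  have h5 : 4 * (K : ℝ) / ε + 1 ≤ s := by
    have : (s0 : ℝ) ≤ s := by exact_mod_cast h3
    linarith
  have hK : (0 : ℝ) ≤ K := Nat.cast_nonneg _
  have h6 : 4 * (K : ℝ) ≤ ε * s := by
    have : 4 * (K : ℝ) / ε ≤ s := by linarith
    rw [div_le_iff₀ hε] at this
    linarith
  have h7 : (1 : ℝ) ≤ s := by
    have : 0 ≤ 4 * (K : ℝ) / ε := by positivity
    linarith
  calc ((bad K N).card : ℝ) ≤ K * (s + 1) := h1
    _ ≤ K * (2 * s) := mul_le_mul_of_nonneg_left (by linarith) hK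
    _ = (4 * K) * s / 2 := by ring
    _ ≤ (ε * s) * s / 2 := by
        apply div_le_div_of_nonneg_right _ (by norm_num)
        exact mul_le_mul_of_nonneg_right h6 (by linarith)
    _ = ε * (s * s) / 2 := by ring
    _ ≤ ε * (2 * N) / 2 := by
        apply div_le_div_of_nonneg_right _ (by norm_num)
        exact mul_le_mul_of_nonneg_left h4 hε.le
    _ = ε * N := by ring

theorem G_lip {s t : ℝ} (hs : 0 ≤ s) (hst : s ≤ t) :
    Real.log (1 + t) / Real.log 2 - Real.log (1 + s) / Real.log 2 ≤ 2 * (t - s) := by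
  have hl2 : (1 / 2 : ℝ) ≤ Real.log 2 := by have := Real.log_two_gt_d9; linarith
  rw [← sub_div, div_le_iff₀ (by linarith)]
  have h1 : Real.log (1 + t) - Real.log (1 + s) ≤ t - s := by
    rw [← Real.log_div (by linarith) (by linarith)]
    have h2 := Real.log_le_sub_one_of_pos (x := (1 + t) / (1 + s)) (by
      apply div_pos <;> linarith)
    have h3 : (1 + t) / (1 + s) - 1 = (t - s) / (1 + s) := by
      rw [div_sub_one (by linarith)]; congr 1; ring
    have h4 : (t - s) / (1 + s) ≤ t - s := by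
      apply div_le_self (by linarith) (by linarith)
    linarith
  nlinarith

/-- changing the digits of a generic point at the special positions keeps equidistribution -/
theorem generic_modify {x0 : ℝ} (hx : Irrational x0) (h01 : 0 < x0 ∧ x0 < 1)
    (hgen : ∀ t : ℚ, 0 ≤ t → t ≤ 1 →
      Tendsto (fun N : ℕ => (((Finset.range N).filter (fun n => gm^[n] x0 < (t : ℝ))).card : ℝ) / (N : ℝ))
      atTop (𝓝 (Real.log (1 + t) / Real.log 2)))
    {a : ℕ → ℕ} (ha : ∀ i, 1 ≤ a i) (had : ∀ i, ¬ Sp i → a i = dig x0 i) (t : ℝ) (ht0 : 0 ≤ t)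
    (ht1 : t ≤ 1) :
    Tendsto (fun N : ℕ => (((Finset.range N).filter (fun n => gm^[n] (val a) < t)).card : ℝ) / (N : ℝ))
      atTop (𝓝 (Real.log (1 + t) / Real.log 2)) := by
  rw [Metric.tendsto_nhds]
  intro η hη
  obtain ⟨ε, hε, hεη⟩ : ∃ ε : ℝ, 0 < ε ∧ 8 * ε = η := ⟨η / 8, by positivity, by ring⟩
  obtain ⟨K, hK⟩ : ∃ K : ℕ, (2 : ℝ) / 2 ^ K ≤ ε := by
    obtain ⟨N, hN⟩ := exists_pow_lt_of_lt_one (by positivity : (0 : ℝ) < ε / 2)
      (by norm_num : (1 / 2 : ℝ) < 1)
    refine ⟨N, ?_⟩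
    have : (2 : ℝ) / 2 ^ N = 2 * (1 / 2) ^ N := by rw [one_div, inv_pow]; ring
    rw [this]; linarith
  have hgood : ∀ N i, i < N → i ∉ bad K N → |gm^[i] x0 - gm^[i] (val a)| ≤ ε := by
    intro N i hi hb
    refine (shadow hx h01 ha i K (fun m h1 h2 => ?_)).trans hK
    apply had
    intro hsp
    exact hb (mem_bad.mpr ⟨hi, m, hsp, h1, h2⟩)
  have horb : ∀ i, 0 < gm^[i] x0 ∧ gm^[i] x0 < 1 := fun i => (orbit hx h01 i).2
  -- rational above
  obtain ⟨t1, h10, h11, h1lo, h1hi⟩ : ∃ t1 : ℚ, 0 ≤ t1 ∧ t1 ≤ 1 ∧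
      ((t1 : ℝ) = 1 ∨ t + ε ≤ t1) ∧ (t ≤ t1 ∧ (t1 : ℝ) ≤ t + 2 * ε) := by
    by_cases hc : 1 ≤ t + ε
    · exact ⟨1, by norm_num, le_refl _, Or.inl (by norm_num), by push_cast; exact ht1,
        by push_cast; linarith⟩
    · push Not at hc
      obtain ⟨r, hr1, hr2⟩ := exists_rat_btwn (show t + ε < min 1 (t + 2 * ε) by
        apply lt_min hc; linarith)
      have hr3 := hr2.trans_le (min_le_left _ _)
      have hr4 := hr2.trans_le (min_le_right _ _)
      refine ⟨r, ?_, ?_, Or.inr hr1.le, by linarith, hr4.le⟩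
      · have : (0 : ℝ) ≤ r := by linarith
        exact_mod_cast this
      · exact_mod_cast hr3.le
  obtain ⟨t2, h20, h21, h2lo, h2hi⟩ : ∃ t2 : ℚ, 0 ≤ t2 ∧ t2 ≤ 1 ∧
      ((t2 : ℝ) = 0 ∨ t2 + ε ≤ t) ∧ ((t2 : ℝ) ≤ t ∧ t - 2 * ε ≤ t2) := by
    by_cases hc : t - ε ≤ 0
    · exact ⟨0, le_refl _, by norm_num, Or.inl (by norm_num), by push_cast; exact ht0,
        by push_cast; linarith⟩
    · push Not at hc
      obtain ⟨r, hr1, hr2⟩ := exists_rat_btwn (show max 0 (t - 2 * ε) < t - ε by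
        apply max_lt hc; linarith)
      have hr3 := (le_max_left _ _).trans_lt hr1
      have hr4 := (le_max_right _ _).trans_lt hr1
      refine ⟨r, ?_, ?_, Or.inr (by linarith), by linarith, hr4.le⟩
      · exact_mod_cast hr3.le
      · have : (r : ℝ) ≤ 1 := by linarith
        exact_mod_cast this
  have e1 := (Metric.tendsto_nhds.mp (hgen t1 h10 h11)) ε hε
  have e2 := (Metric.tendsto_nhds.mp (hgen t2 h20 h21)) ε hε
  filter_upwards [e1, e2, bad_small K ε hε, eventually_gt_atTop 0] with N h1 h2 h3 hN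
  have hNr : (0 : ℝ) < N := by exact_mod_cast hN
  rw [Real.dist_eq, abs_lt] at h1 h2
  -- upper
  have hup : (((Finset.range N).filter (fun n => gm^[n] (val a) < t)).card : ℝ) ≤
      ((Finset.range N).filter (fun n => gm^[n] x0 < (t1 : ℝ))).card + (bad K N).card := by
    have : (Finset.range N).filter (fun n => gm^[n] (val a) < t) ⊆
        (Finset.range N).filter (fun n => gm^[n] x0 < (t1 : ℝ)) ∪ bad K N := by
      intro i hi
      have hi' := Finset.mem_filter.mp hi
      have hiN := Finset.mem_range.mp hi'.1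
      by_cases hb : i ∈ bad K N
      · exact Finset.mem_union_right _ hb
      · apply Finset.mem_union_left
        refine Finset.mem_filter.mpr ⟨hi'.1, ?_⟩
        rcases h1lo with h | h
        · rw [h]; exact (horb i).2
        · have := (abs_le.mp (hgood N i hiN hb)).2
          linarith [hi'.2]
    exact_mod_cast (Finset.card_le_card this).trans (Finset.card_union_le _ _)
  have hlo : (((Finset.range N).filter (fun n => gm^[n] x0 < (t2 : ℝ))).card : ℝ) ≤
      ((Finset.range N).filter (fun n => gm^[n] (val a) < t)).card + (bad K N).card := by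
    have : (Finset.range N).filter (fun n => gm^[n] x0 < (t2 : ℝ)) ⊆
        (Finset.range N).filter (fun n => gm^[n] (val a) < t) ∪ bad K N := by
      intro i hi
      have hi' := Finset.mem_filter.mp hi
      have hiN := Finset.mem_range.mp hi'.1
      by_cases hb : i ∈ bad K N
      · exact Finset.mem_union_right _ hb
      · apply Finset.mem_union_left
        refine Finset.mem_filter.mpr ⟨hi'.1, ?_⟩
        rcases h2lo with h | h
        · rw [h] at hi'; exact absurd hi'.2 (not_lt.mpr (horb i).1.le)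
        · have := (abs_le.mp (hgood N i hiN hb)).1
          linarith [hi'.2]
    exact_mod_cast (Finset.card_le_card this).trans (Finset.card_union_le _ _)
  have g1 := G_lip ht0 h1hi.1
  have g2 := G_lip (show (0 : ℝ) ≤ t2 by exact_mod_cast h20) h2hi.1
  have hup' : (((Finset.range N).filter (fun n => gm^[n] (val a) < t)).card : ℝ) / N ≤
      (((Finset.range N).filter (fun n => gm^[n] x0 < (t1 : ℝ))).card : ℝ) / N + ε := by
    rw [div_add' _ _ _ hNr.ne', div_le_div_iff_of_pos_right hNr]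
    linarith
  have hlo' : (((Finset.range N).filter (fun n => gm^[n] x0 < (t2 : ℝ))).card : ℝ) / N ≤
      (((Finset.range N).filter (fun n => gm^[n] (val a) < t)).card : ℝ) / N + ε := by
    rw [div_add' _ _ _ hNr.ne', div_le_div_iff_of_pos_right hNr]
    linarith
  rw [Real.dist_eq, abs_lt]
  constructor
  · linarith [h2.1, h2.2, h2hi.2]
  · linarith [h1.1, h1.2, h1hi.2]

end Pool.Agent.TH849.CFN
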