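import Pool.Agent.TH849.CF3
import Pool.Agent.TH849.CF6

set_option autoImplicit false

namespace Pool.Agent.TH849.CFN

open Filter Topology

theorem irr_aux (ρ : ℚ) (hρ : 0 ≤ ρ) : Irrational (√2 * (ρ : ℝ) + √2) := by
  have h1 : √2 * (ρ : ℝ) + √2 = √2 * ((ρ + 1 : ℚ) : ℝ) := by push_cast; ring
  rw [h1]
  exact irrational_sqrt_two.mul_ratCast (by positivity)

theorem stage2 {a : ℕ → ℕ} (ha : ∀ i, 1 ≤ a i) (n : ℕ) :
    ∃ b : ℕ, 1 ≤ b ∧ ∀ ξ : ℝ, 0 ≤ ξ → ξ ≤ 1 → ∃ N, n ≤ N ∧ 0 < N ∧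
      N ≤ 10 * cnt (Int.fract (√2 * F a n (1 / ((b : ℝ) + ξ)) + √2)) N := by
  obtain ⟨ρ, hρ, hF⟩ := F_rat a n
  apply stage ha n (√2) (√2) (by positivity)
  rw [hF]
  exact irr_aux ρ hρ

open Classical in
noncomputable def bch (a : ℕ → ℕ) (n : ℕ) : ℕ :=
  if h : ∀ i, 1 ≤ a i then Classical.choose (stage2 h n) else 1

theorem bch_spec {a : ℕ → ℕ} (ha : ∀ i, 1 ≤ a i) (n : ℕ) :
    1 ≤ bch a n ∧ ∀ ξ : ℝ, 0 ≤ ξ → ξ ≤ 1 → ∃ N, n ≤ N ∧ 0 < N ∧
      N ≤ 10 * cnt (Int.fract (√2 * F a n (1 / ((bch a n : ℝ) + ξ)) + √2)) N := by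
  rw [bch, dif_pos ha]
  exact Classical.choose_spec (stage2 ha n)

open Classical in
noncomputable def pre (d : ℕ → ℕ) : ℕ → (ℕ → ℕ)
  | 0 => d
  | n + 1 => if Sp n then Function.update (pre d n) n (bch (pre d n) n) else pre d n

theorem pre_succ_sp {d : ℕ → ℕ} {n : ℕ} (h : Sp n) :
    pre d (n + 1) = Function.update (pre d n) n (bch (pre d n) n) := by
  rw [pre, if_pos h]

theorem pre_succ_not {d : ℕ → ℕ} {n : ℕ} (h : ¬ Sp n) : pre d (n + 1) = pre d n := by
  rw [pre, if_neg h]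

theorem pre_pos {d : ℕ → ℕ} (hd : ∀ i, 1 ≤ d i) (n : ℕ) : ∀ i, 1 ≤ pre d n i := by
  induction n with
  | zero => exact hd
  | succ n ih =>
    intro i
    by_cases h : Sp n
    · rw [pre_succ_sp h]
      by_cases hi : i = n
      · rw [hi, Function.update_self]
        exact (bch_spec ih n).1
      · rw [Function.update_of_ne hi]; exact ih i
    · rw [pre_succ_not h]; exact ih i

theorem pre_out {d : ℕ → ℕ} (n : ℕ) : ∀ i, ¬ Sp i → pre d n i = d i := by
  induction n with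
  | zero => intro i _; rfl
  | succ n ih =>
    intro i hi
    by_cases h : Sp n
    · rw [pre_succ_sp h, Function.update_of_ne (by rintro rfl; exact hi h)]
      exact ih i hi
    · rw [pre_succ_not h]; exact ih i hi

theorem pre_stable {d : ℕ → ℕ} (i k : ℕ) : pre d (i + 1 + k) i = pre d (i + 1) i := by
  induction k with
  | zero => rfl
  | succ k ih =>
    rw [← ih, ← add_assoc]
    by_cases h : Sp (i + 1 + k)
    · rw [pre_succ_sp h, Function.update_of_ne (by omega)]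
    · rw [pre_succ_not h]

/-- the modified digit sequence -/
noncomputable def dd (d : ℕ → ℕ) (i : ℕ) : ℕ := pre d (i + 1) i

theorem dd_eq {d : ℕ → ℕ} {n i : ℕ} (h : i < n) : dd d i = pre d n i := by
  obtain ⟨k, rfl⟩ : ∃ k, n = i + 1 + k := ⟨n - (i + 1), by omega⟩
  rw [pre_stable]; rfl

theorem dd_pos {d : ℕ → ℕ} (hd : ∀ i, 1 ≤ d i) (i : ℕ) : 1 ≤ dd d i := pre_pos hd _ i

theorem dd_out {d : ℕ → ℕ} (i : ℕ) (hi : ¬ Sp i) : dd d i = d i := pre_out _ i hi

theorem dd_sp {d : ℕ → ℕ} {n : ℕ} (h : Sp n) : dd d n = bch (pre d n) n := by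
  rw [dd, pre_succ_sp h, Function.update_self]

theorem long_runs {d : ℕ → ℕ} (hd : ∀ i, 1 ≤ d i) (M : ℕ) :
    ∃ N, M ≤ N ∧ 0 < N ∧ N ≤ 10 * cnt (Int.fract (√2 * val (dd d) + √2)) N := by
  obtain ⟨n, hMn, hsp⟩ : ∃ n, M ≤ n ∧ Sp n := by
    refine ⟨4 ^ (M + 1), ?_, M + 1, by omega, rfl⟩
    have := Nat.lt_pow_self (show 1 < 4 by norm_num) (n := M + 1)
    omega
  have hpos := dd_pos hd
  have hv := val_Icc (fun i => hpos (i + (n + 1)))
  obtain ⟨N, h1, h2, h3⟩ := (bch_spec (pre_pos hd n) n).2 _ hv.1 hv.2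
  refine ⟨N, hMn.trans h1, h2, ?_⟩
  have h4 : val (dd d) = F (pre d n) n (1 / ((bch (pre d n) n : ℝ) +
      val (fun i => dd d (i + (n + 1))))) := by
    rw [val_eq_F hpos (n + 1), F_right, dd_sp hsp]
    exact F_congr (fun i hi => dd_eq hi) _
  rw [h4]
  exact h3

theorem log_est : (Real.log (1 + 63 / 100) / Real.log 2 - Real.log (1 + 3 / 5) / Real.log 2 : ℝ) < 1 / 20 := by
  have h := G_lip (s := 3 / 5) (t := 63 / 100) (by norm_num) (by norm_num)
  have hl2 : (0.69 : ℝ) < Real.log 2 := by have := Real.log_two_gt_d9; linarith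
  rw [← sub_div, ← Real.log_div (by norm_num) (by norm_num), div_lt_iff₀ (by linarith)]
  have h2 := Real.log_le_sub_one_of_pos (x := (1 + 63 / 100) / (1 + 3 / 5)) (by norm_num)
  have h3 : ((1 + 63 / 100) / (1 + 3 / 5) - 1 : ℝ) = 3 / 160 := by norm_num
  rw [h3] at h2
  linarith

theorem main : ∃ x : ℝ, Irrational x ∧ 0 ≤ x ∧ x < 1 ∧
    (∀ t : ℝ, 0 ≤ t → t ≤ 1 →
      Tendsto (fun N : ℕ => (((Finset.range N).filter (fun n => gm^[n] x < t)).card : ℝ) / (N : ℝ))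
        atTop (𝓝 (Real.log (1 + t) / Real.log 2))) ∧
    ¬ (∀ t : ℝ, 0 ≤ t → t ≤ 1 →
      Tendsto (fun N : ℕ => (((Finset.range N).filter
        (fun n => gm^[n] (Int.fract (√2 * x + √2)) < t)).card : ℝ) / (N : ℝ))
        atTop (𝓝 (Real.log (1 + t) / Real.log 2))) := by
  obtain ⟨x0, hx0, h0, h1, hgen⟩ := exists_generic
  have hd : ∀ i, 1 ≤ dig x0 i := dig_pos hx0 ⟨h0, h1⟩
  have hpos := dd_pos hd
  refine ⟨val (dd (dig x0)), val_irr hpos, (val_Ioo hpos).1.le, (val_Ioo hpos).2, ?_, ?_⟩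
  · intro t ht0 ht1
    exact generic_modify hx0 ⟨h0, h1⟩ hgen hpos (fun i hi => dd_out i hi) t ht0 ht1
  · intro hcon
    obtain ⟨y, hy⟩ : ∃ y, y = Int.fract (√2 * val (dd (dig x0)) + √2) := ⟨_, rfl⟩
    have hrun := fun M => long_runs hd M
    rw [← hy] at hcon
    simp only [← hy] at hrun
    have t1 := hcon (63 / 100) (by norm_num) (by norm_num)
    have t2 := hcon (3 / 5) (by norm_num) (by norm_num)
    have t3 := t1.sub t2
    have t4 := (tendsto_order.mp t3).2 (1 / 20) log_est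
    obtain ⟨M, hM⟩ := eventually_atTop.mp t4
    obtain ⟨N, hMN, hN0, hN⟩ := hrun M
    have h5 := hM N hMN
    have hNr : (0 : ℝ) < N := by exact_mod_cast hN0
    rw [← sub_div, div_lt_iff₀ hNr] at h5
    have hsplit : (((Finset.range N).filter (fun n => gm^[n] y < 3 / 5)).card : ℕ) + cnt y N =
        ((Finset.range N).filter (fun n => gm^[n] y < 63 / 100)).card := by
      rw [cnt, ← Finset.card_union_of_disjoint]
      · congr 1
        ext i
        simp only [Finset.mem_union, Finset.mem_filter, Finset.mem_range]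
        constructor
        · rintro (⟨h6, h7⟩ | ⟨h6, h7, h8⟩)
          · exact ⟨h6, by linarith⟩
          · exact ⟨h6, h8⟩
        · rintro ⟨h6, h7⟩
          by_cases h8 : gm^[i] y < 3 / 5
          · exact Or.inl ⟨h6, h8⟩
          · exact Or.inr ⟨h6, not_lt.mp h8, h7⟩
      · rw [Finset.disjoint_filter]
        intro i _ h6 h7
        linarith [h7.1]
    have hs' : (((Finset.range N).filter (fun n => gm^[n] y < 3 / 5)).card : ℝ) + (cnt y N : ℝ) =
        ((Finset.range N).filter (fun n => gm^[n] y < 63 / 100)).card := by exact_mod_cast hsplit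
    have hN' : (N : ℝ) ≤ 10 * cnt y N := by exact_mod_cast hN
    linarith

end Pool.Agent.TH849.CFN
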