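import Pool.Agent.TH849.Weird6

set_option autoImplicit false

namespace Pool.Agent.TH849.Weird

open Finset

theorem mass (P : Finset ℕ) (k : ℕ) (hk : ∀ p ∈ P, 0 < p ∧ p < 2 ^ (200 + k)) :
    ∑ p ∈ P, 1 / (p : ℝ) ≤ 2 ^ 200 + 2 + ∑ j ∈ Finset.Ico 200 (200 + k), wt P j := by
  classical
  rw [← Finset.sum_filter_add_sum_filter_not P (fun p => p < 2 ^ 200)]
  have h1 : ∑ p ∈ P.filter (fun p => p < 2 ^ 200), 1 / (p : ℝ) ≤ 2 ^ 200 := by
    have a1 : ∑ p ∈ P.filter (fun p => p < 2 ^ 200), 1 / (p : ℝ) ≤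
        ∑ p ∈ P.filter (fun p => p < 2 ^ 200), 1 := by
      apply Finset.sum_le_sum
      intro p hp
      have : (1 : ℝ) ≤ p := by exact_mod_cast (hk p (Finset.mem_filter.mp hp).1).1
      rw [div_le_one (by linarith)]
      exact this
    rw [Finset.sum_const, nsmul_eq_mul, mul_one] at a1
    have a2 : (P.filter (fun p => p < 2 ^ 200)).card ≤ 2 ^ 200 := by
      have : P.filter (fun p => p < 2 ^ 200) ⊆ Finset.range (2 ^ 200) := by
        intro p hp
        exact Finset.mem_range.mpr (Finset.mem_filter.mp hp).2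
      calc _ ≤ (Finset.range (2 ^ 200)).card := Finset.card_le_card this
        _ = 2 ^ 200 := Finset.card_range _
    have a3 : ((P.filter (fun p => p < 2 ^ 200)).card : ℝ) ≤ 2 ^ 200 := by exact_mod_cast a2
    exact a1.trans a3
  have h2 : ∑ p ∈ P.filter (fun p => ¬ p < 2 ^ 200), 1 / (p : ℝ) ≤
      2 + ∑ j ∈ Finset.Ico 200 (200 + k), wt P j := by
    have hmaps : ∀ p ∈ P.filter (fun p => ¬ p < 2 ^ 200), Nat.log 2 p ∈ Finset.Ico 200 (200 + k) := by
      intro p hp
      have hp' := Finset.mem_filter.mp hp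
      have b1 := (hk p hp'.1)
      have b2 : 2 ^ 200 ≤ p := not_lt.mp hp'.2
      rw [Finset.mem_Ico]
      constructor
      · exact (Nat.le_log_iff_pow_le (by norm_num) b1.1.ne').mpr b2
      · exact Nat.log_lt_of_lt_pow b1.1.ne' b1.2
    rw [← Finset.sum_fiberwise_of_maps_to hmaps]
    have hle : ∀ j ∈ Finset.Ico 200 (200 + k),
        ∑ p ∈ (P.filter (fun p => ¬ p < 2 ^ 200)).filter (fun p => Nat.log 2 p = j), 1 / (p : ℝ) ≤
          ((j : ℝ) ^ 2)⁻¹ + wt P j := by
      intro j hj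
      have hj' := Finset.mem_Ico.mp hj
      have hsub : (P.filter (fun p => ¬ p < 2 ^ 200)).filter (fun p => Nat.log 2 p = j) ⊆ sc P j := by
        intro p hp
        have c1 := Finset.mem_filter.mp hp
        have c2 := Finset.mem_filter.mp c1.1
        refine Finset.mem_filter.mpr ⟨c2.1, ?_, ?_⟩
        · rw [← c1.2]; exact Nat.pow_log_le_self 2 (hk p c2.1).1.ne'
        · rw [← c1.2]; exact Nat.lt_pow_succ_log_self (by norm_num) p
      have hpow : (0 : ℝ) < 2 ^ j := by positivity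
      have d1 : ∑ p ∈ (P.filter (fun p => ¬ p < 2 ^ 200)).filter (fun p => Nat.log 2 p = j),
          1 / (p : ℝ) ≤ ∑ p ∈ sc P j, 1 / (p : ℝ) :=
        Finset.sum_le_sum_of_subset_of_nonneg hsub (fun p _ _ => by positivity)
      have d2 : ∑ p ∈ sc P j, 1 / (p : ℝ) ≤ ∑ p ∈ sc P j, 1 / (2 : ℝ) ^ j := by
        apply Finset.sum_le_sum
        intro p hp
        apply one_div_le_one_div_of_le hpow
        exact_mod_cast (Finset.mem_filter.mp hp).2.1
      rw [Finset.sum_const, nsmul_eq_mul] at d2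
      have d3 : ((sc P j).card : ℝ) * (1 / 2 ^ j) ≤ ((j : ℝ) ^ 2)⁻¹ + wt P j := by
        by_cases hr : 2 ^ j ≤ j ^ 2 * (sc P j).card
        · have : wt P j = ((sc P j).card : ℝ) / 2 ^ j := by simp only [wt, hr, if_true]
          rw [this]
          have : (0 : ℝ) ≤ ((j : ℝ) ^ 2)⁻¹ := by positivity
          have e : ((sc P j).card : ℝ) * (1 / 2 ^ j) = ((sc P j).card : ℝ) / 2 ^ j := by ring
          linarith
        · have : wt P j = 0 := by simp only [wt, hr, if_false]
          rw [this, add_zero]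
          have hr' : (j : ℝ) ^ 2 * (sc P j).card ≤ 2 ^ j := by exact_mod_cast (not_le.mp hr).le
          have hj0 : (0 : ℝ) < (j : ℝ) ^ 2 := by
            have : (0 : ℝ) < j := by exact_mod_cast (by omega : 0 < j)
            positivity
          rw [← one_div, le_div_iff₀ hj0, mul_one_div, div_mul_eq_mul_div, div_le_one hpow]
          linarith
      linarith
    refine (Finset.sum_le_sum hle).trans ?_
    rw [Finset.sum_add_distrib]
    have hsq : ∑ j ∈ Finset.Ico 200 (200 + k), ((j : ℝ) ^ 2)⁻¹ ≤ 2 := by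
      have hsub : Finset.Ico 200 (200 + k) ⊆ Finset.Ioo 199 (200 + k) := by
        intro j hj
        have := Finset.mem_Ico.mp hj
        exact Finset.mem_Ioo.mpr (by omega)
      calc ∑ j ∈ Finset.Ico 200 (200 + k), ((j : ℝ) ^ 2)⁻¹
          ≤ ∑ j ∈ Finset.Ioo 199 (200 + k), ((j : ℝ) ^ 2)⁻¹ :=
            Finset.sum_le_sum_of_subset_of_nonneg hsub (fun p _ _ => by positivity)
        _ ≤ 2 / ((199 : ℕ) + 1) := sum_Ioo_inv_sq_le 199 (200 + k)
        _ ≤ 2 := by norm_num
    linarith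
  linarith

/-- numbers with large abundancy index are sums of distinct proper divisors. -/
theorem semiperfect_of_large (m : ℕ) (hm : 0 < m)
    (h : Real.exp (2 * (2 ^ 200 + 10)) < ((∑ i ∈ m.divisors, i : ℕ) : ℝ) / (m : ℝ)) :
    ∃ s ⊆ m.properDivisors, ∑ i ∈ s, i = m := by
  have h1 := h.trans_le (sigma_le_exp m hm)
  rw [Real.exp_lt_exp] at h1
  have hk : ∀ p ∈ m.primeFactors, 0 < p ∧ p < 2 ^ (200 + m) := by
    intro p hp
    have hp' := Nat.mem_primeFactors.mp hp
    refine ⟨hp'.1.pos, ?_⟩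
    calc p ≤ m := Nat.le_of_dvd hm hp'.2.1
      _ < 2 ^ m := Nat.lt_two_pow_self
      _ ≤ 2 ^ (200 + m) := Nat.pow_le_pow_right (by norm_num) (by omega)
  have h2 := mass m.primeFactors m hk
  exact main_rich m hm m (by linarith)

end Pool.Agent.TH849.Weird
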