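import Mathlib

set_option autoImplicit false

namespace Pool.Agent.TH849.CFN

open Filter Topology

/-- the Gauss map -/
noncomputable def gm (y : ℝ) : ℝ := Int.fract (1 / y)

/-- `[0; a 0, a 1, ..., a (n-1) + z]` -/
noncomputable def F : (ℕ → ℕ) → ℕ → ℝ → ℝ
  | _, 0, z => z
  | a, n + 1, z => 1 / ((a 0 : ℝ) + F (fun i => a (i + 1)) n z)

theorem F_zero (a : ℕ → ℕ) (z : ℝ) : F a 0 z = z := rfl

theorem F_succ (a : ℕ → ℕ) (n : ℕ) (z : ℝ) :
    F a (n + 1) z = 1 / ((a 0 : ℝ) + F (fun i => a (i + 1)) n z) := rfl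

theorem F_right (a : ℕ → ℕ) (n : ℕ) (z : ℝ) : F a (n + 1) z = F a n (1 / ((a n : ℝ) + z)) := by
  induction n generalizing a with
  | zero => rfl
  | succ n ih =>
    rw [F_succ, ih, F_succ]

theorem F_congr {a c : ℕ → ℕ} {n : ℕ} (h : ∀ i < n, a i = c i) (z : ℝ) : F a n z = F c n z := by
  induction n generalizing a c with
  | zero => rfl
  | succ n ih =>
    rw [F_succ, F_succ, h 0 (by omega), ih (fun i hi => h (i + 1) (by omega))]

theorem F_mem_Ioo {a : ℕ → ℕ} (ha : ∀ i, 1 ≤ a i) (n : ℕ) {z : ℝ} (hz : 0 < z ∧ z < 1) :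
    0 < F a n z ∧ F a n z < 1 := by
  induction n generalizing a with
  | zero => exact hz
  | succ n ih =>
    have h := ih (fun i => ha (i + 1))
    have h0 : (1 : ℝ) ≤ a 0 := by exact_mod_cast ha 0
    rw [F_succ]
    constructor
    · have := h.1; positivity
    · rw [div_lt_one (by linarith)]; linarith

theorem F_mem_Icc {a : ℕ → ℕ} (ha : ∀ i, 1 ≤ a i) (n : ℕ) {z : ℝ} (hz : 0 ≤ z ∧ z ≤ 1) :
    0 ≤ F a n z ∧ F a n z ≤ 1 := by
  induction n generalizing a with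
  | zero => exact hz
  | succ n ih =>
    have h := ih (fun i => ha (i + 1))
    have h0 : (1 : ℝ) ≤ a 0 := by exact_mod_cast ha 0
    rw [F_succ]
    constructor
    · have := h.1; positivity
    · rw [div_le_one (by linarith)]; linarith

theorem gm_F {a : ℕ → ℕ} (ha : ∀ i, 1 ≤ a i) (n : ℕ) {z : ℝ} (hz : 0 < z ∧ z < 1) :
    gm (F a (n + 1) z) = F (fun i => a (i + 1)) n z := by
  have h := F_mem_Ioo (fun i => ha (i + 1)) n hz
  rw [gm, F_succ, one_div_one_div]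
  have : Int.fract ((a 0 : ℝ) + F (fun i => a (i + 1)) n z) =
      Int.fract (F (fun i => a (i + 1)) n z) := by
    have := Int.fract_natCast_add (a 0) (F (fun i => a (i + 1)) n z)
    exact this
  rw [this]
  exact Int.fract_eq_self.mpr ⟨h.1.le, h.2⟩

theorem gm_iter_F {a : ℕ → ℕ} (ha : ∀ i, 1 ≤ a i) (k n : ℕ) {z : ℝ} (hz : 0 < z ∧ z < 1) :
    gm^[k] (F a (k + n) z) = F (fun i => a (i + k)) n z := by
  induction k generalizing a with
  | zero => simp
  | succ k ih =>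
    have e : k + 1 + n = k + n + 1 := by omega
    rw [Function.iterate_succ_apply, e, gm_F ha _ hz, ih (fun i => ha (i + 1))]
    apply F_congr
    intro i _
    congr 1

theorem gm_iter_F_self {a : ℕ → ℕ} (ha : ∀ i, 1 ≤ a i) (k : ℕ) {z : ℝ} (hz : 0 < z ∧ z < 1) :
    gm^[k] (F a k z) = z := by
  have := gm_iter_F ha k 0 hz
  simpa [F_zero] using this

/-- denominators `(q_{n-1}, q_n)` -/
def QQ (a : ℕ → ℕ) : ℕ → ℕ × ℕ
  | 0 => (0, 1)
  | n + 1 => ((QQ a n).2, a n * (QQ a n).2 + (QQ a n).1)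

def q (a : ℕ → ℕ) (n : ℕ) : ℕ := (QQ a n).2
def q' (a : ℕ → ℕ) (n : ℕ) : ℕ := (QQ a n).1

theorem q_zero (a : ℕ → ℕ) : q a 0 = 1 := rfl
theorem q'_zero (a : ℕ → ℕ) : q' a 0 = 0 := rfl
theorem q_succ (a : ℕ → ℕ) (n : ℕ) : q a (n + 1) = a n * q a n + q' a n := rfl
theorem q'_succ (a : ℕ → ℕ) (n : ℕ) : q' a (n + 1) = q a n := rfl

theorem q_pos {a : ℕ → ℕ} (ha : ∀ i, 1 ≤ a i) (n : ℕ) : 1 ≤ q a n := by
  induction n with
  | zero => rw [q_zero]
  | succ n ih =>
    rw [q_succ]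
    have := ha n
    nlinarith

theorem q'_le {a : ℕ → ℕ} (ha : ∀ i, 1 ≤ a i) (n : ℕ) : q' a n ≤ q a n := by
  cases n with
  | zero => rw [q_zero, q'_zero]; omega
  | succ n =>
    rw [q_succ, q'_succ]
    have := ha n
    have := q_pos ha n
    nlinarith

theorem q_two {a : ℕ → ℕ} (ha : ∀ i, 1 ≤ a i) (n : ℕ) : 2 * q a n ≤ q a (n + 2) := by
  rw [q_succ, q'_succ, q_succ]
  have h1 := ha n
  have h2 := ha (n + 1)
  have h3 : 1 * q a n ≤ a n * q a n := Nat.mul_le_mul_right _ h1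
  have h4 : 1 * (a n * q a n + q' a n) ≤ a (n + 1) * (a n * q a n + q' a n) :=
    Nat.mul_le_mul_right _ h2
  omega

theorem q_grow {a : ℕ → ℕ} (ha : ∀ i, 1 ≤ a i) (n : ℕ) : 2 ^ n ≤ 2 * q a n ^ 2 := by
  induction n using Nat.twoStepInduction with
  | zero => simp [q_zero]
  | one =>
    have := q_pos ha 1
    nlinarith
  | more n ih _ =>
    have h := q_two ha n
    calc 2 ^ (n + 2) = 4 * 2 ^ n := by ring
      _ ≤ 4 * (2 * q a n ^ 2) := Nat.mul_le_mul_left _ ih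
      _ = 2 * (2 * q a n) ^ 2 := by ring
      _ ≤ 2 * q a (n + 2) ^ 2 := Nat.mul_le_mul_left _ (Nat.pow_le_pow_left h 2)

theorem F_sub {a : ℕ → ℕ} (ha : ∀ i, 1 ≤ a i) (n : ℕ) {z w : ℝ} (hz : 0 ≤ z) (hw : 0 ≤ w) :
    F a n z - F a n w = (-1) ^ n * (z - w) / (((q' a n : ℝ) * z + q a n) * (q' a n * w + q a n)) := by
  induction n generalizing z w with
  | zero => simp [F_zero, q_zero, q'_zero]
  | succ n ih =>
    have h0 : (1 : ℝ) ≤ a n := by exact_mod_cast ha n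
    have hq : (1 : ℝ) ≤ q a n := by exact_mod_cast q_pos ha n
    have hq' : (0 : ℝ) ≤ q' a n := Nat.cast_nonneg _
    have hz' : 0 < (a n : ℝ) + z := by linarith
    have hw' : 0 < (a n : ℝ) + w := by linarith
    rw [F_right, F_right, ih (by positivity) (by positivity), q_succ, q'_succ]
    push_cast
    have h1 : (q' a n : ℝ) * (1 / (a n + z)) + q a n ≠ 0 := by positivity
    have h2 : (q' a n : ℝ) * (1 / (a n + w)) + q a n ≠ 0 := by positivity
    have h3 : (q a n : ℝ) * z + (a n * q a n + q' a n) ≠ 0 := by positivity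
    have h4 : (q a n : ℝ) * w + (a n * q a n + q' a n) ≠ 0 := by positivity
    rw [div_eq_div_iff (mul_ne_zero h1 h2) (mul_ne_zero h3 h4)]
    field_simp
    ring

theorem F_dist {a : ℕ → ℕ} (ha : ∀ i, 1 ≤ a i) (n : ℕ) {z w : ℝ} (hz : 0 ≤ z) (hw : 0 ≤ w) :
    |F a n z - F a n w| ≤ |z - w| / (q a n : ℝ) ^ 2 := by
  have hq : (1 : ℝ) ≤ q a n := by exact_mod_cast q_pos ha n
  have hq' : (0 : ℝ) ≤ q' a n := Nat.cast_nonneg _
  rw [F_sub ha n hz hw, abs_div, abs_mul, abs_pow, abs_neg, abs_one, one_pow, one_mul]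
  rw [abs_of_pos (by positivity : (0 : ℝ) < ((q' a n : ℝ) * z + q a n) * (q' a n * w + q a n))]
  apply div_le_div_of_nonneg_left (abs_nonneg _) (by positivity)
  rw [pow_two]
  have h1 : (q a n : ℝ) ≤ (q' a n : ℝ) * z + q a n := by
    have : 0 ≤ (q' a n : ℝ) * z := by positivity
    linarith
  have h2 : (q a n : ℝ) ≤ (q' a n : ℝ) * w + q a n := by
    have : 0 ≤ (q' a n : ℝ) * w := by positivity
    linarith
  exact mul_le_mul h1 h2 (by linarith) (by linarith)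

theorem F_dist' {a : ℕ → ℕ} (ha : ∀ i, 1 ≤ a i) (n : ℕ) {z w : ℝ} (hz : 0 ≤ z ∧ z ≤ 1)
    (hw : 0 ≤ w ∧ w ≤ 1) : |F a n z - F a n w| ≤ 2 / 2 ^ n := by
  refine (F_dist ha n hz.1 hw.1).trans ?_
  have h1 : |z - w| ≤ 1 := by rw [abs_le]; constructor <;> linarith [hz.1, hz.2, hw.1, hw.2]
  have hq : (1 : ℝ) ≤ q a n := by exact_mod_cast q_pos ha n
  have h2 : (2 : ℝ) ^ n ≤ 2 * (q a n : ℝ) ^ 2 := by exact_mod_cast q_grow ha n
  rw [div_le_div_iff₀ (by positivity) (by positivity)]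
  nlinarith [abs_nonneg (z - w), pow_pos (by norm_num : (0 : ℝ) < 2) n]

/-- the value of an infinite continued fraction `[0; a 0, a 1, ...]` -/
noncomputable def val (a : ℕ → ℕ) : ℝ := limUnder atTop (fun n => F a n 0)

theorem F_step {a : ℕ → ℕ} (ha : ∀ i, 1 ≤ a i) (n m : ℕ) :
    ∃ w : ℝ, 0 ≤ w ∧ w ≤ 1 ∧ F a (n + m) 0 = F a n w := by
  induction m generalizing n with
  | zero => exact ⟨0, le_refl _, zero_le_one, rfl⟩
  | succ m ih =>
    obtain ⟨w, hw0, hw1, hw⟩ := ih (n + 1)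
    have h0 : (1 : ℝ) ≤ a n := by exact_mod_cast ha n
    refine ⟨1 / ((a n : ℝ) + w), by positivity, ?_, ?_⟩
    · rw [div_le_one (by linarith)]; linarith
    · rw [← F_right, ← hw]
      congr 1; omega

theorem tendsto_val {a : ℕ → ℕ} (ha : ∀ i, 1 ≤ a i) :
    Tendsto (fun n => F a n 0) atTop (𝓝 (val a)) := by
  have hc : CauchySeq (fun n => F a n 0) := by
    rw [Metric.cauchySeq_iff']
    intro ε hε
    obtain ⟨N, hN⟩ : ∃ N : ℕ, (2 : ℝ) / 2 ^ N < ε := by
      obtain ⟨N, hN⟩ := exists_pow_lt_of_lt_one (by positivity : (0 : ℝ) < ε / 2)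
        (by norm_num : (1 / 2 : ℝ) < 1)
      refine ⟨N, ?_⟩
      have : (2 : ℝ) / 2 ^ N = 2 * (1 / 2) ^ N := by rw [one_div, inv_pow]; ring
      rw [this]; linarith
    refine ⟨N, fun n hn => ?_⟩
    obtain ⟨w, hw0, hw1, hw⟩ := F_step ha N (n - N)
    have e : N + (n - N) = n := by omega
    rw [e] at hw
    rw [Real.dist_eq, hw]
    exact (F_dist' ha N ⟨hw0, hw1⟩ ⟨le_refl _, zero_le_one⟩).trans_lt hN
  exact hc.tendsto_limUnder

theorem val_dist {a : ℕ → ℕ} (ha : ∀ i, 1 ≤ a i) (n : ℕ) {z : ℝ} (hz : 0 ≤ z ∧ z ≤ 1) :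
    |val a - F a n z| ≤ 2 / 2 ^ n := by
  have h1 : Tendsto (fun m => |F a m 0 - F a n z|) atTop (𝓝 |val a - F a n z|) :=
    ((tendsto_val ha).sub tendsto_const_nhds).abs
  apply le_of_tendsto h1
  filter_upwards [eventually_ge_atTop n] with m hm
  obtain ⟨w, hw0, hw1, hw⟩ := F_step ha n (m - n)
  have e : n + (m - n) = m := by omega
  rw [e] at hw
  rw [hw]
  exact F_dist' ha n ⟨hw0, hw1⟩ hz

theorem val_Icc {a : ℕ → ℕ} (ha : ∀ i, 1 ≤ a i) : 0 ≤ val a ∧ val a ≤ 1 := by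
  have h := tendsto_val ha
  constructor
  · exact ge_of_tendsto' h (fun n => (F_mem_Icc ha n ⟨le_refl _, zero_le_one⟩).1)
  · exact le_of_tendsto' h (fun n => (F_mem_Icc ha n ⟨le_refl _, zero_le_one⟩).2)

theorem val_succ {a : ℕ → ℕ} (ha : ∀ i, 1 ≤ a i) :
    val a = 1 / ((a 0 : ℝ) + val (fun i => a (i + 1))) := by
  have h1 : Tendsto (fun n => F a (n + 1) 0) atTop (𝓝 (val a)) :=
    (tendsto_val ha).comp (tendsto_add_atTop_nat 1)
  have h2 : Tendsto (fun n => F a (n + 1) 0) atTop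
      (𝓝 (1 / ((a 0 : ℝ) + val (fun i => a (i + 1))))) := by
    have ha' : ∀ i, 1 ≤ a (i + 1) := fun i => ha (i + 1)
    have h0 : (1 : ℝ) ≤ a 0 := by exact_mod_cast ha 0
    have h3 := (val_Icc ha').1
    exact tendsto_const_nhds.div (tendsto_const_nhds.add (tendsto_val ha')) (by positivity)
  exact tendsto_nhds_unique h1 h2

theorem val_Ioo {a : ℕ → ℕ} (ha : ∀ i, 1 ≤ a i) : 0 < val a ∧ val a < 1 := by
  have key : ∀ c : ℕ → ℕ, (∀ i, 1 ≤ c i) → 0 < val c := by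
    intro c hc
    rw [val_succ hc]
    have h0 : (1 : ℝ) ≤ c 0 := by exact_mod_cast hc 0
    have h3 := (val_Icc (fun i => hc (i + 1))).1
    positivity
  refine ⟨key a ha, ?_⟩
  rw [val_succ ha]
  have h0 : (1 : ℝ) ≤ a 0 := by exact_mod_cast ha 0
  have := key _ (fun i => ha (i + 1))
  rw [div_lt_one (by linarith)]
  linarith

theorem gm_val {a : ℕ → ℕ} (ha : ∀ i, 1 ≤ a i) : gm (val a) = val (fun i => a (i + 1)) := by
  have h := val_Ioo (fun i => ha (i + 1))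
  rw [gm, val_succ ha, one_div_one_div, Int.fract_natCast_add]
  exact Int.fract_eq_self.mpr ⟨h.1.le, h.2⟩

theorem gm_iter_val {a : ℕ → ℕ} (ha : ∀ i, 1 ≤ a i) (k : ℕ) :
    gm^[k] (val a) = val (fun i => a (i + k)) := by
  induction k generalizing a with
  | zero => simp
  | succ k ih =>
    rw [Function.iterate_succ_apply, gm_val ha, ih (fun i => ha (i + 1))]
    congr 1

theorem val_eq_F {a : ℕ → ℕ} (ha : ∀ i, 1 ≤ a i) (n : ℕ) :
    val a = F a n (val (fun i => a (i + n))) := by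
  induction n generalizing a with
  | zero => simp [F_zero]
  | succ n ih =>
    rw [val_succ ha, F_succ, ih (fun i => ha (i + 1))]
    congr 1

/-- rational numbers in `(0,1)` leave `(0,1)` under the Gauss map -/
theorem rat_leaves (d : ℕ) : ∀ k : ℕ, ∃ n, ¬ (0 < gm^[n] ((k : ℝ) / d)) ∨ ¬ (gm^[n] ((k : ℝ) / d) < 1) := by
  induction d using Nat.strong_induction_on with
  | _ d ih =>
    intro k
    rcases Nat.eq_zero_or_pos d with hd | hd
    · exact ⟨0, Or.inl (by simp [hd])⟩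
    by_cases hk : 0 < k ∧ k < d
    · obtain ⟨n, hn⟩ := ih k hk.2 (d % k)
      refine ⟨n + 1, ?_⟩
      rw [Function.iterate_succ_apply]
      have hkr : (0 : ℝ) < k := by exact_mod_cast hk.1
      have e : gm ((k : ℝ) / d) = ((d % k : ℕ) : ℝ) / k := by
        rw [gm, one_div_div]
        have h1 : (d : ℝ) = (k : ℝ) * ((d / k : ℕ) : ℝ) + ((d % k : ℕ) : ℝ) := by
          exact_mod_cast (Nat.div_add_mod d k).symm
        have h2 : (d : ℝ) / k = ((d / k : ℕ) : ℝ) + ((d % k : ℕ) : ℝ) / k := by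
          rw [div_eq_iff hkr.ne', add_mul, div_mul_cancel₀ _ hkr.ne']
          linarith
        rw [h2, Int.fract_natCast_add]
        apply Int.fract_eq_self.mpr
        have h3 : d % k < k := Nat.mod_lt _ hk.1
        constructor
        · positivity
        · rw [div_lt_one hkr]; exact_mod_cast h3
      rw [e]
      exact hn
    · refine ⟨0, ?_⟩
      rw [Function.iterate_zero, id]
      by_cases hk0 : 0 < k
      · right
        have hdk : d ≤ k := by
          by_contra hc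
          exact hk ⟨hk0, not_le.mp hc⟩
        rw [not_lt, one_le_div (by exact_mod_cast hd)]
        exact_mod_cast hdk
      · left
        have : k = 0 := by omega
        simp [this]

theorem irr_of_orbit {x : ℝ} (h : ∀ n, 0 < gm^[n] x ∧ gm^[n] x < 1) : Irrational x := by
  rintro ⟨ρ, rfl⟩
  have h0 := h 0
  rw [Function.iterate_zero, id] at h0
  have hρ : 0 < ρ := by exact_mod_cast h0.1
  obtain ⟨n, hn⟩ := rat_leaves ρ.den ρ.num.toNat
  have e : ((ρ.num.toNat : ℕ) : ℝ) / (ρ.den : ℝ) = (ρ : ℝ) := by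
    have h1 : ((ρ.num.toNat : ℕ) : ℤ) = ρ.num := Int.toNat_of_nonneg (Rat.num_pos.mpr hρ).le
    have h2 : ((ρ.num.toNat : ℕ) : ℝ) = (ρ.num : ℝ) := by exact_mod_cast congrArg (Int.cast (R := ℝ)) h1
    rw [h2]
    exact_mod_cast Rat.num_div_den ρ
  rw [e] at hn
  rcases hn with hn | hn
  · exact hn (h n).1
  · exact hn (h n).2

theorem val_irr {a : ℕ → ℕ} (ha : ∀ i, 1 ≤ a i) : Irrational (val a) := by
  apply irr_of_orbit
  intro n
  rw [gm_iter_val ha]
  exact val_Ioo (fun i => ha (i + n))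

/-- digits of a real -/
noncomputable def dig (x : ℝ) (n : ℕ) : ℕ := ⌊1 / gm^[n] x⌋₊

theorem gm_irr {x : ℝ} (hx : Irrational x) : Irrational (gm x) := by
  rw [gm, Int.fract]
  have : Irrational (1 / x) := by rw [one_div]; exact hx.inv
  exact this.sub_intCast _

theorem gm_range {x : ℝ} (hx : Irrational x) : 0 < gm x ∧ gm x < 1 := by
  refine ⟨lt_of_le_of_ne (Int.fract_nonneg _) ?_, Int.fract_lt_one _⟩
  intro h
  exact (gm_irr hx).ne_zero h.symm

theorem orbit {x : ℝ} (hx : Irrational x) (h : 0 < x ∧ x < 1) (n : ℕ) :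
    Irrational (gm^[n] x) ∧ 0 < gm^[n] x ∧ gm^[n] x < 1 := by
  induction n with
  | zero => exact ⟨hx, h⟩
  | succ n ih =>
    rw [Function.iterate_succ_apply']
    exact ⟨gm_irr ih.1, gm_range ih.1⟩

theorem dig_pos {x : ℝ} (hx : Irrational x) (h : 0 < x ∧ x < 1) (n : ℕ) : 1 ≤ dig x n := by
  have h1 := orbit hx h n
  rw [dig]
  apply Nat.le_floor
  rw [Nat.cast_one, one_le_div h1.2.1]
  exact h1.2.2.le

theorem step_eq {x : ℝ} (h : 0 < x) : x = 1 / ((⌊1 / x⌋₊ : ℝ) + gm x) := by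
  have h1 : (0 : ℝ) ≤ 1 / x := by positivity
  have h2 : ((⌊1 / x⌋₊ : ℝ)) + gm x = 1 / x := by
    rw [gm, natCast_floor_eq_intCast_floor h1]
    exact Int.floor_add_fract _
  rw [h2, one_div_one_div]

theorem eq_F_dig {x : ℝ} (hx : Irrational x) (h : 0 < x ∧ x < 1) (n : ℕ) :
    x = F (dig x) n (gm^[n] x) := by
  induction n with
  | zero => rfl
  | succ n ih =>
    rw [F_right, Function.iterate_succ_apply']
    have h1 := orbit hx h n
    have h2 := step_eq h1.2.1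
    rw [dig, ← h2]
    exact ih

theorem F_rat (a : ℕ → ℕ) (n : ℕ) : ∃ ρ : ℚ, 0 ≤ ρ ∧ F a n 0 = (ρ : ℝ) := by
  induction n generalizing a with
  | zero => exact ⟨0, le_refl _, by simp [F_zero]⟩
  | succ n ih =>
    obtain ⟨ρ, h0, hρ⟩ := ih (fun i => a (i + 1))
    refine ⟨1 / ((a 0 : ℚ) + ρ), by positivity, ?_⟩
    rw [F_succ, hρ]
    push_cast
    rfl

end Pool.Agent.TH849.CFN
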