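import Pool.Agent.TH849.CF1

set_option autoImplicit false

namespace Pool.Agent.TH849.CFN

open Filter Topology

/-- the reciprocal of the golden ratio -/
noncomputable def tau : ℝ := (Real.sqrt 5 - 1) / 2

theorem tau_bounds : 0.618 < tau ∧ tau < 0.6181 := by
  have h1 : (2.236 : ℝ) < Real.sqrt 5 := by
    apply Real.lt_sqrt_of_sq_lt; norm_num
  have h2 : Real.sqrt 5 < 2.2361 := by
    rw [Real.sqrt_lt' (by norm_num)]; norm_num
  unfold tau
  constructor <;> linarith

theorem tau_eq : 1 / tau = 1 + tau := by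
  have h := tau_bounds
  have h5 : Real.sqrt 5 * Real.sqrt 5 = 5 := Real.mul_self_sqrt (by norm_num)
  rw [div_eq_iff (by linarith)]
  unfold tau
  nlinarith

theorem gm_near {z : ℝ} (hz : |z - tau| ≤ 1 / 100) : |gm z - tau| ≤ 4 * |z - tau| := by
  have h := tau_bounds
  obtain ⟨h1, h2⟩ := abs_le.mp hz
  have hz0 : 0.6 < z := by linarith
  have hz1 : z < 0.63 := by linarith
  have hzp : 0 < z := by linarith
  have htp : 0 < tau := by linarith
  have hf : gm z = 1 / z - 1 := by
    rw [gm, Int.fract]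
    have : ⌊1 / z⌋ = 1 := by
      rw [Int.floor_eq_iff]
      constructor
      · rw [Int.cast_one, one_le_div (by linarith)]; linarith
      · rw [Int.cast_one, div_lt_iff₀ (by linarith)]; linarith
    rw [this, Int.cast_one]
  have ht : tau = 1 / tau - 1 := by rw [tau_eq]; ring
  have e : gm z - tau = (tau - z) / (z * tau) := by
    rw [hf]
    have : 1 / z - 1 - tau = 1 / z - 1 / tau := by rw [tau_eq]; ring
    rw [this, div_sub_div _ _ hzp.ne' htp.ne']
    congr 1; ring
  rw [e, abs_div, abs_sub_comm tau z, abs_of_pos (by positivity : (0 : ℝ) < z * tau)]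
  rw [div_le_iff₀ (by positivity)]
  have : (1 / 4 : ℝ) ≤ z * tau := by nlinarith
  nlinarith [abs_nonneg (z - tau)]

theorem gm_iter_near {z ε : ℝ} (hz : |z - tau| ≤ ε) (L : ℕ) (hL : 4 ^ L * ε ≤ 1 / 100) (l : ℕ)
    (hl : l ≤ L) : |gm^[l] z - tau| ≤ 4 ^ l * ε := by
  have hε : 0 ≤ ε := (abs_nonneg _).trans hz
  induction l with
  | zero => simpa using hz
  | succ l ih =>
    have h1 := ih (by omega)
    have h2 : (4 : ℝ) ^ l * ε ≤ 1 / 100 := by
      refine le_trans ?_ hL
      apply mul_le_mul_of_nonneg_right _ hε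
      exact pow_le_pow_right₀ (by norm_num) (by omega)
    rw [Function.iterate_succ_apply']
    refine (gm_near (h1.trans h2)).trans ?_
    rw [pow_succ]
    linarith

/-- explicit preimage near `tau` under a cylinder map -/
theorem near_preimage {c : ℕ → ℕ} (hc : ∀ i, 1 ≤ c i) (m : ℕ) (e η : ℝ) (hη : η ≤ 1 / 1000)
    (he : |e| * (4 * (q c m : ℝ) ^ 2) ≤ η) :
    ∃ z, 0 < z ∧ z < 1 ∧ |z - tau| ≤ 2 * η ∧ F c m z = F c m tau + e := by
  have h := tau_bounds
  have ht0 : 0 < tau := by linarith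
  have hR : (1 : ℝ) ≤ q c m := by exact_mod_cast q_pos hc m
  have hR'0 : (0 : ℝ) ≤ q' c m := Nat.cast_nonneg _
  have hR'R : (q' c m : ℝ) ≤ q c m := by exact_mod_cast q'_le hc m
  obtain ⟨R, hRd⟩ : ∃ R : ℝ, R = q c m := ⟨_, rfl⟩
  obtain ⟨R', hR'd⟩ : ∃ R' : ℝ, R' = q' c m := ⟨_, rfl⟩
  rw [← hRd] at hR hR'R he
  rw [← hR'd] at hR'0 hR'R
  set D := R' * tau + R with hD
  have hD0 : 1 ≤ D := by
    have : 0 ≤ R' * tau := by positivity
    linarith
  have hD2 : D ≤ 2 * R := by
    have : R' * tau ≤ R * 1 := mul_le_mul hR'R (by linarith) ht0.le (by linarith)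
    linarith
  obtain ⟨s, hs, hss⟩ : ∃ s : ℝ, (s = 1 ∨ s = -1) ∧ s = (-1) ^ m := by
    rcases neg_one_pow_eq_or ℝ m with h1 | h1
    · exact ⟨1, Or.inl rfl, h1.symm⟩
    · exact ⟨-1, Or.inr rfl, h1.symm⟩
  have hs2 : s * s = 1 := by rcases hs with rfl | rfl <;> norm_num
  have hsabs : |s * e| = |e| := by rcases hs with rfl | rfl <;> simp
  set f := s * e with hf
  have hη0 : 0 ≤ η := le_trans (by positivity) he
  have b1 : |f * R' * D| ≤ η / 2 := by
    rw [abs_mul, abs_mul, hsabs, abs_of_nonneg hR'0, abs_of_pos (by linarith : (0 : ℝ) < D)]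
    have : R' * D ≤ R * (2 * R) := mul_le_mul hR'R hD2 (by linarith) (by linarith)
    nlinarith [abs_nonneg e]
  obtain ⟨b2, b3⟩ := abs_le.mp b1
  have hden : 0 < 1 - f * R' * D := by linarith
  set z := (tau + f * R * D) / (1 - f * R' * D) with hz
  have hzt : z - tau = f * D * (R + tau * R') / (1 - f * R' * D) := by
    rw [hz, div_sub' hden.ne']
    congr 1; ring
  have habs : |z - tau| ≤ 2 * η := by
    rw [hzt, abs_div, abs_of_pos hden, div_le_iff₀ hden, abs_mul, abs_mul, hsabs,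
      abs_of_pos (by linarith : (0 : ℝ) < D), abs_of_pos (by positivity : (0 : ℝ) < R + tau * R')]
    have h1 : R + tau * R' ≤ 2 * R := by
      have : R' * tau ≤ R * 1 := mul_le_mul hR'R (by linarith) ht0.le (by linarith)
      linarith
    have h2 : |e| * D * (R + tau * R') ≤ |e| * (2 * R) * (2 * R) := by
      apply mul_le_mul _ h1 (by positivity) (by positivity)
      exact mul_le_mul_of_nonneg_left hD2 (abs_nonneg _)
    nlinarith
  obtain ⟨c1, c2⟩ := abs_le.mp habs
  have hz0 : 0 < z := by linarith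
  have hz1 : z < 1 := by linarith
  refine ⟨z, hz0, hz1, habs, ?_⟩
  have hsub := F_sub hc m hz0.le ht0.le
  rw [← hRd, ← hR'd, ← hss] at hsub
  have hzeq : z * (1 - f * R' * D) = tau + f * R * D := by
    rw [hz, div_mul_cancel₀ _ hden.ne']
  have hprod : z - tau = f * ((R' * z + R) * (R' * tau + R)) := by
    rw [← hD]; linear_combination hzeq
  have hp1 : 0 < (R' * z + R) * (R' * tau + R) := by positivity
  have : F c m z - F c m tau = e := by
    rw [hsub, hprod, hf]
    rw [div_eq_iff hp1.ne']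
    linear_combination (e * ((R' * z + R) * (R' * tau + R))) * hs2
  linarith

end Pool.Agent.TH849.CFN
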