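import Pool.Agent.TH849.CF2

set_option autoImplicit false

namespace Pool.Agent.TH849.CFN

open Filter Topology

/-- number of visits of the orbit of `y` to the window around `tau` -/
noncomputable def cnt (y : ℝ) (N : ℕ) : ℕ :=
  ((Finset.range N).filter (fun i => 3 / 5 ≤ gm^[i] y ∧ gm^[i] y < 63 / 100)).card

theorem QQ_congr {a c : ℕ → ℕ} {n : ℕ} (h : ∀ i < n, a i = c i) : QQ a n = QQ c n := by
  induction n with
  | zero => rfl
  | succ n ih =>
    have := ih (fun i hi => h i (by omega))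
    simp only [QQ, this, h n (by omega)]

theorem stage {a : ℕ → ℕ} (ha : ∀ i, 1 ≤ a i) (n : ℕ) (q0 r : ℝ) (hq0 : q0 ≠ 0)
    (hθ : Irrational (q0 * F a n 0 + r)) (K0 : ℕ) :
    ∃ b : ℕ, 1 ≤ b ∧ ∀ ξ : ℝ, 0 ≤ ξ → ξ ≤ 1 → ∃ N, K0 ≤ N ∧ 0 < N ∧
      N ≤ 10 * cnt (Int.fract (q0 * F a n (1 / ((b : ℝ) + ξ)) + r)) N := by
  obtain ⟨θ, hθd⟩ : ∃ θ, θ = q0 * F a n 0 + r := ⟨_, rfl⟩
  rw [← hθd] at hθ
  set f := Int.fract θ with hf
  have hfirr : Irrational f := by rw [hf, Int.fract]; exact hθ.sub_intCast _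
  have hf01 : 0 < f ∧ f < 1 :=
    ⟨lt_of_le_of_ne (Int.fract_nonneg _) (fun h => hfirr.ne_zero h.symm), Int.fract_lt_one _⟩
  set c := dig f with hcdef
  have hc : ∀ i, 1 ≤ c i := dig_pos hfirr hf01
  obtain ⟨A, hA⟩ : ∃ A : ℝ, A = q a n := ⟨_, rfl⟩
  obtain ⟨A', hA'⟩ : ∃ A' : ℝ, A' = q' a n := ⟨_, rfl⟩
  have hA1 : 1 ≤ A := by rw [hA]; exact_mod_cast q_pos ha n
  have hA'0 : 0 ≤ A' := by rw [hA']; exact Nat.cast_nonneg _
  have hA'A : A' ≤ A := by rw [hA, hA']; exact_mod_cast q'_le ha n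
  have hP0 : 0 < |q0| := abs_pos.mpr hq0
  obtain ⟨K2, hK2⟩ : ∃ K2 : ℕ, 1000 * (512 * A ^ 2 / |q0|) ≤ 2 ^ K2 := by
    obtain ⟨m, hm⟩ := pow_unbounded_of_one_lt (1000 * (512 * A ^ 2 / |q0|)) (by norm_num : (1 : ℝ) < 2)
    exact ⟨m, hm.le⟩
  obtain ⟨k, hkK, hkpar⟩ : ∃ k, 2 * K2 + K0 + 10 ≤ k ∧ (-1 : ℝ) ^ (k + n + 1) * q0 = |q0| := by
    have h1 : ∀ m : ℕ, (-1 : ℝ) ^ m * q0 = |q0| ∨ (-1 : ℝ) ^ (m + 1) * q0 = |q0| := by
      intro m
      rw [pow_succ]
      rcases neg_one_pow_eq_or ℝ m with h | h <;> rcases abs_choice q0 with h' | h' <;>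
        rw [h, h'] <;> simp
    rcases h1 (2 * K2 + K0 + 10 + n + 1) with h | h
    · exact ⟨2 * K2 + K0 + 10, le_refl _, h⟩
    · refine ⟨2 * K2 + K0 + 10 + 1, by omega, ?_⟩
      rw [← h]; congr 2; omega
  have ht := tau_bounds
  have ht0 : 0 < tau := by linarith
  -- digits modified at position k
  set c' := Function.update c k (c k + 1) with hc'def
  have hc' : ∀ i, 1 ≤ c' i := by
    intro i
    by_cases hi : i = k
    · rw [hc'def, hi, Function.update_self]; omega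
    · rw [hc'def, Function.update_of_ne hi]; exact hc i
  have hcc : ∀ i < k, c' i = c i := fun i hi => by
    rw [hc'def, Function.update_of_ne (by omega)]
  have hc'k : c' k = c k + 1 := by rw [hc'def, Function.update_self]
  set ζ := gm^[k + 1] f with hζ
  have hζ01 := (orbit hfirr hf01 (k + 1)).2
  rw [← hζ] at hζ01
  have hfF : f = F c k (1 / ((c k : ℝ) + ζ)) := by
    rw [← F_right]; exact eq_F_dig hfirr hf01 (k + 1)
  obtain ⟨Y0, hY0⟩ : ∃ Y0, Y0 = F c' (k + 1) tau := ⟨_, rfl⟩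
  have hY0' : Y0 = F c k (1 / ((c k : ℝ) + 1 + tau)) := by
    rw [hY0, F_right, F_congr hcc, hc'k]; push_cast; rfl
  obtain ⟨E, hE⟩ : ∃ E : ℝ, E = q c (k + 1) := ⟨_, rfl⟩
  obtain ⟨B, hB⟩ : ∃ B : ℝ, B = q c k := ⟨_, rfl⟩
  obtain ⟨B', hB'⟩ : ∃ B' : ℝ, B' = q' c k := ⟨_, rfl⟩
  obtain ⟨ck, hck⟩ : ∃ ck : ℝ, ck = c k := ⟨_, rfl⟩
  have hck1 : 1 ≤ ck := by rw [hck]; exact_mod_cast hc k
  have hB1 : 1 ≤ B := by rw [hB]; exact_mod_cast q_pos hc k
  have hB'0 : 0 ≤ B' := by rw [hB']; exact Nat.cast_nonneg _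
  have hEeq : E = ck * B + B' := by rw [hE, hck, hB, hB', q_succ]; push_cast; ring
  have hEB : B ≤ E := by
    have h1 : 1 * B ≤ ck * B := mul_le_mul_of_nonneg_right hck1 (by linarith only [hB1])
    linarith only [h1, hEeq, hB'0]
  have hE1 : 1 ≤ E := by linarith
  have hE2 : (2 : ℝ) ^ k ≤ E ^ 2 := by
    have h1 := q_grow hc (k + 1)
    have h2 : (2 : ℝ) ^ (k + 1) ≤ 2 * (q c (k + 1) : ℝ) ^ 2 := by exact_mod_cast h1
    rw [← hE, pow_succ] at h2
    linarith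
  obtain ⟨u, hu⟩ : ∃ u : ℝ, u = 1 / (ck + 1 + tau) := ⟨_, rfl⟩
  obtain ⟨v, hv⟩ : ∃ v : ℝ, v = 1 / (ck + ζ) := ⟨_, rfl⟩
  have hζ0 := hζ01.1
  have hu0 : 0 < u := by rw [hu]; positivity
  have hv0 : 0 < v := by rw [hv]; positivity
  have hu' : u * (ck + 1 + tau) = 1 := by rw [hu]; field_simp
  have hv' : v * (ck + ζ) = 1 := by rw [hv]; field_simp
  have huv : v - u = (1 + tau - ζ) * (u * v) := by
    linear_combination (-v) * hu' + u * hv'
  obtain ⟨g, hg⟩ : ∃ g : ℝ, g = (v - u) / ((B' * u + B) * (B' * v + B)) := ⟨_, rfl⟩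
  have hden : 0 < (B' * u + B) * (B' * v + B) := by positivity
  have hg0 : 0 < g := by
    rw [hg, huv]
    apply div_pos _ hden
    have : 0 < 1 + tau - ζ := by linarith [hζ01.2]
    positivity
  have hgE : g ≤ 2 / E ^ 2 := by
    rw [hg, div_le_div_iff₀ hden (by positivity), huv]
    have h1 : (B' * u + B) * (B' * v + B) =
        (u * v) * ((B' + B * (ck + 1 + tau)) * (B' + B * (ck + ζ))) := by
      have e1 : B' * u + B = u * (B' + B * (ck + 1 + tau)) := by linear_combination (-B) * hu'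
      have e2 : B' * v + B = v * (B' + B * (ck + ζ)) := by linear_combination (-B) * hv'
      rw [e1, e2]; ring
    rw [h1]
    have h2 : E ^ 2 ≤ (B' + B * (ck + 1 + tau)) * (B' + B * (ck + ζ)) := by
      rw [pow_two]
      have e1 : E ≤ B' + B * (ck + 1 + tau) := by
        have a1 : 0 ≤ B * (1 + tau) := by positivity
        have a2 : B' + B * (ck + 1 + tau) = ck * B + B' + B * (1 + tau) := by ring
        rw [hEeq, a2]; linarith
      have e2 : E ≤ B' + B * (ck + ζ) := by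
        have a1 : 0 ≤ B * ζ := by positivity
        have a2 : B' + B * (ck + ζ) = ck * B + B' + B * ζ := by ring
        rw [hEeq, a2]; linarith
      exact mul_le_mul e1 e2 (by linarith) (by linarith)
    have h3 : 1 + tau - ζ ≤ 2 := by linarith
    have h4 : 0 < u * v := by positivity
    calc (1 + tau - ζ) * (u * v) * E ^ 2 ≤ 2 * (u * v) * E ^ 2 := by
          apply mul_le_mul_of_nonneg_right _ (by positivity)
          exact mul_le_mul_of_nonneg_right h3 h4.le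
      _ = 2 * ((u * v) * E ^ 2) := by ring
      _ ≤ 2 * (u * v * ((B' + B * (ck + 1 + tau)) * (B' + B * (ck + ζ)))) := by
          apply mul_le_mul_of_nonneg_left _ (by norm_num)
          exact mul_le_mul_of_nonneg_left h2 h4.le
  have hdD : Y0 - f = (-1) ^ (k + 1) * g := by
    rw [hY0', hfF, ← hck, ← hu, ← hv, F_sub hc k hu0.le hv0.le, ← hB, ← hB', hg, pow_succ]
    ring
  -- the perturbation
  obtain ⟨δ, hδ⟩ : ∃ δ : ℝ, δ = g / |q0| := ⟨_, rfl⟩
  have hδ0 : 0 < δ := by rw [hδ]; positivity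
  have hδE : δ ≤ 2 / (|q0| * E ^ 2) := by
    rw [hδ, div_le_div_iff₀ hP0 (by positivity)]
    rw [le_div_iff₀ (by positivity)] at hgE
    have h1 := mul_le_mul_of_nonneg_left hgE hP0.le
    linarith only [h1]
  have hqδ : q0 * ((-1) ^ n * δ) = (-1) ^ (k + 1) * g := by
    have h1 : ((-1 : ℝ) ^ (k + 1)) * ((-1 : ℝ) ^ (k + 1)) = 1 := by
      rw [← pow_add, ← two_mul, pow_mul]; norm_num
    have h2 : (-1 : ℝ) ^ (k + 1) * ((-1) ^ n * q0) = |q0| := by
      rw [← hkpar, ← mul_assoc, ← pow_add]; congr 2; omega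
    have h3 : (-1 : ℝ) ^ n * q0 = (-1) ^ (k + 1) * |q0| := by
      rw [← h2]; linear_combination (-((-1 : ℝ) ^ n * q0)) * h1
    have h4 : δ * |q0| = g := by rw [hδ]; field_simp
    calc q0 * ((-1) ^ n * δ) = ((-1 : ℝ) ^ n * q0) * δ := by ring
      _ = (-1) ^ (k + 1) * (δ * |q0|) := by rw [h3]; ring
      _ = _ := by rw [h4]
  -- C0 / E^2 small
  obtain ⟨η, hη⟩ : ∃ η : ℝ, η = 512 * A ^ 2 / |q0| / E ^ 2 := ⟨_, rfl⟩
  have hη0 : 0 < η := by rw [hη]; positivity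
  have hηk : 1000 * (2 ^ (k - K2) * η) ≤ 1 := by
    have h1 : η ≤ 512 * A ^ 2 / |q0| / 2 ^ k := by
      rw [hη]
      exact div_le_div_of_nonneg_left (by positivity) (by positivity) hE2
    have h2 : (2 : ℝ) ^ k = 2 ^ (k - K2) * 2 ^ K2 := by rw [← pow_add]; congr 1; omega
    have h3 : (0 : ℝ) < 2 ^ (k - K2) := by positivity
    rw [le_div_iff₀ (by positivity), h2] at h1
    have h4 : (0 : ℝ) < 2 ^ K2 := by positivity
    have h5 : 1000 * (2 ^ (k - K2) * η) * 2 ^ K2 ≤ 1 * 2 ^ K2 := by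
      calc 1000 * (2 ^ (k - K2) * η) * 2 ^ K2 = 1000 * (η * (2 ^ (k - K2) * 2 ^ K2)) := by ring
        _ ≤ 1000 * (512 * A ^ 2 / |q0|) := by linarith
        _ ≤ 1 * 2 ^ K2 := by linarith
    exact le_of_mul_le_mul_right h5 h4
  have hη1 : η ≤ 1 / 1000 := by
    have : (1 : ℝ) ≤ 2 ^ (k - K2) := one_le_pow₀ (by norm_num)
    have h2 := mul_le_mul_of_nonneg_right this hη0.le
    linarith only [h2, hηk]
  have hδA : δ * A ^ 2 ≤ η / 256 := by
    rw [hη]
    have h1 : δ * A ^ 2 ≤ 2 / (|q0| * E ^ 2) * A ^ 2 :=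
      mul_le_mul_of_nonneg_right hδE (by positivity)
    refine h1.trans (le_of_eq ?_)
    field_simp
    norm_num
  have hδAA : δ * A * A' ≤ 1 / 1000 := by
    have h1 : δ * A * A' ≤ δ * A * A := mul_le_mul_of_nonneg_left hA'A (by positivity)
    have h2 : δ * A * A = δ * A ^ 2 := by ring
    linarith only [h1, h2, hδA, hη1]
  have hδAA0 : 0 ≤ δ * A * A' := by positivity
  set z0 := δ * A ^ 2 / (1 - δ * A * A') with hz0
  have hz0pos : 0 < z0 := by
    rw [hz0]; apply div_pos (by positivity); linarith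
  have hz0le : z0 ≤ 2 * (δ * A ^ 2) := by
    rw [hz0, div_le_iff₀ (by linarith only [hδAA])]
    have h1 : 0 < δ * A ^ 2 := by positivity
    have h2 := mul_le_mul_of_nonneg_left (show (1 / 2 : ℝ) ≤ 1 - δ * A * A' by linarith only [hδAA])
      h1.le
    linarith only [h2]
  have hz0small : z0 ≤ 1 / 500 := by linarith
  have hz0eq : z0 * (1 - δ * A * A') = δ * A ^ 2 := by
    rw [hz0, div_mul_cancel₀ _ (by linarith)]
  have hFz0 : F a n z0 - F a n 0 = (-1) ^ n * δ := by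
    rw [F_sub ha n hz0pos.le (le_refl _), ← hA, ← hA']
    rw [div_eq_iff (by positivity)]
    linear_combination ((-1) ^ n) * hz0eq
  have hyk : q0 * F a n z0 + r = (⌊θ⌋ : ℝ) + Y0 := by
    have h1 : q0 * F a n z0 + r = θ + q0 * ((-1) ^ n * δ) := by
      rw [← hFz0, hθd]; ring
    rw [h1, hqδ, ← hdD]
    have h2 : (⌊θ⌋ : ℝ) + f = θ := Int.floor_add_fract θ
    linarith
  obtain ⟨β, hβ⟩ : ∃ β : ℝ, β = 1 / z0 := ⟨_, rfl⟩
  have hβ500 : 500 ≤ β := by
    rw [hβ, le_div_iff₀ hz0pos]; linarith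
  have hβz : β * z0 = 1 := by rw [hβ]; field_simp
  refine ⟨⌊β⌋₊, Nat.le_floor (by rw [Nat.cast_one]; linarith), ?_⟩
  intro ξ hξ0 hξ1
  obtain ⟨b, hb⟩ : ∃ b : ℝ, b = (⌊β⌋₊ : ℝ) := ⟨_, rfl⟩
  rw [← hb]
  have hb1 : b ≤ β := by rw [hb]; exact Nat.floor_le (by linarith)
  have hb2 : β < b + 1 := by rw [hb]; exact Nat.lt_floor_add_one β
  obtain ⟨z, hz⟩ : ∃ z : ℝ, z = 1 / (b + ξ) := ⟨_, rfl⟩
  rw [← hz]
  have hbξ : β / 2 ≤ b + ξ := by linarith
  have hbξ0 : 0 < b + ξ := by linarith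
  have hz0' : 0 < z := by rw [hz]; positivity
  have hzeq : z * (b + ξ) = 1 := by rw [hz]; field_simp
  have hzz : |z - z0| ≤ 2 * z0 ^ 2 := by
    have e1 : z - z0 = (β - (b + ξ)) * (z * z0) := by
      linear_combination (-z) * hβz + z0 * hzeq
    have e2 : |β - (b + ξ)| ≤ 1 := by rw [abs_le]; constructor <;> linarith
    have e3 : z ≤ 2 * z0 := by
      have : z * (β / 2) ≤ 1 := by
        calc z * (β / 2) ≤ z * (b + ξ) := mul_le_mul_of_nonneg_left hbξ hz0'.le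
          _ = 1 := hzeq
      have h2 : z * β ≤ 2 := by linarith
      calc z = (z * β) * z0 := by linear_combination (-z) * hβz
        _ ≤ 2 * z0 := mul_le_mul_of_nonneg_right h2 hz0pos.le
    rw [e1, abs_mul, abs_of_pos (by positivity : 0 < z * z0)]
    calc |β - (b + ξ)| * (z * z0) ≤ 1 * (2 * z0 * z0) := by
          apply mul_le_mul e2 (mul_le_mul_of_nonneg_right e3 hz0pos.le) (by positivity) (by norm_num)
      _ = _ := by ring
  obtain ⟨e, he⟩ : ∃ e : ℝ, e = q0 * (F a n z - F a n z0) := ⟨_, rfl⟩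
  have hy : q0 * F a n z + r = (⌊θ⌋ : ℝ) + (Y0 + e) := by
    rw [he]; linear_combination hyk
  have hRle : (q c' (k + 1) : ℝ) ≤ 2 * E := by
    have h1 : QQ c' k = QQ c k := QQ_congr hcc
    have h2 : q c' (k + 1) = (c k + 1) * q c k + q' c k := by
      rw [q_succ, hc'k]; unfold q q'; rw [h1]
    rw [h2]; push_cast
    rw [← hck, ← hB, ← hB']
    linarith
  have hebound : |e| * (4 * (q c' (k + 1) : ℝ) ^ 2) ≤ η := by
    have h1 : |e| ≤ |q0| * (|z - z0| / A ^ 2) := by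
      rw [he, abs_mul, hA]
      exact mul_le_mul_of_nonneg_left (F_dist ha n hz0'.le hz0pos.le) (abs_nonneg _)
    have h2 : |z - z0| ≤ 8 * (δ * A ^ 2) ^ 2 := by
      refine hzz.trans ?_
      have h3 := pow_le_pow_left₀ hz0pos.le hz0le 2
      have h4 : (2 * (δ * A ^ 2)) ^ 2 = 4 * (δ * A ^ 2) ^ 2 := by ring
      linarith only [h3, h4]
    have h3 : |e| ≤ 8 * |q0| * δ ^ 2 * A ^ 2 := by
      refine h1.trans ?_
      have : |z - z0| / A ^ 2 ≤ 8 * (δ * A ^ 2) ^ 2 / A ^ 2 :=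
        div_le_div_of_nonneg_right h2 (by positivity)
      calc |q0| * (|z - z0| / A ^ 2) ≤ |q0| * (8 * (δ * A ^ 2) ^ 2 / A ^ 2) :=
            mul_le_mul_of_nonneg_left this (abs_nonneg _)
        _ = _ := by field_simp
    have h4 : 4 * (q c' (k + 1) : ℝ) ^ 2 ≤ 16 * E ^ 2 := by
      have h0 : (0 : ℝ) ≤ q c' (k + 1) := Nat.cast_nonneg _
      have h2 := pow_le_pow_left₀ h0 hRle 2
      have h3 : (2 * E) ^ 2 = 4 * E ^ 2 := by ring
      linarith only [h2, h3]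
    have h5 : |e| * (4 * (q c' (k + 1) : ℝ) ^ 2) ≤ (8 * |q0| * δ ^ 2 * A ^ 2) * (16 * E ^ 2) :=
      mul_le_mul h3 h4 (by positivity) (by positivity)
    refine h5.trans ?_
    have h6 : δ * (|q0| * E ^ 2) ≤ 2 := by
      rw [le_div_iff₀ (by positivity)] at hδE; exact hδE
    have h7 : (8 * |q0| * δ ^ 2 * A ^ 2) * (16 * E ^ 2) = 128 * (δ * (|q0| * E ^ 2)) * (δ * A ^ 2) := by
      ring
    rw [h7]
    have h8 : 128 * (δ * (|q0| * E ^ 2)) * (δ * A ^ 2) ≤ 128 * 2 * (η / 256) := by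
      apply mul_le_mul _ hδA (by positivity) (by norm_num)
      linarith
    linarith
  obtain ⟨z2, hz20, hz21, hz2t, hz2F⟩ := near_preimage hc' (k + 1) e η hη1 hebound
  rw [← hY0] at hz2F
  have hFr : Int.fract (q0 * F a n z + r) = F c' (k + 1) z2 := by
    rw [hy, ← hz2F, Int.fract_intCast_add]
    have := F_mem_Ioo hc' (k + 1) ⟨hz20, hz21⟩
    exact Int.fract_eq_self.mpr ⟨this.1.le, this.2⟩
  set L := (k - K2) / 2 with hL
  have h4L : (4 : ℝ) ^ L * (2 * η) ≤ 1 / 100 := by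
    have h1 : (4 : ℝ) ^ L ≤ 2 ^ (k - K2) := by
      have : (4 : ℝ) = 2 ^ 2 := by norm_num
      rw [this, ← pow_mul]
      exact pow_le_pow_right₀ (by norm_num) (by omega)
    have h2 : (4 : ℝ) ^ L * η ≤ 2 ^ (k - K2) * η := mul_le_mul_of_nonneg_right h1 hη0.le
    linarith
  refine ⟨k + 1 + L, by omega, by omega, ?_⟩
  have hcnt : L ≤ cnt (Int.fract (q0 * F a n z + r)) (k + 1 + L) := by
    rw [cnt, hFr]
    have hinj : Set.InjOn (fun l : ℕ => l + (k + 1)) (Finset.range L : Set ℕ) := by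
      intro x _ y _ h
      simpa using h
    calc L = ((Finset.range L).image (fun l => l + (k + 1))).card := by
          rw [Finset.card_image_of_injOn hinj, Finset.card_range]
      _ ≤ _ := by
        apply Finset.card_le_card
        intro i hi
        obtain ⟨l, hl, rfl⟩ := Finset.mem_image.mp hi
        have hl' := Finset.mem_range.mp hl
        have h1 := gm_iter_near hz2t L h4L l hl'.le
        have h2 : (4 : ℝ) ^ l * (2 * η) ≤ 1 / 100 := by
          refine le_trans ?_ h4L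
          apply mul_le_mul_of_nonneg_right _ (by positivity)
          exact pow_le_pow_right₀ (by norm_num) hl'.le
        obtain ⟨h3, h4⟩ := abs_le.mp (h1.trans h2)
        refine Finset.mem_filter.mpr ⟨Finset.mem_range.mpr (by omega), ?_⟩
        rw [Function.iterate_add_apply, gm_iter_F_self hc' _ ⟨hz20, hz21⟩]
        constructor <;> linarith
  omega

end Pool.Agent.TH849.CFN
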