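import Pool.Agent.TH849.CF1

set_option autoImplicit false

namespace Pool.Agent.TH849.CFN

open MeasureTheory Set Filter Topology

/-- the Gauss measure on `(0, 1)` -/
noncomputable def gauss : Measure ℝ :=
  (volume.restrict (Ioo 0 1)).withDensity (fun x => ENNReal.ofReal (1 / (Real.log 2 * (1 + x))))

theorem gauss_ac : gauss ≪ volume.restrict (Ioo 0 1) := withDensity_absolutelyContinuous _ _

theorem meas_rho : Measurable (fun x : ℝ => ENNReal.ofReal (1 / (Real.log 2 * (1 + x)))) := by
  fun_prop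

theorem gauss_Icc {a b : ℝ} (ha : 0 ≤ a) (hab : a ≤ b) (hb : b ≤ 1) :
    gauss (Icc a b) = ENNReal.ofReal ((Real.log (1 + b) - Real.log (1 + a)) / Real.log 2) := by
  have hl2 : 0 < Real.log 2 := Real.log_pos (by norm_num)
  rw [gauss, withDensity_apply _ measurableSet_Icc, Measure.restrict_restrict measurableSet_Icc]
  have h1 : (Icc a b ∩ Ioo 0 1 : Set ℝ) =ᵐ[volume] Ioc a b := by
    have e1 : (Icc a b : Set ℝ) =ᵐ[volume] Ioc a b := Ioc_ae_eq_Icc.symm
    have e2 : (Ioo 0 1 : Set ℝ) =ᵐ[volume] Icc 0 1 := Ioo_ae_eq_Icc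
    have e3 : (Icc a b ∩ Icc 0 1 : Set ℝ) = Icc a b := by
      apply inter_eq_left.mpr
      exact Icc_subset_Icc ha hb
    have e4 := (ae_eq_refl (μ := volume) (Icc a b : Set ℝ)).inter e2
    rw [e3] at e4
    exact e4.trans e1
  rw [setLIntegral_congr h1]
  have hderiv : ∀ x ∈ uIcc a b, HasDerivAt (fun y => Real.log (1 + y) / Real.log 2)
      (1 / (Real.log 2 * (1 + x))) x := by
    intro x hx
    rw [uIcc_of_le hab] at hx
    have hx1 : (1 + x) ≠ 0 := by linarith [hx.1]
    have h2 : HasDerivAt (fun y : ℝ => 1 + y) 1 x := by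
      simpa using (hasDerivAt_id x).const_add 1
    have h3 := (h2.log hx1).div_const (Real.log 2)
    have e : 1 / (Real.log 2 * (1 + x)) = 1 / (1 + x) / Real.log 2 := by rw [div_div, mul_comm]
    rw [e]
    exact h3
  have hint : IntervalIntegrable (fun x => 1 / (Real.log 2 * (1 + x))) volume a b := by
    apply ContinuousOn.intervalIntegrable
    rw [uIcc_of_le hab]
    apply ContinuousOn.div continuousOn_const (by fun_prop)
    intro x hx
    have : 0 < 1 + x := by linarith [hx.1]
    positivity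
  have hFTC := intervalIntegral.integral_eq_sub_of_hasDerivAt hderiv hint
  rw [intervalIntegral.integral_of_le hab] at hFTC
  rw [← ofReal_integral_eq_lintegral_ofReal]
  · rw [hFTC]; congr 1; ring
  · rw [intervalIntegrable_iff_integrableOn_Ioc_of_le hab] at hint
    exact hint
  · rw [EventuallyLE, ae_restrict_iff' measurableSet_Ioc]
    filter_upwards with x hx
    have : 0 < 1 + x := by linarith [hx.1]
    simp only [Pi.zero_apply]
    positivity

theorem gauss_supp (s : Set ℝ) (hs : Disjoint s (Ioo 0 1)) (hm : MeasurableSet s) : gauss s = 0 := by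
  apply gauss_ac
  rw [Measure.restrict_apply hm, hs.inter_eq, measure_empty]

theorem gauss_inter {s : Set ℝ} (hm : MeasurableSet s) : gauss s = gauss (s ∩ Ioo 0 1) := by
  have h1 : gauss s ≤ gauss (s ∩ Ioo 0 1) + gauss (s \ Ioo 0 1) := by
    calc gauss s = gauss ((s ∩ Ioo 0 1) ∪ (s \ Ioo 0 1)) := by rw [inter_union_sdiff]
      _ ≤ _ := measure_union_le _ _
  have h2 : gauss (s \ Ioo 0 1) = 0 :=
    gauss_supp _ disjoint_sdiff_left (hm.diff measurableSet_Ioo)
  rw [h2, add_zero] at h1
  exact le_antisymm h1 (measure_mono inter_subset_left)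

theorem gauss_univ : gauss univ = 1 := by
  rw [gauss_inter MeasurableSet.univ, univ_inter]
  have h1 : gauss (Icc 0 1) = 1 := by
    rw [gauss_Icc (le_refl _) zero_le_one (le_refl _)]
    have hl2 : 0 < Real.log 2 := Real.log_pos (by norm_num)
    norm_num [hl2.ne']
  rw [gauss_inter measurableSet_Icc] at h1
  rw [← h1]
  congr 1
  rw [inter_eq_right.mpr Ioo_subset_Icc_self]

instance : IsProbabilityMeasure gauss := ⟨gauss_univ⟩

theorem gauss_Iic {t : ℝ} (h0 : 0 ≤ t) (h1 : t ≤ 1) :
    gauss (Iic t) = ENNReal.ofReal (Real.log (1 + t) / Real.log 2) := by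
  have h2 := gauss_Icc (le_refl (0 : ℝ)) h0 h1
  simp only [add_zero, Real.log_one, sub_zero] at h2
  rw [← h2, gauss_inter measurableSet_Iic, gauss_inter measurableSet_Icc]
  congr 1
  ext x
  simp only [mem_inter_iff, mem_Iic, mem_Icc, mem_Ioo]
  constructor
  · rintro ⟨a, b, c⟩; exact ⟨⟨b.le, a⟩, b, c⟩
  · rintro ⟨⟨_, a⟩, b, c⟩; exact ⟨a, b, c⟩

theorem gauss_Iio {t : ℝ} (h0 : 0 ≤ t) (h1 : t ≤ 1) :
    gauss (Iio t) = ENNReal.ofReal (Real.log (1 + t) / Real.log 2) := by
  rw [← gauss_Iic h0 h1]
  have h3 : gauss {t} = 0 := by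
    apply gauss_ac
    apply Measure.absolutelyContinuous_of_le Measure.restrict_le_self
    simp
  apply le_antisymm (measure_mono Iio_subset_Iic_self)
  calc gauss (Iic t) ≤ gauss (Iio t ∪ {t}) := by
        apply measure_mono; intro x hx
        rcases lt_or_eq_of_le (mem_Iic.mp hx) with h | h
        · exact Or.inl h
        · exact Or.inr h
    _ ≤ gauss (Iio t) + gauss {t} := measure_union_le _ _
    _ = gauss (Iio t) := by rw [h3, add_zero]

theorem gm_meas : Measurable gm := by
  unfold gm
  exact measurable_fract.comp (by fun_prop)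

theorem gm_preserving : MeasurePreserving gm gauss gauss := by
  refine ⟨gm_meas, ?_⟩
  have : IsFiniteMeasure (Measure.map gm gauss) :=
    ⟨by rw [Measure.map_apply gm_meas MeasurableSet.univ, preimage_univ, gauss_univ]; simp⟩
  apply Measure.ext_of_Iic
  intro t
  rw [Measure.map_apply gm_meas measurableSet_Iic]
  have hl2 : 0 < Real.log 2 := Real.log_pos (by norm_num)
  rcases lt_or_ge t 0 with ht | ht
  · have e1 : gm ⁻¹' Iic t = ∅ := by
      ext x
      simp only [mem_preimage, mem_Iic, mem_empty_iff_false, iff_false, not_le]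
      exact ht.trans_le (Int.fract_nonneg _)
    rw [e1, measure_empty]
    symm
    apply gauss_supp _ _ measurableSet_Iic
    rw [Set.disjoint_left]
    intro x hx hx'
    exact absurd hx'.1 (not_lt.mpr ((mem_Iic.mp hx).trans ht.le))
  rcases le_or_gt 1 t with ht1 | ht1
  · have e1 : gm ⁻¹' Iic t = univ := by
      ext x
      simp only [mem_preimage, mem_Iic, mem_univ, iff_true]
      exact (Int.fract_lt_one _).le.trans ht1
    rw [e1, gauss_univ, gauss_inter measurableSet_Iic]
    have : (Iic t ∩ Ioo 0 1 : Set ℝ) = univ ∩ Ioo 0 1 := by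
      ext x
      simp only [mem_inter_iff, mem_Iic, mem_Ioo, mem_univ, true_and, and_iff_right_iff_imp]
      intro h; linarith [h.2]
    rw [this, ← gauss_inter MeasurableSet.univ, gauss_univ]
  rw [gauss_Iic ht ht1.le, gauss_inter (gm_meas measurableSet_Iic)]
  set S : ℕ → Set ℝ := fun k => Icc (1 / ((k : ℝ) + 1 + t)) (1 / ((k : ℝ) + 1)) with hS
  have e1 : gm ⁻¹' Iic t ∩ Ioo 0 1 = (⋃ k, S k) ∩ Ioo 0 1 := by
    ext x
    simp only [mem_inter_iff, mem_preimage, mem_Iic, mem_iUnion, hS, mem_Icc]
    constructor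
    · rintro ⟨h1, hx⟩
      refine ⟨?_, hx⟩
      have hx0 := hx.1
      have hx1 : 1 < 1 / x := by rw [lt_div_iff₀ hx0]; linarith [hx.2]
      have hfl : 1 ≤ ⌊1 / x⌋ := Int.le_floor.mpr (by rw [Int.cast_one]; exact hx1.le)
      obtain ⟨k, hk⟩ : ∃ k : ℕ, (k : ℤ) = ⌊1 / x⌋ - 1 := ⟨(⌊1 / x⌋ - 1).toNat, by omega⟩
      have hk' : ((k : ℝ) + 1) = (⌊1 / x⌋ : ℝ) := by
        have : (k : ℤ) + 1 = ⌊1 / x⌋ := by omega
        exact_mod_cast congrArg (Int.cast (R := ℝ)) this
      have hfr : 1 / x = (k : ℝ) + 1 + gm x := by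
        rw [hk', gm]; exact (Int.floor_add_fract _).symm
      have hg0 : 0 ≤ gm x := Int.fract_nonneg _
      have hxe : x = 1 / ((k : ℝ) + 1 + gm x) := by rw [← hfr, one_div_one_div]
      refine ⟨k, ?_, ?_⟩
      · rw [hxe]; apply one_div_le_one_div_of_le (by positivity); linarith
      · nth_rewrite 1 [hxe]; apply one_div_le_one_div_of_le (by positivity); linarith
    · rintro ⟨⟨k, hk1, hk2⟩, hx⟩
      refine ⟨?_, hx⟩
      have hx0 := hx.1
      have h1 : (k : ℝ) + 1 ≤ 1 / x := by
        rw [le_div_iff₀ hx0]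
        rw [le_div_iff₀ (by positivity)] at hk2
        linarith
      have h2 : 1 / x ≤ (k : ℝ) + 1 + t := by
        rw [div_le_iff₀ hx0]
        rw [div_le_iff₀ (by positivity)] at hk1
        linarith
      have hfl : ⌊1 / x⌋ = (k : ℤ) + 1 := by
        rw [Int.floor_eq_iff]; push_cast; constructor <;> linarith
      rw [gm, Int.fract, hfl]
      push_cast; linarith
  have hSm : ∀ k, MeasurableSet (S k) := fun k => measurableSet_Icc
  rw [e1, ← gauss_inter (MeasurableSet.iUnion hSm), measure_iUnion _ hSm]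
  · have hSv : ∀ k, gauss (S k) = ENNReal.ofReal
        ((Real.log (((k : ℝ) + 1 + t) / (k + 1)) - Real.log (((k : ℝ) + 2 + t) / (k + 2))) / Real.log 2) := by
      intro k
      have hk : (0 : ℝ) ≤ k := Nat.cast_nonneg _
      simp only [hS]
      rw [gauss_Icc (by positivity) _ _]
      · congr 2
        rw [Real.log_div (by positivity) (by positivity), Real.log_div (by positivity) (by positivity)]
        have a1 : 1 + 1 / ((k : ℝ) + 1) = ((k : ℝ) + 2) / (k + 1) := by field_simp; ring
        have a2 : 1 + 1 / ((k : ℝ) + 1 + t) = ((k : ℝ) + 2 + t) / (k + 1 + t) := by field_simp; ring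
        rw [a1, a2, Real.log_div (by positivity) (by positivity),
          Real.log_div (by positivity) (by positivity)]
        ring
      · apply one_div_le_one_div_of_le (by positivity); linarith
      · rw [div_le_one (by positivity)]; linarith
    simp_rw [hSv]
    set g : ℕ → ℝ := fun k => Real.log (((k : ℝ) + 1 + t) / (k + 1)) / Real.log 2 with hg
    have hterm : ∀ k : ℕ, (Real.log (((k : ℝ) + 1 + t) / (k + 1)) -
        Real.log (((k : ℝ) + 2 + t) / (k + 2))) / Real.log 2 = g k - g (k + 1) := by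
      intro k
      simp only [hg]
      push_cast
      have e2 : (k : ℝ) + 1 + 1 = k + 2 := by ring
      rw [e2]; ring
    simp_rw [hterm]
    have hnonneg : ∀ k, 0 ≤ g k - g (k + 1) := by
      intro k
      rw [← hterm]
      have hk : (0 : ℝ) ≤ k := Nat.cast_nonneg _
      apply div_nonneg _ hl2.le
      rw [sub_nonneg]
      apply Real.log_le_log (by positivity)
      rw [div_le_div_iff₀ (by positivity) (by positivity)]
      nlinarith
    have hlim : Tendsto g atTop (𝓝 0) := by
      have h1 : Tendsto (fun k : ℕ => ((k : ℝ) + 1 + t) / (k + 1)) atTop (𝓝 1) := by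
        have h2 : Tendsto (fun k : ℕ => 1 + t * (1 / ((k : ℝ) + 1))) atTop (𝓝 (1 + t * 0)) :=
          tendsto_const_nhds.add (tendsto_const_nhds.mul tendsto_one_div_add_atTop_nhds_zero_nat)
        rw [mul_zero, add_zero] at h2
        refine h2.congr (fun k => ?_)
        have hk : (0 : ℝ) ≤ k := Nat.cast_nonneg _
        field_simp
      have h3 := (h1.log one_ne_zero).div_const (Real.log 2)
      rwa [Real.log_one, zero_div] at h3
    have hsum : HasSum (fun k => g k - g (k + 1)) (Real.log (1 + t) / Real.log 2) := by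
      rw [hasSum_iff_tendsto_nat_of_nonneg hnonneg]
      have h1 : ∀ n, ∑ i ∈ Finset.range n, (g i - g (i + 1)) = g 0 - g n := fun n =>
        Finset.sum_range_sub' g n
      simp_rw [h1]
      have h2 : g 0 = Real.log (1 + t) / Real.log 2 := by simp [hg]
      rw [← h2]
      simpa using (tendsto_const_nhds (x := g 0)).sub hlim
    rw [← ENNReal.ofReal_tsum_of_nonneg hnonneg hsum.summable, hsum.tsum_eq]
  · intro i j hij
    rw [Function.onFun, Set.disjoint_left]
    intro x hi hj
    simp only [hS, mem_Icc] at hi hj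
    have key : ∀ i j : ℕ, i < j → 1 / ((i : ℝ) + 1 + t) ≤ x → x ≤ 1 / ((j : ℝ) + 1) → False := by
      intro i j hlt h1 h2
      have h3 := h1.trans h2
      rw [div_le_div_iff₀ (by positivity) (by positivity)] at h3
      have : (i : ℝ) + 1 ≤ j := by exact_mod_cast hlt
      linarith
    rcases lt_or_gt_of_ne hij with h | h
    · exact key i j h hi.1 hj.2
    · exact key j i h hj.1 hi.2

end Pool.Agent.TH849.CFN
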