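import Pool.Agent.TH849.CF4
import Pool.Agent.H165R3.Birk

set_option autoImplicit false

namespace Pool.Agent.TH849.CFN

open MeasureTheory Set Filter Topology
open scoped ENNReal NNReal

theorem iter_pre {s : Set ℝ} (hs : gm ⁻¹' s = s) (n : ℕ) (x : ℝ) : gm^[n] x ∈ s ↔ x ∈ s := by
  induction n generalizing x with
  | zero => rfl
  | succ n ih =>
    rw [Function.iterate_succ_apply, ih]
    constructor
    · intro h; rw [← hs]; exact h
    · intro h; rw [← hs] at h; exact h

/-- the cylinder ball -/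
noncomputable def cen (c : ℕ → ℕ) (n : ℕ) : ℝ := (F c n 0 + F c n 1) / 2
noncomputable def rad (c : ℕ → ℕ) (n : ℕ) : ℝ := |F c n 1 - F c n 0| / 2

theorem rad_eq {c : ℕ → ℕ} (hc : ∀ i, 1 ≤ c i) (n : ℕ) :
    2 * rad c n = 1 / (((q' c n : ℝ) + q c n) * q c n) := by
  have hq : (1 : ℝ) ≤ q c n := by exact_mod_cast q_pos hc n
  have hq' : (0 : ℝ) ≤ q' c n := Nat.cast_nonneg _
  rw [rad, F_sub hc n zero_le_one (le_refl _)]
  have : |(-1 : ℝ) ^ n * (1 - 0) / (((q' c n : ℝ) * 1 + q c n) * (q' c n * 0 + q c n))| =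
      1 / (((q' c n : ℝ) + q c n) * q c n) := by
    rw [abs_div, abs_mul, abs_pow, abs_neg, abs_one, one_pow, one_mul, sub_zero, abs_one, mul_one,
      mul_zero, zero_add, abs_of_pos (by positivity)]
  rw [this]; ring

theorem mem_ball {c : ℕ → ℕ} (hc : ∀ i, 1 ≤ c i) (n : ℕ) {z : ℝ} (hz : 0 ≤ z ∧ z ≤ 1) :
    F c n z ∈ Metric.closedBall (cen c n) (rad c n) := by
  have hq : (1 : ℝ) ≤ q c n := by exact_mod_cast q_pos hc n
  have hq' : (0 : ℝ) ≤ q' c n := Nat.cast_nonneg _
  have h1 := F_sub hc n hz.1 (le_refl (0 : ℝ))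
  have h2 := F_sub hc n zero_le_one hz.1
  have hz0 := hz.1
  have p1 : 0 ≤ (z - 0) / (((q' c n : ℝ) * z + q c n) * (q' c n * 0 + q c n)) := by
    rw [sub_zero]; positivity
  have p2 : 0 ≤ (1 - z) / (((q' c n : ℝ) * 1 + q c n) * (q' c n * z + q c n)) := by
    apply div_nonneg (by linarith [hz.2]) (by positivity)
  rw [mul_div_assoc] at h1 h2
  rw [Metric.mem_closedBall, Real.dist_eq, cen, rad]
  rcases neg_one_pow_eq_or ℝ n with hs | hs
  · rw [hs, one_mul] at h1 h2
    have a1 : 0 ≤ F c n 1 - F c n 0 := by linarith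
    rw [abs_of_nonneg a1, abs_le]
    constructor <;> linarith
  · rw [hs, neg_one_mul] at h1 h2
    have a1 : F c n 1 - F c n 0 ≤ 0 := by linarith
    rw [abs_of_nonpos a1, abs_le]
    constructor <;> linarith

theorem vol_image {c : ℕ → ℕ} (hc : ∀ i, 1 ≤ c i) (n : ℕ) (E : Set ℝ) (hE : E ⊆ Ioo 0 1) :
    volume E ≤ ENNReal.ofReal (4 * (q c n : ℝ) ^ 2) * volume (F c n '' E) := by
  have hq : (1 : ℝ) ≤ q c n := by exact_mod_cast q_pos hc n
  have hq' : (0 : ℝ) ≤ q' c n := Nat.cast_nonneg _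
  have hq'q : (q' c n : ℝ) ≤ q c n := by exact_mod_cast q'_le hc n
  have himg : gm^[n] '' (F c n '' E) = E := by
    rw [image_image]
    ext x
    constructor
    · rintro ⟨y, hy, rfl⟩
      simp only
      rw [gm_iter_F_self hc n (hE hy)]; exact hy
    · intro hx
      refine ⟨x, hx, ?_⟩
      simp only
      exact gm_iter_F_self hc n (hE hx)
  have hlip : LipschitzOnWith (Real.toNNReal (4 * (q c n : ℝ) ^ 2)) (gm^[n]) (F c n '' E) := by
    apply LipschitzOnWith.of_dist_le_mul
    rintro _ ⟨z, hz, rfl⟩ _ ⟨w, hw, rfl⟩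
    have hz' := hE hz
    have hw' := hE hw
    have hz0 := hz'.1
    have hw0 := hw'.1
    rw [gm_iter_F_self hc n hz', gm_iter_F_self hc n hw', Real.dist_eq, Real.dist_eq,
      Real.coe_toNNReal _ (by positivity), F_sub hc n hz'.1.le hw'.1.le, abs_div, abs_mul, abs_pow,
      abs_neg, abs_one, one_pow, one_mul,
      abs_of_pos (by positivity : (0 : ℝ) < ((q' c n : ℝ) * z + q c n) * (q' c n * w + q c n))]
    rw [mul_div_assoc', le_div_iff₀ (by positivity), mul_comm]
    apply mul_le_mul_of_nonneg_right _ (abs_nonneg _)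
    have a1 : (q' c n : ℝ) * z + q c n ≤ 2 * q c n := by
      have : (q' c n : ℝ) * z ≤ q c n * 1 := mul_le_mul hq'q hz'.2.le hz0.le (by linarith)
      linarith
    have a2 : (q' c n : ℝ) * w + q c n ≤ 2 * q c n := by
      have : (q' c n : ℝ) * w ≤ q c n * 1 := mul_le_mul hq'q hw'.2.le hw0.le (by linarith)
      linarith
    calc ((q' c n : ℝ) * z + q c n) * (q' c n * w + q c n) ≤ (2 * q c n) * (2 * q c n) :=
          mul_le_mul a1 a2 (by positivity) (by positivity)
      _ = 4 * (q c n : ℝ) ^ 2 := by ring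
  have h1 := hlip.hausdorffMeasure_image_le (d := 1) zero_le_one
  rw [himg, ENNReal.rpow_one, hausdorffMeasure_real] at h1
  exact h1

theorem ring_aux (u v w : ℝ≥0∞) : (u * w) / 4 * v = w * ((u * v) / 4) := by
  simp only [div_eq_mul_inv]; ring

theorem ergodic_aux {s : Set ℝ} (hs : MeasurableSet s) (hinv : gm ⁻¹' s = s) :
    volume (s ∩ Ioo 0 1) = 0 ∨ volume (Ioo 0 1 \ s) = 0 := by
  by_contra hcon
  push Not at hcon
  obtain ⟨hE, hS⟩ := hcon
  set E := s ∩ Ioo (0 : ℝ) 1 with hEd
  set S := Ioo (0 : ℝ) 1 \ s with hSd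
  have hSm : MeasurableSet S := measurableSet_Ioo.diff hs
  have hdens := IsUnifLocDoublingMeasure.ae_tendsto_measure_inter_div (volume : Measure ℝ) S 1
  rw [ae_restrict_iff' hSm] at hdens
  have hirr : ∀ᵐ x : ℝ, Irrational x := by
    have : (Set.range ((↑) : ℚ → ℝ)).Countable := Set.countable_range _
    exact this.ae_notMem volume
  -- pick a point
  obtain ⟨x, hxS, hxirr, hx⟩ : ∃ x, x ∈ S ∧ Irrational x ∧
      ∀ {ι : Type} {l : Filter ι} (w : ι → ℝ) (δ : ι → ℝ) (_ : Tendsto δ l (𝓝[>] 0))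
      (_ : ∀ᶠ j in l, x ∈ Metric.closedBall (w j) (1 * δ j)),
      Tendsto (fun j => volume (S ∩ Metric.closedBall (w j) (δ j)) /
        volume (Metric.closedBall (w j) (δ j))) l (𝓝 1) := by
    by_contra hno
    push Not at hno
    apply hS
    have h2 : ∀ᵐ x : ℝ, x ∉ S := by
      filter_upwards [hdens, hirr] with x h3 h4 h5
      obtain ⟨ι, l, w, δ, h6, h7, h8⟩ := hno x h5 h4
      exact h8 (h3 h5 w δ h6 h7)
    rwa [ae_iff, show {a | ¬ a ∉ S} = S by ext; simp] at h2
  have hx01 : 0 < x ∧ x < 1 := hxS.1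
  set c := dig x with hc
  have hcp : ∀ i, 1 ≤ c i := dig_pos hxirr hx01
  have hradpos : ∀ n, 0 < rad c n := by
    intro n
    have h1 := rad_eq hcp n
    have hq : (1 : ℝ) ≤ q c n := by exact_mod_cast q_pos hcp n
    have hq' : (0 : ℝ) ≤ q' c n := Nat.cast_nonneg _
    have : 0 < 1 / (((q' c n : ℝ) + q c n) * q c n) := by positivity
    linarith
  have hradle : ∀ n, 2 * rad c n ≤ 1 / (q c n : ℝ) ^ 2 := by
    intro n
    have hq : (1 : ℝ) ≤ q c n := by exact_mod_cast q_pos hcp n
    have hq' : (0 : ℝ) ≤ q' c n := Nat.cast_nonneg _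
    rw [rad_eq hcp n]
    apply one_div_le_one_div_of_le (by positivity)
    rw [pow_two]
    apply mul_le_mul_of_nonneg_right _ (by linarith)
    linarith
  have hradlim : Tendsto (rad c) atTop (𝓝[>] 0) := by
    rw [tendsto_nhdsWithin_iff]
    refine ⟨?_, Eventually.of_forall (fun n => hradpos n)⟩
    have h1 : Tendsto (fun n : ℕ => (1 / 2 : ℝ) ^ n) atTop (𝓝 0) :=
      tendsto_pow_atTop_nhds_zero_of_lt_one (by norm_num) (by norm_num)
    apply squeeze_zero (fun n => (hradpos n).le) _ h1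
    intro n
    have h2 := hradle n
    have h3 : (2 : ℝ) ^ n ≤ 2 * (q c n : ℝ) ^ 2 := by exact_mod_cast q_grow hcp n
    have hq : (1 : ℝ) ≤ q c n := by exact_mod_cast q_pos hcp n
    have h4 : 1 / (q c n : ℝ) ^ 2 ≤ 2 * (1 / 2) ^ n := by
      rw [one_div_pow, mul_one_div, div_le_div_iff₀ (by positivity) (by positivity)]
      linarith
    linarith
  have hmem : ∀ n, x ∈ Metric.closedBall (cen c n) (1 * rad c n) := by
    intro n
    rw [one_mul]
    have h1 := orbit hxirr hx01 n
    have h2 := eq_F_dig hxirr hx01 n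
    rw [h2]
    exact mem_ball hcp n ⟨h1.2.1.le, h1.2.2.le⟩
  have hlim := hx (cen c) (rad c) hradlim (Eventually.of_forall hmem)
  -- lower bound for the part in s
  have hEfin : volume E ≠ ⊤ := by
    have : volume E ≤ volume (Ioo (0 : ℝ) 1) := measure_mono inter_subset_right
    exact ne_top_of_le_ne_top (by simp) this
  have hkey : ∀ n, volume (S ∩ Metric.closedBall (cen c n) (rad c n)) /
      volume (Metric.closedBall (cen c n) (rad c n)) + volume E / 4 ≤ 1 := by
    intro n
    have hq : (1 : ℝ) ≤ q c n := by exact_mod_cast q_pos hcp n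
    set Bn := Metric.closedBall (cen c n) (rad c n) with hBn
    have hBvol : volume Bn = ENNReal.ofReal (2 * rad c n) := Real.volume_closedBall _ _
    have hBle : volume Bn ≤ ENNReal.ofReal (1 / (q c n : ℝ) ^ 2) := by
      rw [hBvol]; exact ENNReal.ofReal_le_ofReal (hradle n)
    have hB0 : volume Bn ≠ 0 := by
      rw [hBvol, Ne, ENNReal.ofReal_eq_zero, not_le]; linarith [hradpos n]
    have hBt : volume Bn ≠ ⊤ := by rw [hBvol]; exact ENNReal.ofReal_ne_top
    have hsub : F c n '' E ⊆ s ∩ Bn := by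
      rintro _ ⟨z, hz, rfl⟩
      refine ⟨?_, mem_ball hcp n ⟨hz.2.1.le, hz.2.2.le⟩⟩
      rw [← iter_pre hinv n, gm_iter_F_self hcp n hz.2]
      exact hz.1
    have h1 := vol_image hcp n E inter_subset_right
    have h2 : volume E ≤ ENNReal.ofReal (4 * (q c n : ℝ) ^ 2) * volume (s ∩ Bn) :=
      h1.trans (mul_le_mul_right (measure_mono hsub) _)
    have h3 : volume E / 4 * volume Bn ≤ volume (s ∩ Bn) := by
      calc volume E / 4 * volume Bn
          ≤ (ENNReal.ofReal (4 * (q c n : ℝ) ^ 2) * volume (s ∩ Bn)) / 4 *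
            ENNReal.ofReal (1 / (q c n : ℝ) ^ 2) := by gcongr
        _ = volume (s ∩ Bn) * ((ENNReal.ofReal (4 * (q c n : ℝ) ^ 2) *
              ENNReal.ofReal (1 / (q c n : ℝ) ^ 2)) / 4) := ring_aux _ _ _
        _ = volume (s ∩ Bn) := by
            rw [← ENNReal.ofReal_mul (by positivity)]
            have : 4 * (q c n : ℝ) ^ 2 * (1 / (q c n : ℝ) ^ 2) = 4 := by field_simp
            rw [this]
            have h4 : ENNReal.ofReal 4 = 4 := by norm_num
            rw [h4, ENNReal.div_self (by norm_num) (by norm_num), mul_one]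
    have h5 : volume (S ∩ Bn) + volume (s ∩ Bn) ≤ volume Bn := by
      rw [← measure_union _ (hs.inter Metric.isClosed_closedBall.measurableSet)]
      · apply measure_mono
        exact union_subset inter_subset_right inter_subset_right
      · rw [Set.disjoint_left]
        intro y hy hy'
        exact hy.1.2 hy'.1
    have h6 : volume (S ∩ Bn) / volume Bn + volume E / 4 = 
        (volume (S ∩ Bn) + volume E / 4 * volume Bn) / volume Bn := by
      rw [ENNReal.add_div, ENNReal.mul_div_cancel_right hB0 hBt]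
    rw [h6]
    apply ENNReal.div_le_of_le_mul
    rw [one_mul]
    exact (add_le_add (le_refl _) h3).trans h5
  have hlim2 : Tendsto (fun n => volume (S ∩ Metric.closedBall (cen c n) (rad c n)) /
      volume (Metric.closedBall (cen c n) (rad c n)) + volume E / 4) atTop (𝓝 (1 + volume E / 4)) :=
    hlim.add tendsto_const_nhds
  have hle := le_of_tendsto' hlim2 hkey
  have h7 : volume E / 4 ≤ 0 := by
    have : (1 : ℝ≥0∞) + volume E / 4 ≤ 1 + 0 := by rw [add_zero]; exact hle
    exact (ENNReal.add_le_add_iff_left (by norm_num)).mp this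
  have h8 : volume E / 4 = 0 := nonpos_iff_eq_zero.mp h7
  rw [ENNReal.div_eq_zero_iff] at h8
  rcases h8 with h8 | h8
  · exact hE h8
  · norm_num at h8

theorem gm_ergodic : Ergodic gm gauss := by
  refine { toMeasurePreserving := gm_preserving, aeconst_set := ?_ }
  intro s hs hinv
  rw [eventuallyConst_set]
  rcases ergodic_aux hs hinv with h | h
  · right
    have h1 : gauss s = 0 := by
      rw [gauss_inter hs]
      apply gauss_ac
      rw [Measure.restrict_apply (hs.inter measurableSet_Ioo), inter_assoc, inter_self]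
      exact h
    rw [eventually_iff, mem_ae_iff]
    have : {x | x ∈ (sᶜ : Set ℝ)}ᶜ = s := by ext; simp
    first
      | exact this ▸ h1
      | (convert h1 using 2; ext; simp)
  · left
    have h1 : gauss sᶜ = 0 := by
      rw [gauss_inter hs.compl]
      apply gauss_ac
      rw [Measure.restrict_apply (hs.compl.inter measurableSet_Ioo), inter_assoc, inter_self]
      have : (sᶜ ∩ Ioo 0 1 : Set ℝ) = Ioo 0 1 \ s := by ext; simp [and_comm]
      rw [this]; exact h
    rw [eventually_iff, mem_ae_iff]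
    exact h1

/-- there is a point of `(0,1)` whose orbit is equidistributed for the Gauss measure -/
theorem exists_generic : ∃ x : ℝ, Irrational x ∧ 0 < x ∧ x < 1 ∧ ∀ t : ℚ, 0 ≤ t → t ≤ 1 →
    Tendsto (fun N : ℕ => (((Finset.range N).filter (fun n => gm^[n] x < (t : ℝ))).card : ℝ) / (N : ℝ))
      atTop (𝓝 (Real.log (1 + t) / Real.log 2)) := by
  have h1 : ∀ t : ℚ, ∀ᵐ x ∂gauss, Tendsto (fun n : ℕ => (n : ℝ)⁻¹ *
      ∑ k ∈ Finset.range n, (Iio (t : ℝ)).indicator (fun _ => (1 : ℝ)) (gm^[k] x)) atTop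
      (𝓝 (∫ x, (Iio (t : ℝ)).indicator (fun _ => (1 : ℝ)) x ∂gauss)) := by
    intro t
    apply Pool.Agent.H165R3.birkhoff gm_ergodic
    · exact measurable_const.indicator measurableSet_Iio
    · refine ⟨1, fun x => ?_⟩
      by_cases hx : x ∈ Iio (t : ℝ)
      · simp [indicator_of_mem hx]
      · simp [indicator_of_notMem hx]
  rw [← ae_all_iff] at h1
  have h2 : ∀ᵐ x ∂gauss, Irrational x := by
    apply gauss_ac.ae_le
    apply ae_restrict_of_ae
    have : (Set.range ((↑) : ℚ → ℝ)).Countable := Set.countable_range _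
    exact this.ae_notMem volume
  have h3 : ∀ᵐ x ∂gauss, x ∈ Ioo (0 : ℝ) 1 := by
    apply gauss_ac.ae_le
    exact ae_restrict_mem measurableSet_Ioo
  obtain ⟨x, hx1, hx2, hx3⟩ := (h1.and (h2.and h3)).exists
  refine ⟨x, hx2, hx3.1, hx3.2, fun t ht0 ht1 => ?_⟩
  have h4 := hx1 t
  have e1 : ∫ x, (Iio (t : ℝ)).indicator (fun _ => (1 : ℝ)) x ∂gauss =
      Real.log (1 + t) / Real.log 2 := by
    rw [integral_indicator_const _ measurableSet_Iio, smul_eq_mul, mul_one, Measure.real,
      gauss_Iio (by exact_mod_cast ht0) (by exact_mod_cast ht1), ENNReal.toReal_ofReal]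
    have hl2 : 0 < Real.log 2 := Real.log_pos (by norm_num)
    have : (0 : ℝ) ≤ t := by exact_mod_cast ht0
    exact div_nonneg (Real.log_nonneg (by linarith)) hl2.le
  rw [e1] at h4
  refine h4.congr (fun N => ?_)
  rw [Finset.sum_indicator_eq_sum_filter]
  simp only [Finset.sum_const, nsmul_eq_mul, mul_one, mem_Iio]
  rw [div_eq_inv_mul]

end Pool.Agent.TH849.CFN
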