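import Mathlib

set_option autoImplicit false

namespace Pool.Agent.TH849.Weird

open Finset

/-- `n` is a sum of distinct elements of `D`. -/
def SS (D : Finset ℕ) (n : ℕ) : Prop := ∃ s ⊆ D, ∑ i ∈ s, i = n

/-- all integers of `[A, B]` are sums of distinct elements of `D`. -/
def Cov (D : Finset ℕ) (A B : ℕ) : Prop := ∀ n, A ≤ n → n ≤ B → SS D n

theorem SS.mono {D D' : Finset ℕ} {n : ℕ} (h : D ⊆ D') (hs : SS D n) : SS D' n := by
  obtain ⟨s, hs, rfl⟩ := hs
  exact ⟨s, hs.trans h, rfl⟩

theorem Cov.mono {D D' : Finset ℕ} {A B : ℕ} (h : D ⊆ D') (hs : Cov D A B) : Cov D' A B :=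
  fun n h1 h2 => (hs n h1 h2).mono h

theorem SS.add {D D' : Finset ℕ} {n n' : ℕ} (h : Disjoint D D') (hs : SS D n) (hs' : SS D' n') :
    SS (D ∪ D') (n + n') := by
  obtain ⟨s, hs, rfl⟩ := hs
  obtain ⟨s', hs', rfl⟩ := hs'
  refine ⟨s ∪ s', Finset.union_subset_union hs hs', ?_⟩
  rw [Finset.sum_union (Finset.disjoint_of_subset_left hs (Finset.disjoint_of_subset_right hs' h))]

theorem SS.mul {D : Finset ℕ} {n : ℕ} (c : ℕ) (hc : 0 < c) (hs : SS D n) :
    SS (D.image (fun x => c * x)) (c * n) := by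
  obtain ⟨s, hs, rfl⟩ := hs
  refine ⟨s.image (fun x => c * x), Finset.image_subset_image hs, ?_⟩
  rw [Finset.sum_image (by
    intro x _ y _ h
    exact Nat.eq_of_mul_eq_mul_left hc h), Finset.mul_sum]

/-- adding one more prime `q`. -/
theorem ext_prime {D : Finset ℕ} {A L q : ℕ} (hq : 0 < q) (hqL : q ≤ L + 1)
    (hD : ∀ d ∈ D, ¬ q ∣ d) (h : Cov D A (A + L)) :
    Cov (D ∪ D.image (fun x => q * x)) (A * (1 + q)) ((A + L) * (1 + q)) := by
  intro n h1 h2
  have hdisj : Disjoint D (D.image (fun x => q * x)) := by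
    rw [Finset.disjoint_left]
    intro d hd hd'
    obtain ⟨x, _, rfl⟩ := Finset.mem_image.mp hd'
    exact hD _ hd (Dvd.intro _ rfl)
  obtain ⟨x, y, hx1, hx2, hy1, hy2, hn⟩ : ∃ x y, A ≤ x ∧ x ≤ A + L ∧ A ≤ y ∧ y ≤ A + L ∧
      n = x + q * y := by
    by_cases hc : (n - A) / q ≤ A + L
    · refine ⟨n - q * ((n - A) / q), (n - A) / q, ?_, ?_, ?_, hc, ?_⟩
      · have := Nat.mul_div_le (n - A) q
        have : A ≤ n := by nlinarith
        omega
      · have h3 := Nat.div_add_mod (n - A) q
        have h4 := Nat.mod_lt (n - A) hq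
        have : A ≤ n := by nlinarith
        omega
      · rw [Nat.le_div_iff_mul_le hq]
        have : A * (1 + q) = A + A * q := by ring
        omega
      · have := Nat.mul_div_le (n - A) q
        have : A ≤ n := by nlinarith
        omega
    · push Not at hc
      refine ⟨n - q * (A + L), A + L, ?_, ?_, by omega, le_refl _, ?_⟩
      · have h5 : (A + L) * q ≤ n - A := by
          rw [← Nat.le_div_iff_mul_le hq]; exact hc.le
        have h6 : (A + L) * q = q * (A + L) := by ring
        have : A ≤ n := by nlinarith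
        omega
      · have h5 : (A + L) * (1 + q) = (A + L) + q * (A + L) := by ring
        omega
      · have h5 : (A + L) * q ≤ n - A := by
          rw [← Nat.le_div_iff_mul_le hq]; exact hc.le
        have h6 : (A + L) * q = q * (A + L) := by ring
        have : A ≤ n := by nlinarith
        omega
  rw [hn]
  exact (h x hx1 hx2).add hdisj ((h y hy1 hy2).mul q hq)

/-- divisors of `N` that are not divisible by `M`. -/
def T (M N : ℕ) : Finset ℕ := N.divisors.filter (fun d => ¬ M ∣ d)

theorem ext_primes {M A L : ℕ} (hM : 0 < M) (R : Finset ℕ) (hR : ∀ q ∈ R, q.Prime)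
    (hRM : ∀ q ∈ R, ¬ q ∣ M) (hRL : ∀ q ∈ R, q ≤ L + 1)
    (h : Cov (T M M) A (A + L)) :
    Cov (T M (M * ∏ q ∈ R, q)) (A * ∏ q ∈ R, (1 + q)) ((A + L) * ∏ q ∈ R, (1 + q)) := by
  classical
  induction R using Finset.induction_on with
  | empty => simpa using h
  | insert q R hq ih =>
    have ih' := ih (fun p hp => hR p (Finset.mem_insert_of_mem hp))
      (fun p hp => hRM p (Finset.mem_insert_of_mem hp))
      (fun p hp => hRL p (Finset.mem_insert_of_mem hp))
    have hqp : q.Prime := hR q (Finset.mem_insert_self _ _)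
    have hqM : ¬ q ∣ M := hRM q (Finset.mem_insert_self _ _)
    have hqL : q ≤ L + 1 := hRL q (Finset.mem_insert_self _ _)
    set N := M * ∏ q ∈ R, q with hN
    set s := ∏ q ∈ R, (1 + q) with hs
    have hs1 : 1 ≤ s := Nat.one_le_iff_ne_zero.mpr (Finset.prod_ne_zero_iff.mpr (by intros; omega))
    have hN0 : N ≠ 0 := by
      apply Nat.mul_ne_zero hM.ne'
      exact Finset.prod_ne_zero_iff.mpr (fun p hp => (hR p (Finset.mem_insert_of_mem hp)).ne_zero)
    have hqN : ¬ q ∣ N := by
      intro hd
      rcases (Nat.Prime.dvd_mul hqp).mp hd with h1 | h1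
      · exact hqM h1
      · obtain ⟨p, hp, hqp'⟩ := (Prime.dvd_finset_prod_iff hqp.prime _).mp h1
        have := (Nat.prime_dvd_prime_iff_eq hqp (hR p (Finset.mem_insert_of_mem hp))).mp hqp'
        exact hq (this ▸ hp)
    have hLs : (A + L) * s = A * s + L * s := by ring
    rw [hLs] at ih'
    have key := ext_prime (q := q) hqp.pos (by nlinarith) (by
      intro d hd hqd
      have : d ∣ N := (Nat.mem_divisors.mp (Finset.mem_filter.mp hd).1).1
      exact hqN (hqd.trans this)) ih'
    rw [Finset.prod_insert hq, Finset.prod_insert hq]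
    have e1 : A * ((1 + q) * s) = A * s * (1 + q) := by ring
    have e2 : (A + L) * ((1 + q) * s) = (A * s + L * s) * (1 + q) := by ring
    rw [e1, e2]
    refine key.mono ?_
    intro d hd
    have hMq : M.Coprime q := ((Nat.Prime.coprime_iff_not_dvd hqp).mpr hqM).symm
    rcases Finset.mem_union.mp hd with hd | hd
    · have h1 := Finset.mem_filter.mp hd
      refine Finset.mem_filter.mpr ⟨Nat.mem_divisors.mpr ⟨?_, ?_⟩, h1.2⟩
      · refine (Nat.mem_divisors.mp h1.1).1.trans ?_
        rw [hN]
        exact Nat.mul_dvd_mul_left M (Dvd.intro_left q rfl)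
      · have : M * (q * ∏ q ∈ R, q) = q * N := by rw [hN]; ring
        rw [this]
        exact Nat.mul_ne_zero hqp.ne_zero hN0
    · obtain ⟨x, hx, rfl⟩ := Finset.mem_image.mp hd
      have h1 := Finset.mem_filter.mp hx
      have : M * (q * ∏ q ∈ R, q) = q * N := by rw [hN]; ring
      refine Finset.mem_filter.mpr ⟨Nat.mem_divisors.mpr ⟨?_, ?_⟩, ?_⟩
      · rw [this]
        exact Nat.mul_dvd_mul_left q (Nat.mem_divisors.mp h1.1).1
      · rw [this]
        exact Nat.mul_ne_zero hqp.ne_zero hN0
      · intro hd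
        exact h1.2 (hMq.dvd_of_dvd_mul_left hd)

/-- if a nonempty set of residues is closed under adding a unit, it is everything. -/
theorem closed_univ {M : ℕ} [NeZero M] (X : Finset (ZMod M)) (hX : X.Nonempty) (f : ℕ)
    (hf : f.Coprime M) (h : ∀ x ∈ X, x + (f : ZMod M) ∈ X) : X = Finset.univ := by
  obtain ⟨x0, hx0⟩ := hX
  have h1 : ∀ n : ℕ, x0 + (n : ZMod M) * f ∈ X := by
    intro n
    induction n with
    | zero => simpa using hx0
    | succ n ih =>
      have := h _ ih
      have e : x0 + ((n + 1 : ℕ) : ZMod M) * f = x0 + (n : ZMod M) * f + f := by push_cast; ring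
      rw [e]; exact this
  rw [Finset.eq_univ_iff_forall]
  intro y
  let u := ZMod.unitOfCoprime f hf
  have := h1 ((y - x0) * (u⁻¹ : (ZMod M)ˣ)).val
  rw [ZMod.natCast_val, ZMod.cast_id', id] at this
  have e : (f : ZMod M) = u := (ZMod.coe_unitOfCoprime f hf).symm
  rw [e, mul_assoc] at this
  simpa using this

theorem grow {M : ℕ} [NeZero M] (X : Finset (ZMod M)) (hX : X.Nonempty) (f : ℕ)
    (hf : f.Coprime M) (L : ℕ) :
    min M (X.card + L) ≤ (Finset.image (fun p : ZMod M × ℕ => p.1 + (p.2 : ZMod M) * f)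
      (X ×ˢ Finset.range (L + 1))).card := by
  classical
  induction L with
  | zero =>
    apply (min_le_right _ _).trans
    simp only [zero_add, add_zero]
    apply Finset.card_le_card
    intro x hx
    exact Finset.mem_image.mpr ⟨(x, 0), by simp [hx], by simp⟩
  | succ L ih =>
    set Y := Finset.image (fun p : ZMod M × ℕ => p.1 + (p.2 : ZMod M) * f)
      (X ×ˢ Finset.range (L + 1)) with hY
    set Z := Finset.image (fun p : ZMod M × ℕ => p.1 + (p.2 : ZMod M) * f)
      (X ×ˢ Finset.range (L + 1 + 1)) with hZ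
    have hYZ : Y ⊆ Z := Finset.image_subset_image
      (Finset.product_subset_product_right (Finset.range_subset_range.mpr (by omega)))
    have hYn : Y.Nonempty := by
      obtain ⟨x, hx⟩ := hX
      exact ⟨x, Finset.mem_image.mpr ⟨(x, 0), by simp [hx], by simp⟩⟩
    by_cases hc : ∀ y ∈ Y, y + (f : ZMod M) ∈ Y
    · have := closed_univ Y hYn f hf hc
      have h1 : Z = Finset.univ := by
        apply Finset.eq_univ_of_forall
        intro z
        exact hYZ (this ▸ Finset.mem_univ z)
      rw [h1, Finset.card_univ, ZMod.card]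
      exact min_le_left _ _
    · push Not at hc
      obtain ⟨y, hy, hy'⟩ := hc
      have h2 : insert (y + (f : ZMod M)) Y ⊆ Z := by
        apply Finset.insert_subset _ hYZ
        obtain ⟨p, hp, rfl⟩ := Finset.mem_image.mp hy
        have hp' := Finset.mem_product.mp hp
        refine Finset.mem_image.mpr ⟨(p.1, p.2 + 1), ?_, ?_⟩
        · refine Finset.mem_product.mpr ⟨hp'.1, ?_⟩
          have := Finset.mem_range.mp hp'.2
          exact Finset.mem_range.mpr (by simpa using by omega)
        · push_cast; ring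
      have h3 := Finset.card_le_card h2
      rw [Finset.card_insert_of_notMem hy'] at h3
      omega

theorem residues_aux {M : ℕ} [NeZero M] (L : ℕ) (F : Finset ℕ) (hF : ∀ f ∈ F, f.Coprime M) :
    ∃ X : Finset (ZMod M), X.Nonempty ∧ min M (F.card * L + 1) ≤ X.card ∧
      ∀ x ∈ X, ∃ u : ℕ → ℕ, (∀ f, u f ≤ L) ∧ ((∑ f ∈ F, u f * f : ℕ) : ZMod M) = x := by
  classical
  induction F using Finset.induction_on with
  | empty =>
    refine ⟨{0}, by simp, by simp, ?_⟩
    intro x hx
    rw [Finset.mem_singleton] at hx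
    exact ⟨fun _ => 0, fun _ => by simp, by simp [hx]⟩
  | insert f F hf ih =>
    obtain ⟨X, hXn, hXc, hX⟩ := ih (fun g hg => hF g (Finset.mem_insert_of_mem hg))
    have hfc := hF f (Finset.mem_insert_self _ _)
    refine ⟨Finset.image (fun p : ZMod M × ℕ => p.1 + (p.2 : ZMod M) * f)
      (X ×ˢ Finset.range (L + 1)), ?_, ?_, ?_⟩
    · obtain ⟨x, hx⟩ := hXn
      exact ⟨x, Finset.mem_image.mpr ⟨(x, 0), by simp [hx], by simp⟩⟩
    · have h1 := grow X hXn f hfc L
      rw [Finset.card_insert_of_notMem hf]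
      have : (F.card + 1) * L + 1 = F.card * L + 1 + L := by ring
      omega
    · intro x hx
      obtain ⟨p, hp, rfl⟩ := Finset.mem_image.mp hx
      have hp' := Finset.mem_product.mp hp
      obtain ⟨u, hu, hu'⟩ := hX p.1 hp'.1
      refine ⟨fun g => if g = f then p.2 else u g, ?_, ?_⟩
      · intro g
        by_cases hg : g = f
        · simp only [hg, if_true]
          have := Finset.mem_range.mp hp'.2
          omega
        · simp only [hg, if_false]; exact hu g
      · rw [Finset.sum_insert hf]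
        have : ∑ g ∈ F, (if g = f then p.2 else u g) * g = ∑ g ∈ F, u g * g := by
          apply Finset.sum_congr rfl
          intro g hg
          have : g ≠ f := fun h => hf (h ▸ hg)
          simp [this]
        rw [this]
        push_cast
        push_cast at hu'
        rw [hu']
        simp
        ring

theorem residues {M L : ℕ} (hM0 : 0 < M) (F : Finset ℕ) (hF : ∀ f ∈ F, f.Coprime M)
    (hM : M ≤ F.card * L + 1) (r : ℕ) :
    ∃ u : ℕ → ℕ, (∀ f, u f ≤ L) ∧ (∑ f ∈ F, u f * f) ≡ r [MOD M] := by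
  haveI : NeZero M := ⟨hM0.ne'⟩
  obtain ⟨X, _, hXc, hX⟩ := residues_aux (M := M) L F hF
  have h1 : M ≤ X.card := by
    rw [min_eq_left hM] at hXc; exact hXc
  have h2 : X = Finset.univ := by
    apply Finset.eq_univ_of_card
    rw [ZMod.card]
    apply le_antisymm _ h1
    have := Finset.card_le_univ X
    rwa [ZMod.card] at this
  obtain ⟨u, hu, hu'⟩ := hX (r : ZMod M) (h2 ▸ Finset.mem_univ _)
  exact ⟨u, hu, (ZMod.natCast_eq_natCast_iff _ _ _).mp hu'⟩

end Pool.Agent.TH849.Weird
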