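import Pool.Agent.TH849.Weird1

set_option autoImplicit false

namespace Pool.Agent.TH849.Weird

open Finset

theorem seed {X κ W : ℕ} (U V : Finset ℕ) (hU : ∀ p ∈ U, p.Prime) (hV : ∀ p ∈ V, p.Prime)
    (hUX : ∀ p ∈ U, X ≤ p ∧ p < 2 * X) (hVX : ∀ p ∈ V, X ≤ p ∧ p < 2 * X) (hUV : Disjoint U V)
    (hUc : U.card = κ) (hVc : V.card = κ) (hW : 0 < W) (hWX : W ≤ X) (hWκ : W ≤ κ)
    (hX : 2 < X) (hκ2 : 2 ≤ κ)
    (hcount : (4 * X ^ 2 / W + 1) + (4 * X * W) * W < κ ^ 2) :
    ∃ A, Cov (T ((∏ p ∈ U, p) * ∏ p ∈ V, p) ((∏ p ∈ U, p) * ∏ p ∈ V, p)) A (A + 2 * X) ∧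
      A ≤ 4 * κ ^ 2 * X ^ 2 + 2 * X * W := by
  classical
  set M := (∏ p ∈ U, p) * ∏ p ∈ V, p with hMdef
  set S : Finset ℕ := (U ×ˢ V).image (fun p => p.1 * p.2) with hS
  have hScard : S.card = κ ^ 2 := by
    rw [hS, Finset.card_image_of_injOn, Finset.card_product, hUc, hVc]; · ring
    rintro ⟨u, v⟩ h1 ⟨u', v'⟩ h2 h
    simp only [Finset.coe_product, Set.mem_prod, Finset.mem_coe] at h1 h2
    simp only at h
    have hu : u ∣ u' * v' := h ▸ Dvd.intro _ rfl
    have huu : u = u' := by
      rcases (Nat.Prime.dvd_mul (hU u h1.1)).mp hu with h3 | h3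
      · exact (Nat.prime_dvd_prime_iff_eq (hU u h1.1) (hU u' h2.1)).mp h3
      · have := (Nat.prime_dvd_prime_iff_eq (hU u h1.1) (hV v' h2.2)).mp h3
        exact absurd (this ▸ h1.1) (Finset.disjoint_right.mp hUV h2.2)
    subst huu
    have := Nat.eq_of_mul_eq_mul_left (hU u h1.1).pos h
    rw [this]
  have hSmem : ∀ a ∈ S, X ^ 2 ≤ a ∧ a < 4 * X ^ 2 := by
    intro a ha
    obtain ⟨p, hp, rfl⟩ := Finset.mem_image.mp ha
    have hp' := Finset.mem_product.mp hp
    have h1 := hUX _ hp'.1
    have h2 := hVX _ hp'.2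
    constructor <;> nlinarith
  set T0 := 4 * X ^ 2 / W + 1 with hT0
  set R := (Finset.range T0).filter (fun y => 2 ≤ (S.filter (fun a => a / W = y)).card) with hR
  have hmaps : ∀ a ∈ S, a / W ∈ Finset.range T0 := by
    intro a ha
    have := (hSmem a ha).2
    have h2 : a / W ≤ 4 * X ^ 2 / W := Nat.div_le_div_right this.le
    exact Finset.mem_range.mpr (by omega)
  have hfib : ∀ y, (S.filter (fun a => a / W = y)).card ≤ W := by
    intro y
    have : S.filter (fun a => a / W = y) ⊆ Finset.Ico (y * W) (y * W + W) := by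
      intro a ha
      have h1 := (Finset.mem_filter.mp ha).2
      have h2 := Nat.div_add_mod a W
      have h3 := Nat.mod_lt a hW
      rw [h1] at h2
      have : W * y = y * W := by ring
      exact Finset.mem_Ico.mpr (by omega)
    calc _ ≤ _ := Finset.card_le_card this
      _ = W := by simp
  have hRcard : 4 * X * W < R.card := by
    have h1 : S.card = ∑ y ∈ Finset.range T0, (S.filter (fun a => a / W = y)).card :=
      Finset.card_eq_sum_card_fiberwise hmaps
    have h2 : ∑ y ∈ Finset.range T0, (S.filter (fun a => a / W = y)).card ≤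
        ∑ y ∈ Finset.range T0, (1 + if y ∈ R then W else 0) := by
      apply Finset.sum_le_sum
      intro y hy
      by_cases hc : y ∈ R
      · simp only [hc, if_true]; have := hfib y; omega
      · simp only [hc, if_false]
        have : ¬ (2 ≤ (S.filter (fun a => a / W = y)).card) := fun h =>
          hc (Finset.mem_filter.mpr ⟨hy, h⟩)
        omega
    have h3 : ∑ y ∈ Finset.range T0, (1 + if y ∈ R then W else 0) = T0 + R.card * W := by
      rw [Finset.sum_add_distrib, ← Finset.sum_filter]
      have : (Finset.range T0).filter (fun y => y ∈ R) = R := by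
        ext y; simp only [Finset.mem_filter]
        constructor
        · exact fun h => h.2
        · exact fun h => ⟨(Finset.mem_filter.mp h).1, h⟩
      rw [this]; simp
    have h4 : κ ^ 2 ≤ T0 + R.card * W := by
      rw [← hScard, h1]; exact h2.trans h3.le
    have h5 : 4 * X * W * W < R.card * W := by omega
    exact lt_of_mul_lt_mul_right h5 (Nat.zero_le _)
  have hpair : ∀ y : ℕ, ∃ ab : ℕ × ℕ, y ∈ R → (ab.1 ∈ S ∧ ab.2 ∈ S ∧ ab.1 / W = y ∧ ab.2 / W = y ∧
      ab.1 < ab.2) := by
    intro y
    by_cases hy : y ∈ R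
    · have h2 := (Finset.mem_filter.mp hy).2
      obtain ⟨a, ha, b, hb, hab⟩ := Finset.one_lt_card.mp h2
      have ha' := Finset.mem_filter.mp ha
      have hb' := Finset.mem_filter.mp hb
      rcases lt_or_gt_of_ne hab with h | h
      · exact ⟨(a, b), fun _ => ⟨ha'.1, hb'.1, ha'.2, hb'.2, h⟩⟩
      · exact ⟨(b, a), fun _ => ⟨hb'.1, ha'.1, hb'.2, ha'.2, h⟩⟩
    · exact ⟨(0, 0), fun h => absurd h hy⟩
  choose ab hab using hpair
  have hdel : ∀ y ∈ R, (ab y).2 - (ab y).1 ∈ Finset.range W := by
    intro y hy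
    obtain ⟨_, _, h1, h2, h3⟩ := hab y hy
    have e1 := Nat.div_add_mod (ab y).1 W
    have e2 := Nat.div_add_mod (ab y).2 W
    have m1 := Nat.mod_lt (ab y).1 hW
    have m2 := Nat.mod_lt (ab y).2 hW
    rw [h1] at e1
    rw [h2] at e2
    exact Finset.mem_range.mpr (by omega)
  obtain ⟨d, hd, hdR⟩ := Finset.exists_lt_card_fiber_of_mul_lt_card_of_maps_to hdel
    (n := 4 * X) (by rw [Finset.card_range]; calc W * (4 * X) = 4 * X * W := by ring
                      _ < R.card := hRcard)
  set R' := R.filter (fun y => (ab y).2 - (ab y).1 = d) with hR'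
  have hd1 : 1 ≤ d := by
    obtain ⟨y, hy⟩ := Finset.card_pos.mp (lt_of_le_of_lt (Nat.zero_le _) hdR)
    have hy' := Finset.mem_filter.mp hy
    have := (hab y hy'.1).2.2.2.2
    omega
  have hdW : d < W := Finset.mem_range.mp hd
  have hR'p : ∀ y ∈ R', (ab y).1 ∈ S ∧ (ab y).1 + d ∈ S ∧ (ab y).1 / W = y ∧
      ((ab y).1 + d) / W = y := by
    intro y hy
    have hy' := Finset.mem_filter.mp hy
    obtain ⟨h1, h2, h3, h4, h5⟩ := hab y hy'.1
    have e : (ab y).1 + d = (ab y).2 := by omega
    rw [e]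
    exact ⟨h1, h2, h3, h4⟩
  set base := ∑ y ∈ R', (ab y).1 with hbase
  have hAP : ∀ u ≤ R'.card, SS S (base + d * u) := by
    intro u hu
    obtain ⟨R'', hR'', hcard⟩ := Finset.exists_subset_card_eq hu
    refine ⟨R'.image (fun y => if y ∈ R'' then (ab y).1 + d else (ab y).1), ?_, ?_⟩
    · intro a ha
      obtain ⟨y, hy, rfl⟩ := Finset.mem_image.mp ha
      by_cases hc : y ∈ R''
      · simp only [hc, if_true]; exact (hR'p y hy).2.1
      · simp only [hc, if_false]; exact (hR'p y hy).1
    · rw [Finset.sum_image]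
      · have : ∀ y ∈ R', (if y ∈ R'' then (ab y).1 + d else (ab y).1) =
            (ab y).1 + (if y ∈ R'' then d else 0) := by
          intro y _; by_cases hc : y ∈ R'' <;> simp [hc]
        rw [Finset.sum_congr rfl this, Finset.sum_add_distrib, ← Finset.sum_filter]
        have e : R'.filter (fun y => y ∈ R'') = R'' := by
          ext y; simp only [Finset.mem_filter]
          exact ⟨fun h => h.2, fun h => ⟨hR'' h, h⟩⟩
        rw [e, Finset.sum_const, hcard, smul_eq_mul]
        ring
      · intro y hy y' hy' h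
        have hv : ∀ z ∈ R', (if z ∈ R'' then (ab z).1 + d else (ab z).1) / W = z := by
          intro z hz
          by_cases hc : z ∈ R''
          · simp only [hc, if_true]; exact (hR'p z hz).2.2.2
          · simp only [hc, if_false]; exact (hR'p z hz).2.2.1
        have h1 := hv y hy
        have h2 := hv y' hy'
        simp only at h
        rw [h] at h1
        exact h1.symm.trans h2
  -- residue cover
  obtain ⟨F, hFU, hFc⟩ := Finset.exists_subset_card_eq (s := U) (n := d - 1) (by omega)
  have hFcop : ∀ f ∈ F, f.Coprime d := by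
    intro f hf
    have hfp := hU f (hFU hf)
    rw [Nat.Prime.coprime_iff_not_dvd hfp]
    intro hfd
    have := Nat.le_of_dvd (by omega) hfd
    have := (hUX f (hFU hf)).1
    omega
  have hbaseS : base ≤ 4 * κ ^ 2 * X ^ 2 := by
    have h1 : base ≤ ∑ y ∈ R', 4 * X ^ 2 := by
      apply Finset.sum_le_sum
      intro y hy
      exact (hSmem _ (hR'p y hy).1).2.le
    rw [Finset.sum_const, smul_eq_mul] at h1
    have h2 : R'.card ≤ S.card := by
      apply Finset.card_le_card_of_injOn (fun y => (ab y).1) (fun y hy => (hR'p y hy).1)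
      intro y hy y' hy' h
      have e1 := (hR'p y hy).2.2.1
      have e2 := (hR'p y' hy').2.2.1
      simp only at h
      rw [h] at e1
      exact e1.symm.trans e2
    rw [hScard] at h2
    calc base ≤ R'.card * (4 * X ^ 2) := h1
      _ ≤ κ ^ 2 * (4 * X ^ 2) := Nat.mul_le_mul_right _ h2
      _ = _ := by ring
  refine ⟨base + 2 * X * d, ?_, ?_⟩
  · intro n hn1 hn2
    obtain ⟨u, hu, hur⟩ := residues (M := d) (L := 1) (by omega) F hFcop (by omega) (n - base)
    -- subset of F
    set F' := F.filter (fun f => u f = 1) with hF'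
    have hsum : ∑ f ∈ F, u f * f = ∑ f ∈ F', f := by
      rw [hF', Finset.sum_filter]
      apply Finset.sum_congr rfl
      intro f _
      have := hu f
      by_cases hc : u f = 1
      · simp [hc]
      · have : u f = 0 := by omega
        simp [this]
    rw [hsum] at hur
    have hF'le : ∑ f ∈ F', f ≤ 2 * X * d := by
      calc ∑ f ∈ F', f ≤ ∑ f ∈ F', 2 * X :=
            Finset.sum_le_sum (fun f hf => (hUX f (hFU (Finset.mem_filter.mp hf).1)).2.le)
        _ = F'.card * (2 * X) := by rw [Finset.sum_const, smul_eq_mul]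
        _ ≤ d * (2 * X) := by
            apply Nat.mul_le_mul_right
            have h7 : F'.card ≤ F.card := Finset.card_filter_le F (fun f => u f = 1)
            omega
        _ = 2 * X * d := by ring
    have hdvd : d ∣ (n - base) - ∑ f ∈ F', f := by
      exact (Nat.modEq_iff_dvd' (by omega)).mp hur
    obtain ⟨v, hv⟩ := hdvd
    have hvle : v ≤ R'.card := by
      have h1 : d * v ≤ d * (4 * X) := by
        rw [← hv]
        have : 2 * X ≤ 2 * X * d := Nat.le_mul_of_pos_right _ (by omega)
        have h3 : d * (4 * X) = 2 * X * d + 2 * X * d := by ring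
        omega
      have := Nat.le_of_mul_le_mul_left h1 (by omega)
      omega
    have hSS1 := hAP v hvle
    have hSS2 : SS U (∑ f ∈ F', f) := ⟨F', (Finset.filter_subset _ _).trans hFU, rfl⟩
    have hdisj : Disjoint S U := by
      rw [Finset.disjoint_left]
      intro a ha haU
      have h1 := (hSmem a ha).1
      have h2 := (hUX a haU).2
      nlinarith
    have hall := hSS1.add hdisj hSS2
    have e : base + d * v + ∑ f ∈ F', f = n := by omega
    rw [e] at hall
    refine hall.mono ?_
    have hM0 : M ≠ 0 := by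
      rw [hMdef]
      exact Nat.mul_ne_zero (Finset.prod_ne_zero_iff.mpr (fun p hp => (hU p hp).ne_zero))
        (Finset.prod_ne_zero_iff.mpr (fun p hp => (hV p hp).ne_zero))
    have hMbig : X ^ 2 * X ^ 2 ≤ M := by
      have h1 : X ^ κ ≤ ∏ p ∈ U, p := by
        rw [← hUc]
        exact Finset.pow_card_le_prod _ _ _ (fun p hp => (hUX p hp).1)
      have h2 : X ^ κ ≤ ∏ p ∈ V, p := by
        rw [← hVc]
        exact Finset.pow_card_le_prod _ _ _ (fun p hp => (hVX p hp).1)
      have h3 : X ^ 2 ≤ X ^ κ := Nat.pow_le_pow_right (by omega) hκ2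
      exact Nat.mul_le_mul (h3.trans h1) (h3.trans h2)
    intro a ha
    have h9 : 9 ≤ X ^ 2 := by
      calc 9 = 3 ^ 2 := by norm_num
        _ ≤ X ^ 2 := Nat.pow_le_pow_left (by omega) 2
    have h49 : 4 * X ^ 2 ≤ M := (Nat.mul_le_mul_right _ (by omega)).trans hMbig
    have h29 : 2 * X ≤ 4 * X ^ 2 := by
      rw [pow_two]
      calc 2 * X ≤ 4 * X := by omega
        _ ≤ 4 * (X * X) := Nat.mul_le_mul_left _ (Nat.le_mul_of_pos_left _ (by omega))
    have hlt : a < M ∧ a ∣ M := by
      rcases Finset.mem_union.mp ha with ha | ha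
      · constructor
        · have := (hSmem a ha).2
          omega
        · obtain ⟨p, hp, rfl⟩ := Finset.mem_image.mp ha
          have hp' := Finset.mem_product.mp hp
          exact Nat.mul_dvd_mul (Finset.dvd_prod_of_mem _ hp'.1) (Finset.dvd_prod_of_mem _ hp'.2)
      · constructor
        · have := (hUX a ha).2
          omega
        · exact (Finset.dvd_prod_of_mem _ ha).trans (Dvd.intro _ rfl)
    refine Finset.mem_filter.mpr ⟨Nat.mem_divisors.mpr ⟨hlt.2, hM0⟩, ?_⟩
    intro hdM
    have hapos : 0 < a := Nat.pos_of_dvd_of_pos hlt.2 (Nat.pos_of_ne_zero hM0)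
    have := Nat.le_of_dvd hapos hdM
    omega
  · have : 2 * X * d ≤ 2 * X * W := Nat.mul_le_mul_left _ hdW.le
    omega

end Pool.Agent.TH849.Weird
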