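import Pool.Agent.TH849.Weird1

set_option autoImplicit false

namespace Pool.Agent.TH849.Weird

open Finset

theorem greedy {ι : Type*} [DecidableEq ι] (Z : Finset ι) (w : ι → ℝ) (δ : ℝ) (hδ : 0 ≤ δ)
    (hw : ∀ z ∈ Z, w z ≤ δ) (x : ℝ) (hx : 0 ≤ x) (hx' : x ≤ ∑ z ∈ Z, w z) :
    ∃ S ⊆ Z, ∑ z ∈ S, w z ≤ x ∧ x ≤ ∑ z ∈ S, w z + δ := by
  induction Z using Finset.induction_on with
  | empty =>
    refine ⟨∅, le_refl _, by simpa using hx, ?_⟩
    simp only [Finset.sum_empty] at hx' ⊢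
    linarith
  | insert z Z hz ih =>
    by_cases hc : x ≤ ∑ z ∈ Z, w z
    · obtain ⟨S, hS, h1, h2⟩ := ih (fun y hy => hw y (Finset.mem_insert_of_mem hy)) hc
      exact ⟨S, hS.trans (Finset.subset_insert _ _), h1, h2⟩
    · push Not at hc
      refine ⟨Z, Finset.subset_insert _ _, hc.le, ?_⟩
      rw [Finset.sum_insert hz] at hx'
      have := hw z (Finset.mem_insert_self _ _)
      linarith

/-- sums of distinct reciprocals of divisors `> 1` of `Q` are `δ`-dense in `[0, T]`. -/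
def Dense (Q : ℕ) (δ T : ℝ) : Prop := ∀ x : ℝ, 0 ≤ x → x ≤ T →
  ∃ S ⊆ Q.divisors, 1 ∉ S ∧ ∑ d ∈ S, (1 / (d : ℝ)) ≤ x ∧ x ≤ ∑ d ∈ S, (1 / (d : ℝ)) + δ

theorem level {X κ : ℕ} (hX : 0 < X) (U V : Finset ℕ) (hU : ∀ p ∈ U, p.Prime)
    (hV : ∀ p ∈ V, p.Prime)
    (hUX : ∀ p ∈ U, X ≤ p ∧ p < 2 * X) (hVX : ∀ p ∈ V, X ≤ p ∧ p < 2 * X) (hUV : Disjoint U V)
    (hUc : U.card = κ) (hVc : V.card = κ) (c : ℕ) (hc : 0 < c) (x : ℝ) (hx : 0 ≤ x)
    (hx' : x ≤ (κ : ℝ) ^ 2 / (c * (4 * X ^ 2))) :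
    ∃ S ⊆ (U ×ˢ V).image (fun p => c * (p.1 * p.2)), ∑ d ∈ S, (1 / (d : ℝ)) ≤ x ∧
      x ≤ ∑ d ∈ S, (1 / (d : ℝ)) + 1 / (c * (X : ℝ) ^ 2) := by
  classical
  have hX' : (0 : ℝ) < X := by exact_mod_cast hX
  have hc' : (0 : ℝ) < c := by exact_mod_cast hc
  apply greedy _ _ _ (by positivity) _ x hx
  · rw [Finset.sum_image]
    · have h1 : ∀ p ∈ U ×ˢ V, 1 / ((c : ℝ) * (4 * X ^ 2)) ≤ 1 / (((c * (p.1 * p.2) : ℕ)) : ℝ) := by
        intro p hp
        have hp' := Finset.mem_product.mp hp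
        have a1 : (0 : ℝ) < p.1 := by exact_mod_cast (hU _ hp'.1).pos
        have a2 : (0 : ℝ) < p.2 := by exact_mod_cast (hV _ hp'.2).pos
        have a3 : (p.1 : ℝ) ≤ 2 * X := by exact_mod_cast (hUX _ hp'.1).2.le
        have a4 : (p.2 : ℝ) ≤ 2 * X := by exact_mod_cast (hVX _ hp'.2).2.le
        push_cast
        apply one_div_le_one_div_of_le (by positivity)
        apply mul_le_mul_of_nonneg_left _ hc'.le
        calc (p.1 : ℝ) * p.2 ≤ (2 * X) * (2 * X) := mul_le_mul a3 a4 a2.le (by positivity)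
          _ = 4 * X ^ 2 := by ring
      have h2 := Finset.sum_le_sum h1
      rw [Finset.sum_const, Finset.card_product, hUc, hVc] at h2
      refine hx'.trans (le_trans (le_of_eq ?_) h2)
      rw [nsmul_eq_mul]
      push_cast
      ring
    · rintro ⟨u, v⟩ h1 ⟨u', v'⟩ h2 h
      simp only [Finset.coe_product, Set.mem_prod, Finset.mem_coe] at h1 h2
      simp only at h
      have h := Nat.eq_of_mul_eq_mul_left hc h
      have hu : u ∣ u' * v' := h ▸ Dvd.intro _ rfl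
      have huu : u = u' := by
        rcases (Nat.Prime.dvd_mul (hU u h1.1)).mp hu with h3 | h3
        · exact (Nat.prime_dvd_prime_iff_eq (hU u h1.1) (hU u' h2.1)).mp h3
        · have := (Nat.prime_dvd_prime_iff_eq (hU u h1.1) (hV v' h2.2)).mp h3
          exact absurd (this ▸ h1.1) (Finset.disjoint_right.mp hUV h2.2)
      subst huu
      have := Nat.eq_of_mul_eq_mul_left (hU u h1.1).pos h
      rw [this]
  · intro z hz
    obtain ⟨p, hp, rfl⟩ := Finset.mem_image.mp hz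
    have hp' := Finset.mem_product.mp hp
    have a3 : (X : ℝ) ≤ p.1 := by exact_mod_cast (hUX _ hp'.1).1
    have a4 : (X : ℝ) ≤ p.2 := by exact_mod_cast (hVX _ hp'.2).1
    push_cast
    apply one_div_le_one_div_of_le (by positivity)
    apply mul_le_mul_of_nonneg_left _ hc'.le
    rw [pow_two]
    exact mul_le_mul a3 a4 hX'.le (by linarith)

theorem dense_all {X κ : ℕ} (hX : 2 < X) (G U V : Finset ℕ) (hG : ∀ p ∈ G, p.Prime)
    (hGX : ∀ p ∈ G, X ≤ p ∧ p < 2 * X) (hUG : U ⊆ G) (hVG : V ⊆ G) (hUV : Disjoint U V)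
    (hUc : U.card = κ) (hVc : V.card = κ) (hκ : 8 * X ≤ κ ^ 2)
    (H : Finset ℕ) (hH : ∀ p ∈ H, p.Prime) (hHX : ∀ p ∈ H, X ≤ p ∧ p < 2 * X)
    (hGH : Disjoint G H) :
    Dense ((∏ p ∈ G, p) * ∏ p ∈ H, p) (1 / ((X : ℝ) ^ 2 * ∏ p ∈ H, (p : ℝ)))
      (∑ p ∈ G, (1 / (p : ℝ))) := by
  classical
  have hX0 : 0 < X := by omega
  have hX' : (0 : ℝ) < X := by exact_mod_cast hX0
  have hκ' : 8 * (X : ℝ) ≤ (κ : ℝ) ^ 2 := by exact_mod_cast hκ
  have hpairG : ∀ p ∈ U ×ˢ V, p.1 * p.2 ∣ ∏ p ∈ G, p := by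
    intro p hp
    have hp' := Finset.mem_product.mp hp
    have hne : p.1 ≠ p.2 := fun h => Finset.disjoint_left.mp hUV hp'.1 (h ▸ hp'.2)
    have h1 := (Nat.coprime_primes (hG _ (hUG hp'.1)) (hG _ (hVG hp'.2))).mpr hne
    exact h1.mul_dvd_of_dvd_of_dvd (Finset.dvd_prod_of_mem _ (hUG hp'.1))
      (Finset.dvd_prod_of_mem _ (hVG hp'.2))
  have hG0 : (∏ p ∈ G, p) ≠ 0 := Finset.prod_ne_zero_iff.mpr (fun p hp => (hG p hp).ne_zero)
  induction H using Finset.induction_on with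
  | empty =>
    intro x hx hx'
    simp only [Finset.prod_empty, mul_one]
    obtain ⟨S1, hS1, h1, h2⟩ := greedy G (fun p => 1 / (p : ℝ)) (1 / X) (by positivity) (by
      intro z hz
      apply one_div_le_one_div_of_le hX'
      exact_mod_cast (hGX z hz).1) x hx hx'
    obtain ⟨S2, hS2, h3, h4⟩ := level hX0 U V (fun p hp => hG p (hUG hp))
      (fun p hp => hG p (hVG hp)) (fun p hp => hGX p (hUG hp)) (fun p hp => hGX p (hVG hp))
      hUV hUc hVc 1 one_pos (x - ∑ p ∈ S1, 1 / (p : ℝ)) (by linarith) (by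
        have : x - ∑ p ∈ S1, 1 / (p : ℝ) ≤ 1 / X := by linarith
        refine this.trans ?_
        rw [div_le_div_iff₀ hX' (by positivity)]
        push_cast
        nlinarith)
    have hdisj : Disjoint S1 S2 := by
      rw [Finset.disjoint_left]
      intro a ha ha2
      have b1 := (hGX a (hS1 ha)).2
      obtain ⟨p, hp, rfl⟩ := Finset.mem_image.mp (hS2 ha2)
      have hp' := Finset.mem_product.mp hp
      have b2 := (hGX _ (hUG hp'.1)).1
      have b3 := (hGX _ (hVG hp'.2)).1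
      have := Nat.mul_le_mul b2 b3
      nlinarith
    refine ⟨S1 ∪ S2, ?_, ?_, ?_, ?_⟩
    · intro a ha
      refine Nat.mem_divisors.mpr ⟨?_, hG0⟩
      rcases Finset.mem_union.mp ha with ha | ha
      · exact Finset.dvd_prod_of_mem _ (hS1 ha)
      · obtain ⟨p, hp, rfl⟩ := Finset.mem_image.mp (hS2 ha)
        rw [one_mul]
        exact hpairG p hp
    · intro ha
      rcases Finset.mem_union.mp ha with ha | ha
      · exact (hG 1 (hS1 ha)).one_lt.ne rfl
      · obtain ⟨p, hp, hp1⟩ := Finset.mem_image.mp (hS2 ha)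
        have hp' := Finset.mem_product.mp hp
        rw [one_mul] at hp1
        have b2 := (hGX _ (hUG hp'.1)).1
        have b3 := (hGX _ (hVG hp'.2)).1
        have := Nat.mul_le_mul b2 b3
        nlinarith
    · rw [Finset.sum_union hdisj]; linarith
    · rw [Finset.sum_union hdisj]
      simp only [Nat.cast_one, one_mul] at h4
      linarith
  | insert q H hq ih =>
    intro x hx hx'
    have hqp := hH q (Finset.mem_insert_self _ _)
    have hqX := hHX q (Finset.mem_insert_self _ _)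
    have hqG : q ∉ G := Finset.disjoint_right.mp hGH (Finset.mem_insert_self _ _)
    obtain ⟨S1, hS1, hS1', h1, h2⟩ := ih (fun p hp => hH p (Finset.mem_insert_of_mem hp))
      (fun p hp => hHX p (Finset.mem_insert_of_mem hp))
      (Finset.disjoint_of_subset_right (Finset.subset_insert _ _) hGH) x hx hx'
    set c := q * ∏ p ∈ H, p with hc
    have hH0 : 0 < ∏ p ∈ H, p :=
      Finset.prod_pos (fun p hp => (hH p (Finset.mem_insert_of_mem hp)).pos)
    have hc0 : 0 < c := Nat.mul_pos hqp.pos hH0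
    have hHr : (0 : ℝ) < ∏ p ∈ H, (p : ℝ) := Finset.prod_pos (fun p hp => by
      exact_mod_cast (hH p (Finset.mem_insert_of_mem hp)).pos)
    have hcr : (c : ℝ) = q * ∏ p ∈ H, (p : ℝ) := by rw [hc]; push_cast; ring
    have hqr : (0 : ℝ) < q := by exact_mod_cast hqp.pos
    have hqX2 : (q : ℝ) ≤ 2 * X := by exact_mod_cast hqX.2.le
    obtain ⟨S2, hS2, h3, h4⟩ := level hX0 U V (fun p hp => hG p (hUG hp))
      (fun p hp => hG p (hVG hp)) (fun p hp => hGX p (hUG hp)) (fun p hp => hGX p (hVG hp))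
      hUV hUc hVc c hc0 (x - ∑ p ∈ S1, 1 / (p : ℝ)) (by linarith) (by
        have : x - ∑ p ∈ S1, 1 / (p : ℝ) ≤ 1 / ((X : ℝ) ^ 2 * ∏ p ∈ H, (p : ℝ)) := by linarith
        refine this.trans ?_
        rw [hcr, div_le_div_iff₀ (by positivity) (by positivity)]
        have : 4 * (q : ℝ) ≤ (κ : ℝ) ^ 2 := by linarith
        calc 1 * ((q : ℝ) * (∏ p ∈ H, (p : ℝ)) * (4 * X ^ 2))
            = (4 * q) * (X ^ 2 * ∏ p ∈ H, (p : ℝ)) := by ring
          _ ≤ (κ : ℝ) ^ 2 * (X ^ 2 * ∏ p ∈ H, (p : ℝ)) :=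
            mul_le_mul_of_nonneg_right this (by positivity))
    have hS2q : ∀ a ∈ S2, q ∣ a := by
      intro a ha
      obtain ⟨p, hp, rfl⟩ := Finset.mem_image.mp (hS2 ha)
      exact (Dvd.intro _ rfl : q ∣ c).mul_right _
    have hS1q : ∀ a ∈ S1, ¬ q ∣ a := by
      intro a ha hqa
      have h5 := (Nat.mem_divisors.mp (hS1 ha)).1
      have h6 := hqa.trans h5
      rcases (Nat.Prime.dvd_mul hqp).mp h6 with h7 | h7
      · obtain ⟨p, hp, hqp'⟩ := (Prime.dvd_finsetProd_iff hqp.prime _).mp h7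
        have := (Nat.prime_dvd_prime_iff_eq hqp (hG p hp)).mp hqp'
        exact hqG (this ▸ hp)
      · obtain ⟨p, hp, hqp'⟩ := (Prime.dvd_finsetProd_iff hqp.prime _).mp h7
        have := (Nat.prime_dvd_prime_iff_eq hqp (hH p (Finset.mem_insert_of_mem hp))).mp hqp'
        exact hq (this ▸ hp)
    have hdisj : Disjoint S1 S2 := by
      rw [Finset.disjoint_left]
      intro a ha ha2
      exact hS1q a ha (hS2q a ha2)
    have hQ0 : (∏ p ∈ G, p) * ∏ p ∈ insert q H, p ≠ 0 := by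
      rw [Finset.prod_insert hq]
      exact Nat.mul_ne_zero hG0 hc0.ne'
    refine ⟨S1 ∪ S2, ?_, ?_, ?_, ?_⟩
    · intro a ha
      refine Nat.mem_divisors.mpr ⟨?_, hQ0⟩
      rw [Finset.prod_insert hq]
      rcases Finset.mem_union.mp ha with ha | ha
      · have h5 := (Nat.mem_divisors.mp (hS1 ha)).1
        exact h5.trans (Nat.mul_dvd_mul_left _ (Dvd.intro_left q rfl))
      · obtain ⟨p, hp, rfl⟩ := Finset.mem_image.mp (hS2 ha)
        rw [mul_comm]
        exact Nat.mul_dvd_mul (hpairG p hp) (dvd_refl _)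
    · intro ha
      rcases Finset.mem_union.mp ha with ha | ha
      · exact hS1' ha
      · have := hS2q 1 ha
        exact hqp.one_lt.ne' (Nat.dvd_one.mp this)
    · rw [Finset.sum_union hdisj]; linarith
    · rw [Finset.sum_union hdisj, Finset.prod_insert hq]
      have : 1 / ((c : ℝ) * X ^ 2) = 1 / ((X : ℝ) ^ 2 * (q * ∏ p ∈ H, (p : ℝ))) := by
        rw [hcr]; congr 1; ring
      linarith

end Pool.Agent.TH849.Weird
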