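import Pool.Agent.TH849.Weird2
import Pool.Agent.TH849.Weird3

set_option autoImplicit false

namespace Pool.Agent.TH849.Weird

open Finset

theorem prod_succ_le {X : ℕ} (hX : 0 < X) (R : Finset ℕ) (hR : ∀ q ∈ R, X ≤ q) (hRc : R.card ≤ X) :
    ∏ q ∈ R, (1 + q) ≤ 4 * ∏ q ∈ R, q := by
  have hX' : (0 : ℝ) < X := by exact_mod_cast hX
  have h1 : ∏ q ∈ R, (1 + (q : ℝ)) ≤ ∏ q ∈ R, ((1 + 1 / (X : ℝ)) * q) := by
    apply Finset.prod_le_prod
    · intro q _; positivity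
    · intro q hq
      have : (X : ℝ) ≤ q := by exact_mod_cast hR q hq
      have h2 : 1 ≤ (q : ℝ) / X := (one_le_div hX').mpr this
      have h3 : (1 + 1 / (X : ℝ)) * q = q + q / X := by ring
      rw [h3]; linarith
  rw [Finset.prod_mul_distrib, Finset.prod_const] at h1
  have h4 : (1 + 1 / (X : ℝ)) ^ R.card ≤ 4 := by
    have h5 : (1 + 1 / (X : ℝ)) ^ R.card ≤ (1 + 1 / (X : ℝ)) ^ X := by
      apply pow_le_pow_right₀ _ hRc
      have : 0 < 1 / (X : ℝ) := by positivity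
      linarith
    have h6 : (1 + 1 / (X : ℝ)) ^ X ≤ Real.exp 1 := by
      have h7 : 1 + 1 / (X : ℝ) ≤ Real.exp (1 / X) := by
        have := Real.add_one_le_exp (1 / (X : ℝ)); linarith
      calc (1 + 1 / (X : ℝ)) ^ X ≤ Real.exp (1 / X) ^ X :=
            pow_le_pow_left₀ (by positivity) h7 X
        _ = Real.exp 1 := by
            rw [← Real.exp_nat_mul]; congr 1; field_simp
    have := Real.exp_one_lt_d9
    linarith
  have h8 : (0 : ℝ) ≤ ∏ q ∈ R, (q : ℝ) := Finset.prod_nonneg (fun q _ => Nat.cast_nonneg q)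
  have h9 : ∏ q ∈ R, (1 + (q : ℝ)) ≤ 4 * ∏ q ∈ R, (q : ℝ) :=
    h1.trans (mul_le_mul_of_nonneg_right h4 h8)
  have e1 : ((∏ q ∈ R, (1 + q) : ℕ) : ℝ) = ∏ q ∈ R, (1 + (q : ℝ)) := by
    rw [Nat.cast_prod]; apply Finset.prod_congr rfl; intro q _; push_cast; ring
  have e2 : ((∏ q ∈ R, q : ℕ) : ℝ) = ∏ q ∈ R, (q : ℝ) := Nat.cast_prod _ _
  rw [← e1, ← e2] at h9
  exact_mod_cast h9

theorem block {X κ W : ℕ} (P : Finset ℕ) (hP : ∀ p ∈ P, p.Prime)
    (hPX : ∀ p ∈ P, X ≤ p ∧ p < 2 * X) (hW : 0 < W) (hWκ : W ≤ κ)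
    (hX : 5 ≤ X) (hκ2 : 4 ≤ κ) (hκX : 8 * X ≤ κ ^ 2)
    (hcount : (4 * X ^ 2 / W + 1) + (4 * X * W) * W < κ ^ 2)
    (hPc : 16 * κ ≤ P.card) :
    ∃ A L, Cov ((∏ p ∈ P, p).properDivisors) A (A + L) ∧ X * A ≤ ∏ p ∈ P, p ∧
      P.card * (∏ p ∈ P, p) ≤ 4 * X * L ∧ L ≤ ∏ p ∈ P, p := by
  classical
  have hPcX : P.card ≤ X := by
    have : P ⊆ Finset.Ico X (2 * X) := fun p hp => Finset.mem_Ico.mpr (hPX p hp)
    have := Finset.card_le_card this
    simp at this; omega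
  have hX0 : 0 < X := by omega
  have hXr : (0 : ℝ) < X := by exact_mod_cast hX0
  obtain ⟨U, hUP, hUc⟩ := Finset.exists_subset_card_eq (s := P) (n := κ) (by omega)
  obtain ⟨V, hVP, hVc⟩ := Finset.exists_subset_card_eq (s := P \ U) (n := κ) (by
    have := Finset.le_card_sdiff U P; omega)
  have hVP' : V ⊆ P := hVP.trans Finset.sdiff_subset
  have hUV : Disjoint U V := by
    rw [Finset.disjoint_left]; intro a ha hb
    exact (Finset.mem_sdiff.mp (hVP hb)).2 ha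
  have hUVc : (U ∪ V).card = 2 * κ := by rw [Finset.card_union_of_disjoint hUV]; omega
  obtain ⟨H, hHP, hHc⟩ := Finset.exists_subset_card_eq (s := P \ (U ∪ V)) (n := 4 * κ) (by
    have := Finset.le_card_sdiff (U ∪ V) P; omega)
  have hHP' : H ⊆ P := hHP.trans Finset.sdiff_subset
  set G := (P \ (U ∪ V)) \ H with hG
  have hGP : G ⊆ P := Finset.sdiff_subset.trans Finset.sdiff_subset
  have hGH : Disjoint G H := Finset.sdiff_disjoint
  have hGHU : G ∪ H = P \ (U ∪ V) := Finset.sdiff_union_of_subset hHP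
  have hGc : G.card + 6 * κ = P.card := by
    have h1 : G.card + H.card = (P \ (U ∪ V)).card := Finset.card_sdiff_add_card_eq_card hHP
    have h2 : (P \ (U ∪ V)).card + (U ∪ V).card = P.card :=
      Finset.card_sdiff_add_card_eq_card (Finset.union_subset hUP hVP')
    omega
  obtain ⟨U', hUG, hU'c⟩ := Finset.exists_subset_card_eq (s := G) (n := κ) (by omega)
  obtain ⟨V', hVG, hV'c⟩ := Finset.exists_subset_card_eq (s := G \ U') (n := κ) (by
    have := Finset.le_card_sdiff U' G; omega)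
  have hVG' : V' ⊆ G := hVG.trans Finset.sdiff_subset
  have hUV' : Disjoint U' V' := by
    rw [Finset.disjoint_left]; intro a ha hb
    exact (Finset.mem_sdiff.mp (hVG hb)).2 ha
  set M := (∏ p ∈ U, p) * ∏ p ∈ V, p with hMdef
  obtain ⟨A0, hA0, hA0le⟩ := seed (κ := κ) (W := W) U V (fun p hp => hP p (hUP hp))
    (fun p hp => hP p (hVP' hp)) (fun p hp => hPX p (hUP hp)) (fun p hp => hPX p (hVP' hp))
    hUV hUc hVc hW (by omega) hWκ (by omega) (by omega) hcount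
  rw [← hMdef] at hA0
  have hprod0 : ∀ s : Finset ℕ, s ⊆ P → 0 < ∏ p ∈ s, p := fun s hs =>
    Finset.prod_pos (fun p hp => (hP p (hs hp)).pos)
  have hM0 : 0 < M := Nat.mul_pos (hprod0 U hUP) (hprod0 V hVP')
  have hMprod : M = ∏ p ∈ U ∪ V, p := by rw [Finset.prod_union hUV]
  set R := G ∪ H with hRdef
  have hRP : R ⊆ P := Finset.union_subset hGP hHP'
  have hRM : ∀ q ∈ R, ¬ q ∣ M := by
    intro q hq hqM
    rw [hMprod] at hqM
    have hqp := hP q (hRP hq)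
    obtain ⟨p, hp, hqp'⟩ := (Prime.dvd_finsetProd_iff hqp.prime _).mp hqM
    have hpP : p ∈ P := (Finset.union_subset hUP hVP') hp
    have := (Nat.prime_dvd_prime_iff_eq hqp (hP p hpP)).mp hqp'
    rw [hGHU] at hq
    exact (Finset.mem_sdiff.mp hq).2 (this ▸ hp)
  have hext := ext_primes hM0 R (fun q hq => hP q (hRP hq)) hRM
    (fun q hq => by have := (hPX q (hRP hq)).2; omega) hA0
  set Q := ∏ q ∈ R, q with hQ
  set σ := ∏ q ∈ R, (1 + q) with hσ
  have hQ0 : 0 < Q := hprod0 R hRP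
  have hQGH : Q = (∏ p ∈ G, p) * ∏ p ∈ H, p := by rw [hQ, hRdef, Finset.prod_union hGH]
  have hN : M * Q = ∏ p ∈ P, p := by
    rw [hMprod, hQ, hGHU, mul_comm]
    exact Finset.prod_sdiff (Finset.union_subset hUP hVP')
  rw [← hN]
  have hNpos : 0 < M * Q := Nat.mul_pos hM0 hQ0
  have hQσ : Q ≤ σ := Finset.prod_le_prod' (fun q _ => by omega)
  have hdense := dense_all (X := X) (κ := κ) (by omega) G U' V' (fun p hp => hP p (hGP hp))
    (fun p hp => hPX p (hGP hp)) hUG hVG' hUV' hU'c hV'c hκX H (fun p hp => hP p (hHP' hp))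
    (fun p hp => hPX p (hHP' hp)) hGH
  rw [← hQGH] at hdense
  -- M ≤ ∏ H
  have hMH : M ≤ ∏ p ∈ H, p := by
    have h1 : ∏ p ∈ U, p ≤ (2 * X) ^ κ := by
      rw [← hUc]; exact Finset.prod_le_pow_card _ _ _ (fun p hp => (hPX p (hUP hp)).2.le)
    have h2 : ∏ p ∈ V, p ≤ (2 * X) ^ κ := by
      rw [← hVc]; exact Finset.prod_le_pow_card _ _ _ (fun p hp => (hPX p (hVP' hp)).2.le)
    have h3 : X ^ (4 * κ) ≤ ∏ p ∈ H, p := by
      rw [← hHc]; exact Finset.pow_card_le_prod _ _ _ (fun p hp => (hPX p (hHP' hp)).1)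
    have h4 : (2 * X) ^ κ * (2 * X) ^ κ ≤ X ^ (4 * κ) := by
      have : (2 * X) ^ κ ≤ (X * X) ^ κ := Nat.pow_le_pow_left (Nat.mul_le_mul_right _ (by omega)) κ
      calc (2 * X) ^ κ * (2 * X) ^ κ ≤ (X * X) ^ κ * (X * X) ^ κ := Nat.mul_le_mul this this
        _ = X ^ (4 * κ) := by rw [← mul_pow, pow_mul]; congr 1; ring
    exact (Nat.mul_le_mul h1 h2).trans (h4.trans h3)
  set L := ∑ p ∈ G, (M * Q) / p with hL
  have hGdvd : ∀ p ∈ G, p ∣ M * Q := by
    intro p hp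
    exact (Finset.dvd_prod_of_mem _ (Finset.mem_union_left _ hp)).mul_left _
  have hLr : (L : ℝ) = (M * Q : ℕ) * ∑ p ∈ G, (1 / (p : ℝ)) := by
    rw [hL, Nat.cast_sum, Finset.mul_sum]
    apply Finset.sum_congr rfl
    intro p hp
    have hp0 : (p : ℝ) ≠ 0 := by exact_mod_cast (hP p (hGP hp)).ne_zero
    rw [Nat.cast_div (hGdvd p hp) hp0]
    ring
  refine ⟨A0 * σ, L, ?_, ?_, ?_, ?_⟩
  · intro n hn1 hn2
    have hNr : (0 : ℝ) < ((M * Q : ℕ) : ℝ) := by exact_mod_cast hNpos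
    obtain ⟨S, hS, hS1, hx1, hx2⟩ := hdense (((n : ℝ) - (A0 * σ : ℕ)) / (M * Q : ℕ))
      (by
        apply div_nonneg _ hNr.le
        have : ((A0 * σ : ℕ) : ℝ) ≤ n := by exact_mod_cast hn1
        linarith)
      (by
        rw [div_le_iff₀ hNr]
        have : (n : ℝ) ≤ ((A0 * σ + L : ℕ) : ℝ) := by exact_mod_cast hn2
        rw [Nat.cast_add, hLr] at this
        linarith)
    rw [le_div_iff₀ hNr] at hx1
    rw [div_le_iff₀ hNr] at hx2
    set Y := ∑ d ∈ S, M * (Q / d) with hY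
    have hSd : ∀ d ∈ S, d ∣ Q ∧ 0 < d ∧ d ≠ 1 := by
      intro d hd
      have := (Nat.mem_divisors.mp (hS hd)).1
      exact ⟨this, Nat.pos_of_dvd_of_pos this hQ0, fun h => hS1 (h ▸ hd)⟩
    have hYr : (Y : ℝ) = (∑ d ∈ S, 1 / (d : ℝ)) * (M * Q : ℕ) := by
      rw [hY, Nat.cast_sum, Finset.sum_mul]
      apply Finset.sum_congr rfl
      intro d hd
      have hd0 : (d : ℝ) ≠ 0 := by exact_mod_cast (hSd d hd).2.1.ne'
      rw [Nat.cast_mul, Nat.cast_div (hSd d hd).1 hd0]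
      push_cast
      ring
    have hY1 : A0 * σ + Y ≤ n := by
      have : ((A0 * σ + Y : ℕ) : ℝ) ≤ (n : ℝ) := by
        rw [Nat.cast_add, hYr]; linarith
      exact_mod_cast this
    have hδ : (1 / ((X : ℝ) ^ 2 * ∏ p ∈ H, (p : ℝ))) * (M * Q : ℕ) ≤ ((2 * X * σ : ℕ) : ℝ) := by
      have hHr : (0 : ℝ) < ∏ p ∈ H, (p : ℝ) := Finset.prod_pos (fun p hp => by
        exact_mod_cast (hP p (hHP' hp)).pos)
      rw [one_div, inv_mul_le_iff₀ (by positivity)]
      have h1 : (M : ℝ) ≤ ∏ p ∈ H, (p : ℝ) := by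
        have e2 : ((∏ q ∈ H, q : ℕ) : ℝ) = ∏ q ∈ H, (q : ℝ) := Nat.cast_prod _ _
        rw [← e2]
        exact_mod_cast hMH
      have h2 : (Q : ℝ) ≤ σ := by exact_mod_cast hQσ
      have h3 : (0 : ℝ) < Q := by exact_mod_cast hQ0
      have h5 : (1 : ℝ) ≤ (X : ℝ) ^ 2 * (2 * X) := by
        have : (1 : ℝ) ≤ X := by exact_mod_cast hX0
        nlinarith [sq_nonneg (X : ℝ), mul_le_mul this this zero_le_one (by linarith)]
      push_cast
      calc (M : ℝ) * Q ≤ (∏ p ∈ H, (p : ℝ)) * σ := mul_le_mul h1 h2 h3.le hHr.le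
        _ = 1 * ((∏ p ∈ H, (p : ℝ)) * σ) := by ring
        _ ≤ ((X : ℝ) ^ 2 * (2 * X)) * ((∏ p ∈ H, (p : ℝ)) * σ) :=
            mul_le_mul_of_nonneg_right h5 (by positivity)
        _ = _ := by ring
    have hY2 : n ≤ A0 * σ + Y + 2 * X * σ := by
      have : (n : ℝ) ≤ ((A0 * σ + Y + 2 * X * σ : ℕ) : ℝ) := by
        rw [Nat.cast_add, Nat.cast_add, hYr]
        have e : (∑ d ∈ S, 1 / (d : ℝ) + 1 / ((X : ℝ) ^ 2 * ∏ p ∈ H, (p : ℝ))) * (M * Q : ℕ) =
          (∑ d ∈ S, 1 / (d : ℝ)) * (M * Q : ℕ) +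
            1 / ((X : ℝ) ^ 2 * ∏ p ∈ H, (p : ℝ)) * (M * Q : ℕ) := by ring
        rw [e] at hx2
        linarith
      exact_mod_cast this
    have hs1 := hext (n - Y) (by omega) (by
      have : (A0 + 2 * X) * σ = A0 * σ + 2 * X * σ := by ring
      omega)
    have hs2 : SS (S.image (fun d => M * (Q / d))) Y := by
      refine ⟨_, le_refl _, ?_⟩
      rw [Finset.sum_image]
      intro d hd d' hd' h
      have h1 := Nat.eq_of_mul_eq_mul_left hM0 h
      have e1 := Nat.div_mul_cancel (hSd d hd).1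
      have e2 := Nat.div_mul_cancel (hSd d' hd').1
      rw [h1] at e1
      have h3 : 0 < Q / d' := Nat.div_pos (Nat.le_of_dvd hQ0 (hSd d' hd').1) (hSd d' hd').2.1
      exact Nat.eq_of_mul_eq_mul_left h3 (e1.trans e2.symm)
    have hdisj : Disjoint (T M (M * Q)) (S.image (fun d => M * (Q / d))) := by
      rw [Finset.disjoint_left]
      intro a ha hb
      obtain ⟨d, _, rfl⟩ := Finset.mem_image.mp hb
      exact (Finset.mem_filter.mp ha).2 (Dvd.intro _ rfl)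
    have hs := hs1.add hdisj hs2
    rw [Nat.sub_add_cancel (by omega)] at hs
    refine hs.mono ?_
    intro a ha
    rw [Nat.mem_properDivisors]
    rcases Finset.mem_union.mp ha with ha | ha
    · have h1 := Finset.mem_filter.mp ha
      have h2 := (Nat.mem_divisors.mp h1.1).1
      refine ⟨h2, lt_of_le_of_ne (Nat.le_of_dvd hNpos h2) ?_⟩
      rintro rfl
      exact h1.2 (Dvd.intro _ rfl)
    · obtain ⟨d, hd, rfl⟩ := Finset.mem_image.mp ha
      obtain ⟨h1, h2, h3⟩ := hSd d hd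
      have h4 : Q / d ∣ Q := Nat.div_dvd_of_dvd h1
      refine ⟨Nat.mul_dvd_mul_left M h4, ?_⟩
      apply Nat.mul_lt_mul_of_pos_left _ hM0
      exact Nat.div_lt_self hQ0 (by omega)
  · have h1 : σ ≤ 4 * Q := prod_succ_le hX0 R (fun q hq => (hPX q (hRP hq)).1)
      ((Finset.card_le_card hRP).trans hPcX)
    have h2 : 4 * X * A0 ≤ M := by
      have hκX' : κ ≤ X := by omega
      have a1 : 4 * κ ^ 2 * X ^ 2 ≤ 4 * X ^ 2 * X ^ 2 :=
        Nat.mul_le_mul_right _ (Nat.mul_le_mul_left _ (Nat.pow_le_pow_left hκX' 2))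
      have a2 : 2 * X * W ≤ X ^ 2 * X ^ 2 := by
        calc 2 * X * W ≤ X * X * X := Nat.mul_le_mul (Nat.mul_le_mul_right _ (by omega)) (by omega)
          _ ≤ X * X * X * X := Nat.le_mul_of_pos_right _ hX0
          _ = X ^ 2 * X ^ 2 := by ring
      have a3 : A0 ≤ X ^ 5 := by
        calc A0 ≤ 4 * X ^ 2 * X ^ 2 + X ^ 2 * X ^ 2 := by omega
          _ = 5 * X ^ 4 := by ring
          _ ≤ X * X ^ 4 := Nat.mul_le_mul_right _ hX
          _ = X ^ 5 := by ring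
      have h1' : X ^ κ ≤ ∏ p ∈ U, p := by
        rw [← hUc]
        exact Finset.pow_card_le_prod _ _ _ (fun p hp => (hPX p (hUP hp)).1)
      have h2' : X ^ κ ≤ ∏ p ∈ V, p := by
        rw [← hVc]
        exact Finset.pow_card_le_prod _ _ _ (fun p hp => (hPX p (hVP' hp)).1)
      have h3' : X ^ 4 ≤ X ^ κ := Nat.pow_le_pow_right (by omega) hκ2
      calc 4 * X * A0 ≤ X * X * X ^ 5 := Nat.mul_le_mul (Nat.mul_le_mul_right _ (by omega)) a3
        _ = X ^ 7 := by ring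
        _ ≤ X ^ 8 := Nat.pow_le_pow_right hX0 (by norm_num)
        _ = X ^ 4 * X ^ 4 := by ring
        _ ≤ M := Nat.mul_le_mul (h3'.trans h1') (h3'.trans h2')
    calc X * (A0 * σ) ≤ X * (A0 * (4 * Q)) :=
          Nat.mul_le_mul_left _ (Nat.mul_le_mul_left _ h1)
      _ = (4 * X * A0) * Q := by ring
      _ ≤ M * Q := Nat.mul_le_mul_right _ h2
  · have h1 : G.card * (M * Q) ≤ 2 * X * L := by
      rw [hL, Finset.mul_sum, ← smul_eq_mul, ← Finset.sum_const]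
      apply Finset.sum_le_sum
      intro p hp
      calc M * Q = p * (M * Q / p) := (Nat.mul_div_cancel' (hGdvd p hp)).symm
        _ ≤ 2 * X * (M * Q / p) := Nat.mul_le_mul_right _ (hPX p (hGP hp)).2.le
    calc P.card * (M * Q) ≤ (2 * G.card) * (M * Q) := Nat.mul_le_mul_right _ (by omega)
      _ = 2 * (G.card * (M * Q)) := by ring
      _ ≤ 2 * (2 * X * L) := Nat.mul_le_mul_left _ h1
      _ = 4 * X * L := by ring
  · have h1 : X * L ≤ X * (M * Q) := by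
      rw [hL, Finset.mul_sum]
      calc ∑ p ∈ G, X * (M * Q / p) ≤ ∑ p ∈ G, (M * Q) := by
            apply Finset.sum_le_sum
            intro p hp
            calc X * (M * Q / p) ≤ p * (M * Q / p) := Nat.mul_le_mul_right _ (hPX p (hGP hp)).1
              _ = M * Q := Nat.mul_div_cancel' (hGdvd p hp)
        _ = G.card * (M * Q) := by rw [Finset.sum_const, smul_eq_mul]
        _ ≤ X * (M * Q) := Nat.mul_le_mul_right _ (by omega)
    exact Nat.le_of_mul_le_mul_left h1 hX0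

end Pool.Agent.TH849.Weird
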