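import Pool.Agent.TH849.Weird1

set_option autoImplicit false

namespace Pool.Agent.TH849.Weird

open Finset

theorem combine {M N A L a l : ℕ} (F : Finset ℕ) (hM : 0 < M) (hN : 0 < N) (hMN : M.Coprime N)
    (h1 : Cov M.properDivisors A (A + L)) (h2 : Cov N.properDivisors a (a + l))
    (hF : F ⊆ N.properDivisors) (hFc : M ≤ F.card * L + 1)
    (hwin : N + L * ∑ f ∈ F, f ≤ M * l) :
    Cov (M * N).properDivisors (A * N + (A + L) * (∑ f ∈ F, f) + M * a)
      ((A + L) * N + A * (∑ f ∈ F, f) + M * (a + l)) := by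
  classical
  intro n hn1 hn2
  set SF := ∑ f ∈ F, f with hSF
  have hFN : ∀ f ∈ F, f ∣ N ∧ f < N := fun f hf => Nat.mem_properDivisors.mp (hF hf)
  have hNF : N ∉ F := fun h => lt_irrefl _ (hFN N h).2
  -- choice of the multiplier of N
  obtain ⟨s, hs1, hs2, hs3, hs4⟩ : ∃ s, A ≤ s ∧ s ≤ A + L ∧
      s * N + M * a + (A + L) * SF ≤ n ∧ n ≤ s * N + M * (a + l) + A * SF := by
    have hwin' : N + (A + L) * SF + M * a ≤ M * (a + l) + A * SF := by
      have e1 : (A + L) * SF = A * SF + L * SF := by ring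
      have e2 : M * (a + l) = M * a + M * l := by ring
      omega
    set n' := n - M * a - (A + L) * SF with hn'
    by_cases hc : n' / N ≤ A + L
    · refine ⟨n' / N, ?_, hc, ?_, ?_⟩
      · rw [Nat.le_div_iff_mul_le hN]; omega
      · have := Nat.div_mul_le_self n' N; omega
      · have h3 := Nat.div_add_mod n' N
        have h4 := Nat.mod_lt n' hN
        have h5 : N * (n' / N) = n' / N * N := by ring
        omega
    · push Not at hc
      refine ⟨A + L, by omega, le_refl _, ?_, by omega⟩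
      have h5 : (A + L) * N ≤ n' := by
        rw [← Nat.le_div_iff_mul_le hN]; exact hc.le
      omega
  have hASF : A * SF ≤ (A + L) * SF := Nat.mul_le_mul_right _ (by omega)
  obtain ⟨u, hu, hur⟩ := residues (M := M) (L := L) hM F (by
    intro f hf
    exact (Nat.Coprime.coprime_dvd_left (hFN f hf).1 hMN.symm)) hFc (n - s * N - A * SF)
  have hsumu : ∑ f ∈ F, u f * f ≤ L * SF := by
    rw [hSF, Finset.mul_sum]
    exact Finset.sum_le_sum (fun f _ => Nat.mul_le_mul_right _ (hu f))
  have e1 : (A + L) * SF = A * SF + L * SF := by ring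
  obtain ⟨t, ht⟩ := (Nat.modEq_iff_dvd' (by omega)).mp hur
  have ht1 : a ≤ t := by
    have : M * a ≤ M * t := by omega
    exact Nat.le_of_mul_le_mul_left this hM
  have ht2 : t ≤ a + l := by
    have : M * t ≤ M * (a + l) := by omega
    exact Nat.le_of_mul_le_mul_left this hM
  -- the coefficient function
  set c : ℕ → ℕ := fun f => if f = N then s else A + u f with hc
  have hcr : ∀ f, A ≤ c f ∧ c f ≤ A + L := by
    intro f
    by_cases hf : f = N
    · simp only [hc, hf, if_true]; exact ⟨hs1, hs2⟩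
    · simp only [hc, hf, if_false]; have := hu f; omega
  have hex : ∀ f, ∃ S ⊆ M.properDivisors, ∑ e ∈ S, e = c f := fun f => h1 _ (hcr f).1 (hcr f).2
  choose S hS hSs using hex
  obtain ⟨St, hSt, hSts⟩ := h2 t ht1 ht2
  set F' := insert N F with hF'
  have hF'N : ∀ f ∈ F', f ∣ N := by
    intro f hf
    rcases Finset.mem_insert.mp hf with rfl | hf
    · exact dvd_refl _
    · exact (hFN f hf).1
  set B := (F'.sigma S).image (fun x : (_ : ℕ) × ℕ => x.2 * x.1) with hB
  have hBsum : ∑ b ∈ B, b = ∑ f ∈ F', c f * f := by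
    rw [hB, Finset.sum_image, Finset.sum_sigma]
    · apply Finset.sum_congr rfl
      intro f _
      rw [← hSs f, Finset.sum_mul]
    · rintro ⟨f, e⟩ h3 ⟨f', e'⟩ h4 h
      simp only [Finset.coe_sigma, Set.mem_sigma_iff, Finset.mem_coe] at h3 h4
      simp only at h
      have d1 := (Nat.mem_properDivisors.mp (hS f h3.2)).1
      have d2 := (Nat.mem_properDivisors.mp (hS f' h4.2)).1
      have c1 : e.Coprime N := Nat.Coprime.coprime_dvd_left d1 hMN
      have c2 : e'.Coprime N := Nat.Coprime.coprime_dvd_left d2 hMN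
      have g1 : Nat.gcd (e * f) N = f := by
        rw [Nat.Coprime.gcd_mul_left_cancel _ c1]
        exact Nat.gcd_eq_left (hF'N f h3.1)
      have g2 : Nat.gcd (e' * f') N = f' := by
        rw [Nat.Coprime.gcd_mul_left_cancel _ c2]
        exact Nat.gcd_eq_left (hF'N f' h4.1)
      have hff : f = f' := by rw [← g1, ← g2, h]
      subst hff
      have hf0 : 0 < f := Nat.pos_of_dvd_of_pos (hF'N f h3.1) hN
      have := Nat.eq_of_mul_eq_mul_right hf0 h
      rw [this]
  have hBM : ∀ b ∈ B, ¬ M ∣ b := by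
    intro b hb hMb
    obtain ⟨⟨f, e⟩, hx, rfl⟩ := Finset.mem_image.mp hb
    have hx' := Finset.mem_sigma.mp hx
    simp only at hx' hMb
    have c1 : M.Coprime f := Nat.Coprime.coprime_dvd_right (hF'N f hx'.1) hMN
    have h3 := c1.dvd_of_dvd_mul_right hMb
    have h4 := Nat.mem_properDivisors.mp (hS f hx'.2)
    have he : 0 < e := Nat.pos_of_dvd_of_pos h4.1 hM
    have := Nat.le_of_dvd he h3
    omega
  have hdisj : Disjoint B (St.image (fun x => M * x)) := by
    rw [Finset.disjoint_left]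
    intro b hb hb'
    obtain ⟨x, _, rfl⟩ := Finset.mem_image.mp hb'
    exact hBM _ hb (Dvd.intro _ rfl)
  refine ⟨B ∪ St.image (fun x => M * x), ?_, ?_⟩
  · intro b hb
    rw [Nat.mem_properDivisors]
    rcases Finset.mem_union.mp hb with hb | hb
    · have hnd := hBM b hb
      obtain ⟨⟨f, e⟩, hx, rfl⟩ := Finset.mem_image.mp hb
      have hx' := Finset.mem_sigma.mp hx
      simp only at hx' hnd ⊢
      have h4 := Nat.mem_properDivisors.mp (hS f hx'.2)
      have h5 : e * f ∣ M * N := Nat.mul_dvd_mul h4.1 (hF'N f hx'.1)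
      refine ⟨h5, lt_of_le_of_ne (Nat.le_of_dvd (Nat.mul_pos hM hN) h5) ?_⟩
      intro h6
      rw [h6] at hnd
      exact hnd (Dvd.intro _ rfl)
    · obtain ⟨x, hx, rfl⟩ := Finset.mem_image.mp hb
      have h4 := Nat.mem_properDivisors.mp (hSt hx)
      exact ⟨Nat.mul_dvd_mul_left M h4.1, Nat.mul_lt_mul_of_pos_left h4.2 hM⟩
  · rw [Finset.sum_union hdisj, hBsum, Finset.sum_image (by
      intro x _ y _ h
      exact Nat.eq_of_mul_eq_mul_left hM h), ← Finset.mul_sum, hSts, hF',
      Finset.sum_insert hNF]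
    have h6 : ∑ f ∈ F, c f * f = A * SF + ∑ f ∈ F, u f * f := by
      rw [hSF, Finset.mul_sum, ← Finset.sum_add_distrib]
      apply Finset.sum_congr rfl
      intro f hf
      have : f ≠ N := fun h => hNF (h ▸ hf)
      simp only [hc, this, if_false]
      ring
    have h7 : c N = s := by simp [hc]
    rw [h6, h7]
    omega

/-- `σ(m) ≤ m ∏ (1 + 2/p)`. -/
theorem sigma_le (m : ℕ) (hm : 0 < m) :
    ((∑ d ∈ m.divisors, d : ℕ) : ℝ) ≤ m * ∏ p ∈ m.primeFactors, (1 + 2 / (p : ℝ)) := by
  induction m using Nat.recOnPosPrimePosCoprime with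
  | prime_pow p n hp hn =>
    rw [Nat.primeFactors_prime_pow hn.ne' hp, Finset.prod_singleton]
    rw [Nat.divisors_prime_pow hp, Finset.sum_map]
    simp only [Function.Embedding.coeFn_mk]
    have hp2 : (2 : ℝ) ≤ p := by exact_mod_cast hp.two_le
    have h1 : (∑ i ∈ Finset.range (n + 1), (p : ℝ) ^ i) * ((p : ℝ) - 1) = (p : ℝ) ^ (n + 1) - 1 :=
      geom_sum_mul (p : ℝ) (n + 1)
    push_cast
    have hpp : (0 : ℝ) < p := by linarith
    have hpn : (0 : ℝ) < (p : ℝ) ^ n := by positivity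
    have h2 : (p : ℝ) ^ n * (1 + 2 / p) * ((p : ℝ) - 1) ≥ (p : ℝ) ^ (n + 1) := by
      have e : (p : ℝ) ^ n * (1 + 2 / p) * ((p : ℝ) - 1) = (p : ℝ) ^ n * (((p : ℝ) + 2) * (p - 1) / p) := by
        field_simp
      rw [e, pow_succ]
      apply mul_le_mul_of_nonneg_left _ hpn.le
      rw [le_div_iff₀ hpp]
      nlinarith
    have h3 : (∑ i ∈ Finset.range (n + 1), (p : ℝ) ^ i) * ((p : ℝ) - 1) ≤
        (p : ℝ) ^ n * (1 + 2 / p) * ((p : ℝ) - 1) := by rw [h1]; linarith
    exact le_of_mul_le_mul_right h3 (by linarith)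
  | zero => exact absurd hm (lt_irrefl 0)
  | one => simp
  | coprime a b ha hb hab iha ihb =>
    rw [hab.sum_divisors_mul, hab.primeFactors_mul,
      Finset.prod_union hab.disjoint_primeFactors]
    have h1 := iha (by omega)
    have h2 := ihb (by omega)
    push_cast at h1 h2 ⊢
    calc _ ≤ ((a : ℝ) * ∏ p ∈ a.primeFactors, (1 + 2 / (p : ℝ))) *
          ((b : ℝ) * ∏ p ∈ b.primeFactors, (1 + 2 / (p : ℝ))) := by
            apply mul_le_mul h1 h2
            · positivity
            · positivity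
      _ = _ := by ring

theorem sigma_le_exp (m : ℕ) (hm : 0 < m) :
    ((∑ d ∈ m.divisors, d : ℕ) : ℝ) / m ≤ Real.exp (2 * ∑ p ∈ m.primeFactors, 1 / (p : ℝ)) := by
  have hm' : (0 : ℝ) < m := by exact_mod_cast hm
  rw [div_le_iff₀ hm', mul_comm]
  refine (sigma_le m hm).trans (mul_le_mul_of_nonneg_left ?_ hm'.le)
  rw [Finset.mul_sum, Real.exp_sum]
  apply Finset.prod_le_prod
  · intro p _; positivity
  · intro p _
    have := Real.add_one_le_exp (2 * (1 / (p : ℝ)))
    have e : 2 / (p : ℝ) = 2 * (1 / (p : ℝ)) := by ring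
    rw [e]; linarith

end Pool.Agent.TH849.Weird
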