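import Pool.Agent.TH849.Weird4
import Pool.Agent.TH849.Weird5

set_option autoImplicit false

namespace Pool.Agent.TH849.Weird

open Finset

/-- the part of `P` at scale `j`. -/
def sc (P : Finset ℕ) (j : ℕ) : Finset ℕ := P.filter (fun p => 2 ^ j ≤ p ∧ p < 2 ^ (j + 1))

theorem pow_bound (e : ℕ) (he : 20 ≤ e) : 16 * (10 * e + 10) ^ 2 ≤ 2 ^ e := by
  induction e, he using Nat.le_induction with
  | base => norm_num
  | succ n hn ih =>
    have h1 : 16 * (10 * (n + 1) + 10) ^ 2 ≤ 2 * (16 * (10 * n + 10) ^ 2) := by nlinarith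
    calc 16 * (10 * (n + 1) + 10) ^ 2 ≤ 2 * (16 * (10 * n + 10) ^ 2) := h1
      _ ≤ 2 * 2 ^ n := Nat.mul_le_mul_left _ ih
      _ = 2 ^ (n + 1) := by ring

theorem sixtyfour (j : ℕ) (hj : 200 ≤ j) : 64 * (j + 1) ^ 2 ≤ 2 ^ j := by
  have h1 := pow_bound (j / 10) (by omega)
  have h2 : j + 1 ≤ 10 * (j / 10) + 10 := by omega
  have h3 : 16 * (j + 1) ^ 2 ≤ 2 ^ (j / 10) := (Nat.mul_le_mul_left _ (Nat.pow_le_pow_left h2 2)).trans h1
  have h4 : 4 * 2 ^ (j / 10) ≤ 2 ^ j := by
    calc 4 * 2 ^ (j / 10) = 2 ^ (2 + j / 10) := by rw [pow_add]; norm_num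
      _ ≤ 2 ^ j := Nat.pow_le_pow_right (by norm_num) (by omega)
  omega

theorem block_scale (P : Finset ℕ) (hP : ∀ p ∈ P, p.Prime) (j : ℕ) (hj : 200 ≤ j)
    (hrich : 2 ^ j ≤ j ^ 2 * (sc P j).card) :
    ∃ A L, Cov ((∏ p ∈ sc P j, p).properDivisors) A (A + L) ∧ 2 ^ j * A ≤ ∏ p ∈ sc P j, p ∧
      (sc P j).card * (∏ p ∈ sc P j, p) ≤ 4 * 2 ^ j * L ∧ L ≤ ∏ p ∈ sc P j, p := by
  set e := j / 10 with he
  have he20 : 20 ≤ e := by omega
  have h1 := pow_bound e he20
  have hj2 : 16 * j ^ 2 ≤ 2 ^ e :=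
    (Nat.mul_le_mul_left _ (Nat.pow_le_pow_left (by omega) 2)).trans h1
  apply block (X := 2 ^ j) (κ := 2 ^ (j - e)) (W := 2 ^ (2 * e + 5)) (sc P j)
  · intro p hp; exact hP p (Finset.mem_filter.mp hp).1
  · intro p hp
    have := (Finset.mem_filter.mp hp).2
    rw [pow_succ] at this
    omega
  · positivity
  · exact Nat.pow_le_pow_right (by norm_num) (by omega)
  · calc 5 ≤ 2 ^ 3 := by norm_num
      _ ≤ 2 ^ j := Nat.pow_le_pow_right (by norm_num) (by omega)
  · calc 4 = 2 ^ 2 := by norm_num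
      _ ≤ 2 ^ (j - e) := Nat.pow_le_pow_right (by norm_num) (by omega)
  · calc 8 * 2 ^ j = 2 ^ (3 + j) := by rw [pow_add]; norm_num
      _ ≤ 2 ^ ((j - e) * 2) := Nat.pow_le_pow_right (by norm_num) (by omega)
      _ = (2 ^ (j - e)) ^ 2 := by rw [pow_mul]
  · have e1 : 4 * (2 ^ j) ^ 2 / 2 ^ (2 * e + 5) = 2 ^ (2 * j - 2 * e - 3) := by
      have : 4 * (2 ^ j) ^ 2 = 2 ^ (2 * j - 2 * e - 3) * 2 ^ (2 * e + 5) := by
        rw [← pow_add, ← pow_mul]
        have : 2 * j - 2 * e - 3 + (2 * e + 5) = j * 2 + 2 := by omega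
        rw [this, pow_add]; ring
      rw [this]
      exact Nat.mul_div_cancel _ (by positivity)
    have e2 : 4 * 2 ^ j * 2 ^ (2 * e + 5) * 2 ^ (2 * e + 5) = 2 ^ (j + 4 * e + 12) := by
      have : 2 ^ (j + 4 * e + 12) = 2 ^ 2 * 2 ^ j * 2 ^ (2 * e + 5) * 2 ^ (2 * e + 5) := by
        rw [← pow_add, ← pow_add, ← pow_add]; congr 1; omega
      rw [this]; norm_num
    have e3 : (2 ^ (j - e)) ^ 2 = 8 * 2 ^ (2 * j - 2 * e - 3) := by
      rw [← pow_mul]
      have : (j - e) * 2 = 3 + (2 * j - 2 * e - 3) := by omega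
      rw [this, pow_add]; norm_num
    rw [e1, e2, e3]
    have e4 : 2 ^ (j + 4 * e + 12) ≤ 2 ^ (2 * j - 2 * e - 3) :=
      Nat.pow_le_pow_right (by norm_num) (by omega)
    have e5 : 1 ≤ 2 ^ (2 * j - 2 * e - 3) := Nat.one_le_two_pow
    omega
  · have hj0 : 0 < j ^ 2 := by positivity
    have h2 : j ^ 2 * (16 * 2 ^ (j - e)) ≤ j ^ 2 * (sc P j).card := by
      calc j ^ 2 * (16 * 2 ^ (j - e)) = (16 * j ^ 2) * 2 ^ (j - e) := by ring
        _ ≤ 2 ^ e * 2 ^ (j - e) := Nat.mul_le_mul_right _ hj2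
        _ = 2 ^ j := by rw [← pow_add]; congr 1; omega
        _ ≤ _ := hrich
    exact Nat.le_of_mul_le_mul_left h2 hj0

/-- mass at scale `j` if it is rich. -/
noncomputable def wt (P : Finset ℕ) (j : ℕ) : ℝ :=
  if 2 ^ j ≤ j ^ 2 * (sc P j).card then ((sc P j).card : ℝ) / 2 ^ j else 0

theorem wt_nonneg (P : Finset ℕ) (j : ℕ) : 0 ≤ wt P j := by
  unfold wt; split_ifs <;> positivity

/-- the primes of `P` that are at least `2^J`. -/
def up (P : Finset ℕ) (J : ℕ) : Finset ℕ := P.filter (fun p => 2 ^ J ≤ p)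

def State (P : Finset ℕ) (J : ℕ) (S : ℝ) : Prop :=
  S ≤ 32 / 2 ^ J ∨ ∃ (N A L : ℕ) (F : Finset ℕ), 0 < N ∧ N ∣ (∏ p ∈ up P J, p) ∧
    Cov N.properDivisors A (A + L) ∧ F ⊆ N.properDivisors ∧ 4 * J ^ 2 ≤ F.card ∧
    2 ^ J * (∑ f ∈ F, f) ≤ N ∧ 2 * (∑ f ∈ F, f) ≤ L ∧ 2 ^ J * A ≤ 4 * N ∧
    (S / 4 - 8 / 2 ^ J) * N ≤ L

theorem up_anti (P : Finset ℕ) (J : ℕ) : up P (J + 1) ⊆ up P J := by
  intro p hp
  have h := Finset.mem_filter.mp hp
  refine Finset.mem_filter.mpr ⟨h.1, ?_⟩
  have : 2 ^ J ≤ 2 ^ (J + 1) := Nat.pow_le_pow_right (by norm_num) (by omega)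
  omega

theorem sc_up (P : Finset ℕ) (J : ℕ) : sc P J ⊆ up P J := by
  intro p hp
  have h := Finset.mem_filter.mp hp
  exact Finset.mem_filter.mpr ⟨h.1, h.2.1⟩

theorem restart (P : Finset ℕ) (hP : ∀ p ∈ P, p.Prime) (J : ℕ) (hJ : 200 ≤ J) (S : ℝ)
    (hrich : 2 ^ J ≤ J ^ 2 * (sc P J).card) (hS : S ≤ 32 / 2 ^ J) :
    State P J (wt P J + S) := by
  right
  obtain ⟨A, L, h1, h2, h3, h4⟩ := block_scale P hP J hJ hrich
  set M := ∏ p ∈ sc P J, p with hM
  have h64 := sixtyfour J hJ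
  have hJ0 : 0 < J ^ 2 := by positivity
  have hcard : 64 * J ^ 2 ≤ (sc P J).card := by
    have a1 : 64 * (64 * J ^ 2) * J ^ 2 ≤ 64 * (J ^ 2 * (sc P J).card) := by
      have : J ^ 2 ≤ (J + 1) ^ 2 := Nat.pow_le_pow_left (by omega) 2
      have b1 : 64 * J ^ 2 ≤ 2 ^ J := by omega
      -- need (64 J^2)^2 ≤ 64 * 2^J
      have b2 : 64 * (64 * J ^ 2) * J ^ 2 ≤ 64 * 2 ^ J := by
        have c1 := pow_bound (J / 10) (by omega)
        have c2 : 16 * J ^ 2 ≤ 2 ^ (J / 10) :=
          (Nat.mul_le_mul_left _ (Nat.pow_le_pow_left (by omega) 2)).trans c1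
        have c3 : (16 * J ^ 2) * (16 * J ^ 2) ≤ 2 ^ (J / 10) * 2 ^ (J / 10) := Nat.mul_le_mul c2 c2
        have c4 : 2 ^ (J / 10) * 2 ^ (J / 10) ≤ 2 ^ J := by
          rw [← pow_add]; exact Nat.pow_le_pow_right (by norm_num) (by omega)
        nlinarith
      exact b2.trans (Nat.mul_le_mul_left _ hrich)
    have a2 : (64 * J ^ 2) * (64 * J ^ 2) ≤ (64 * (sc P J).card) * J ^ 2 := by
      calc (64 * J ^ 2) * (64 * J ^ 2) = 64 * (64 * J ^ 2) * J ^ 2 := by ring
        _ ≤ 64 * (J ^ 2 * (sc P J).card) := a1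
        _ = _ := by ring
    have a3 : (64 * (64 * J ^ 2)) * J ^ 2 ≤ (64 * (sc P J).card) * J ^ 2 := by
      calc _ = (64 * J ^ 2) * (64 * J ^ 2) := by ring
        _ ≤ _ := a2
    have a4 := Nat.le_of_mul_le_mul_right a3 hJ0
    omega
  have hscp : ∀ p ∈ sc P J, p.Prime ∧ 2 ^ J ≤ p ∧ p < 2 ^ (J + 1) := fun p hp =>
    ⟨hP p (Finset.mem_filter.mp hp).1, (Finset.mem_filter.mp hp).2⟩
  have hMpos : 0 < M := Finset.prod_pos (fun p hp => (hscp p hp).1.pos)
  obtain ⟨F, hF, hFc⟩ := Finset.exists_subset_card_eq (s := sc P J) (n := 4 * J ^ 2) (by omega)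
  have hMbig : (2 ^ J) ^ 5 ≤ M := by
    have a1 : (2 ^ J) ^ (sc P J).card ≤ M :=
      Finset.pow_card_le_prod _ _ _ (fun p hp => (hscp p hp).2.1)
    exact (Nat.pow_le_pow_right (by positivity) (by omega)).trans a1
  have hSF : ∑ f ∈ F, f ≤ (2 ^ J) ^ 2 := by
    have a1 : ∑ f ∈ F, f ≤ ∑ f ∈ F, 2 ^ (J + 1) :=
      Finset.sum_le_sum (fun f hf => (hscp f (hF hf)).2.2.le)
    rw [Finset.sum_const, hFc, smul_eq_mul, pow_succ] at a1
    have a2 : 8 * J ^ 2 ≤ 2 ^ J := by
      have : J ^ 2 ≤ (J + 1) ^ 2 := Nat.pow_le_pow_left (by omega) 2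
      omega
    calc _ ≤ _ := a1
      _ = (8 * J ^ 2) * 2 ^ J := by ring
      _ ≤ 2 ^ J * 2 ^ J := Nat.mul_le_mul_right _ a2
      _ = _ := by ring
  have hX1 : 200 ≤ 2 ^ J := by
    have : J ^ 2 ≤ (J + 1) ^ 2 := Nat.pow_le_pow_left (by omega) 2
    nlinarith
  refine ⟨M, A, L, F, hMpos, ?_, h1, ?_, by omega, ?_, ?_, by omega, ?_⟩
  · exact Finset.prod_dvd_prod_of_subset _ _ _ (sc_up P J)
  · intro f hf
    rw [Nat.mem_properDivisors]
    refine ⟨Finset.dvd_prod_of_mem _ (hF hf), ?_⟩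
    have a1 := (hscp f (hF hf)).2.2
    rw [pow_succ] at a1
    calc f < 2 ^ J * 2 := a1
      _ ≤ 2 ^ J * 2 ^ J := Nat.mul_le_mul_left _ (by omega)
      _ ≤ (2 ^ J) ^ 5 := by
        rw [← pow_two]; exact Nat.pow_le_pow_right (by positivity) (by norm_num)
      _ ≤ M := hMbig
  · calc 2 ^ J * ∑ f ∈ F, f ≤ 2 ^ J * (2 ^ J) ^ 2 := Nat.mul_le_mul_left _ hSF
      _ = (2 ^ J) ^ 3 := by ring
      _ ≤ (2 ^ J) ^ 5 := Nat.pow_le_pow_right (by positivity) (by norm_num)
      _ ≤ M := hMbig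
  · -- 2 SF ≤ L
    have a1 : M ≤ 4 * 2 ^ J * L := by
      calc M ≤ (sc P J).card * M := Nat.le_mul_of_pos_left _ (by omega)
        _ ≤ _ := h3
    have a2 : (4 * 2 ^ J) * (2 * (2 ^ J) ^ 2) ≤ (4 * 2 ^ J) * L := by
      calc (4 * 2 ^ J) * (2 * (2 ^ J) ^ 2) = 8 * (2 ^ J) ^ 3 := by ring
        _ ≤ (2 ^ J) ^ 2 * (2 ^ J) ^ 3 := Nat.mul_le_mul_right _ (by nlinarith)
        _ = (2 ^ J) ^ 5 := by ring
        _ ≤ M := hMbig
        _ ≤ _ := a1
    have a3 := Nat.le_of_mul_le_mul_left a2 (by positivity)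
    omega
  · have hw : wt P J = ((sc P J).card : ℝ) / 2 ^ J := by simp only [wt, hrich, if_true]
    rw [hw]
    have hpow : (0 : ℝ) < 2 ^ J := by positivity
    have b1 : ((sc P J).card : ℝ) * M ≤ 4 * 2 ^ J * L := by exact_mod_cast h3
    have b2 : (((sc P J).card : ℝ) / 2 ^ J + S) / 4 - 8 / 2 ^ J ≤ ((sc P J).card : ℝ) / 2 ^ J / 4 := by
      have : S / 4 ≤ 8 / 2 ^ J := by
        have : (32 : ℝ) / 2 ^ J / 4 = 8 / 2 ^ J := by ring
        linarith
      linarith
    have hMr : (0 : ℝ) < M := by exact_mod_cast hMpos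
    refine (mul_le_mul_of_nonneg_right b2 hMr.le).trans ?_
    rw [div_div, div_mul_eq_mul_div, div_le_iff₀ (by positivity)]
    linarith

theorem step (P : Finset ℕ) (hP : ∀ p ∈ P, p.Prime) (J : ℕ) (hJ : 200 ≤ J) (S : ℝ)
    (hS : State P (J + 1) S) : State P J (wt P J + S) := by
  have hpow : (0 : ℝ) < 2 ^ J := by positivity
  have hpow1 : (32 : ℝ) / 2 ^ (J + 1) ≤ 32 / 2 ^ J := by
    rw [pow_succ]
    apply div_le_div_of_nonneg_left (by norm_num) hpow
    linarith
  have hpow2 : (8 : ℝ) / 2 ^ (J + 1) ≤ 8 / 2 ^ J := by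
    rw [pow_succ]
    apply div_le_div_of_nonneg_left (by norm_num) hpow
    linarith
  by_cases hrich : 2 ^ J ≤ J ^ 2 * (sc P J).card
  · rcases hS with hS | hS
    · exact restart P hP J hJ S hrich (hS.trans hpow1)
    · obtain ⟨N, a, l, F, hN0, hNd, hcov, hF, hFc, hF1, hF2, ha, hl⟩ := hS
      obtain ⟨A, L, h1, h2, h3, h4⟩ := block_scale P hP J hJ hrich
      set M := ∏ p ∈ sc P J, p with hM
      set SF := ∑ f ∈ F, f with hSF
      have hscp : ∀ p ∈ sc P J, p.Prime ∧ 2 ^ J ≤ p ∧ p < 2 ^ (J + 1) := fun p hp =>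
        ⟨hP p (Finset.mem_filter.mp hp).1, (Finset.mem_filter.mp hp).2⟩
      have hMpos : 0 < M := Finset.prod_pos (fun p hp => (hscp p hp).1.pos)
      have hMr : (0 : ℝ) < M := by exact_mod_cast hMpos
      have hNr : (0 : ℝ) < N := by exact_mod_cast hN0
      have hcardpos : 0 < (sc P J).card := by
        by_contra hc
        have : (sc P J).card = 0 := by omega
        rw [this] at hrich
        have : 0 < 2 ^ J := by positivity
        omega
      by_cases hwin : N + L * SF ≤ M * l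
      · -- combine
        right
        have hcop : M.Coprime N := by
          apply Nat.Coprime.coprime_dvd_right hNd
          rw [hM]
          apply Nat.Coprime.prod_left
          intro p hp
          apply Nat.Coprime.prod_right
          intro q hq
          have hq' := Finset.mem_filter.mp hq
          rw [Nat.coprime_primes (hscp p hp).1 (hP q hq'.1)]
          have := (hscp p hp).2.2
          omega
        have hML : M ≤ 4 * J ^ 2 * L := by
          have a1 : (sc P J).card * M ≤ (sc P J).card * (4 * J ^ 2 * L) := by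
            calc (sc P J).card * M ≤ 4 * 2 ^ J * L := h3
              _ ≤ 4 * (J ^ 2 * (sc P J).card) * L :=
                Nat.mul_le_mul_right _ (Nat.mul_le_mul_left _ hrich)
              _ = _ := by ring
          exact Nat.le_of_mul_le_mul_left a1 hcardpos
        have hJJ : J ^ 2 ≤ (J + 1) ^ 2 := Nat.pow_le_pow_left (by omega) 2
        have hFc' : M ≤ F.card * L + 1 := by
          calc M ≤ 4 * J ^ 2 * L := hML
            _ ≤ F.card * L := Nat.mul_le_mul_right _ (by omega)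
            _ ≤ _ := by omega
        have key := combine F hMpos hN0 hcop h1 hcov hF hFc' hwin
        rw [← hSF] at key
        have hpJ : 2 ^ (J + 1) = 2 * 2 ^ J := by rw [pow_succ]; ring
        rw [hpJ] at hF1 ha
        have hX0 : 0 < 2 ^ J := by positivity
        have hSFN : SF ≤ N := by
          calc SF ≤ 2 * 2 ^ J * SF := Nat.le_mul_of_pos_left _ (by positivity)
            _ ≤ N := hF1
        have hLSF : L * SF ≤ L * N := Nat.mul_le_mul_left _ hSFN
        have e1 : (A + L) * N + A * SF + M * (a + l) =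
            (A * N + (A + L) * SF + M * a) + (L * N - L * SF + M * l) := by
          have c1 : (A + L) * N = A * N + L * N := by ring
          have c2 : (A + L) * SF = A * SF + L * SF := by ring
          have c3 : M * (a + l) = M * a + M * l := by ring
          omega
        rw [e1] at key
        have hlMl : l ≤ M * l := Nat.le_mul_of_pos_left _ hMpos
        refine ⟨M * N, _, _, F, Nat.mul_pos hMpos hN0, ?_, key, ?_, by omega, ?_, ?_, ?_, ?_⟩
        · have hsub : sc P J ∪ up P (J + 1) ⊆ up P J :=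
            Finset.union_subset (sc_up P J) (up_anti P J)
          have hdisj : Disjoint (sc P J) (up P (J + 1)) := by
            rw [Finset.disjoint_left]
            intro p hp hp'
            have b1 := (hscp p hp).2.2
            have b2 := (Finset.mem_filter.mp hp').2
            omega
          refine dvd_trans ?_ (Finset.prod_dvd_prod_of_subset _ _ _ hsub)
          rw [Finset.prod_union hdisj]
          exact Nat.mul_dvd_mul (dvd_refl _) hNd
        · intro f hf
          have b1 := Nat.mem_properDivisors.mp (hF hf)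
          rw [Nat.mem_properDivisors]
          refine ⟨b1.1.mul_left _, lt_of_lt_of_le b1.2 (Nat.le_mul_of_pos_left _ hMpos)⟩
        · calc 2 ^ J * SF ≤ 2 * 2 ^ J * SF := Nat.mul_le_mul_right _ (by omega)
            _ ≤ N := hF1
            _ ≤ M * N := Nat.le_mul_of_pos_left _ hMpos
        · omega
        · -- 2^J A' ≤ 4 M N
          have b1 : A + L ≤ 2 * M := by
            have : A ≤ 2 ^ J * A := Nat.le_mul_of_pos_left _ hX0
            omega
          have b2 : 2 ^ J * (A * N) ≤ M * N := by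
            calc 2 ^ J * (A * N) = (2 ^ J * A) * N := by ring
              _ ≤ M * N := Nat.mul_le_mul_right _ h2
          have b3 : 2 ^ J * ((A + L) * SF) ≤ M * N := by
            calc 2 ^ J * ((A + L) * SF) ≤ 2 ^ J * ((2 * M) * SF) :=
                  Nat.mul_le_mul_left _ (Nat.mul_le_mul_right _ b1)
              _ = M * (2 * 2 ^ J * SF) := by ring
              _ ≤ M * N := Nat.mul_le_mul_left _ hF1
          have b4 : 2 ^ J * (M * a) ≤ 2 * (M * N) := by
            have : 2 ^ J * a ≤ 2 * N := by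
              have : 2 * (2 ^ J * a) ≤ 2 * (2 * N) := by
                calc 2 * (2 ^ J * a) = 2 * 2 ^ J * a := by ring
                  _ ≤ 4 * N := ha
                  _ = _ := by ring
              omega
            calc 2 ^ J * (M * a) = M * (2 ^ J * a) := by ring
              _ ≤ M * (2 * N) := Nat.mul_le_mul_left _ this
              _ = _ := by ring
          calc 2 ^ J * (A * N + (A + L) * SF + M * a) =
              2 ^ J * (A * N) + 2 ^ J * ((A + L) * SF) + 2 ^ J * (M * a) := by ring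
            _ ≤ M * N + M * N + 2 * (M * N) := by omega
            _ = 4 * (M * N) := by ring
        · have hw : wt P J = ((sc P J).card : ℝ) / 2 ^ J := by simp only [wt, hrich, if_true]
          have b1 : ((sc P J).card : ℝ) * M ≤ 4 * 2 ^ J * L := by exact_mod_cast h3
          have b1' : wt P J / 4 * M ≤ L := by
            rw [hw, div_div, div_mul_eq_mul_div, div_le_iff₀ (by positivity)]
            linarith
          have b2 : (L : ℝ) ≤ M := by exact_mod_cast h4
          have b3 : 2 * (2 : ℝ) ^ J * SF ≤ N := by exact_mod_cast hF1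
          have b4 : (SF : ℝ) ≤ N / (2 * 2 ^ J) := by
            rw [le_div_iff₀ (by positivity)]; linarith
          have b5 : ((L * N - L * SF + M * l : ℕ) : ℝ) = L * N - L * SF + M * l := by
            push_cast [Nat.cast_sub hLSF]; ring
          rw [b5]
          have b6 : (L : ℝ) * SF ≤ M * (N / (2 * 2 ^ J)) :=
            mul_le_mul b2 b4 (Nat.cast_nonneg _) hMr.le
          have b7 : (wt P J / 4 * M) * N ≤ (L : ℝ) * N := mul_le_mul_of_nonneg_right b1' hNr.le
          have b8 : (M : ℝ) * ((S / 4 - 8 / 2 ^ (J + 1)) * N) ≤ M * l :=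
            mul_le_mul_of_nonneg_left hl hMr.le
          have e8 : (8 : ℝ) / 2 ^ (J + 1) = 4 / 2 ^ J := by rw [pow_succ]; field_simp; norm_num
          rw [e8] at b8
          have e9 : (N : ℝ) / (2 * 2 ^ J) = N * (1 / 2 ^ J) / 2 := by field_simp
          rw [e9] at b6
          have hq : (0 : ℝ) < 1 / 2 ^ J := by positivity
          push_cast
          have e10 : (8 : ℝ) / 2 ^ J = 8 * (1 / 2 ^ J) := by ring
          have e11 : (4 : ℝ) / 2 ^ J = 4 * (1 / 2 ^ J) := by ring
          rw [e10]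
          rw [e11] at b8
          set q : ℝ := 1 / 2 ^ J
          have hMN : (0 : ℝ) < M * N := mul_pos hMr hNr
          have hfin : ((wt P J + S) / 4 - 8 * q) * (M * N) ≤
              (wt P J / 4 * M) * N - M * (N * q / 2) + M * ((S / 4 - 4 * q) * N) := by
            have : (wt P J / 4 * M) * N - M * (N * q / 2) + M * ((S / 4 - 4 * q) * N) -
              ((wt P J + S) / 4 - 8 * q) * (M * N) = (7 / 2) * q * (M * N) := by ring
            have : 0 ≤ (7 / 2) * q * (M * N) := by positivity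
            linarith
          linarith
      · -- restart
        apply restart P hP J hJ S hrich
        push Not at hwin
        -- M l < 2 N
        have hLM : L * SF ≤ M * SF := Nat.mul_le_mul_right _ h4
        have h5 : 2 * (M * SF) ≤ M * l := by
          calc 2 * (M * SF) = M * (2 * SF) := by ring
            _ ≤ M * l := Nat.mul_le_mul_left _ hF2
        have h6 : M * l < 2 * N := by omega
        have h6r : (M : ℝ) * l < 2 * N := by exact_mod_cast h6
        have h7 : 2 ^ J ≤ M := by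
          obtain ⟨p, hp⟩ := Finset.card_pos.mp hcardpos
          exact (hscp p hp).2.1.trans (Nat.le_of_dvd hMpos (Finset.dvd_prod_of_mem _ hp))
        have h7r : (2 : ℝ) ^ J ≤ M := by exact_mod_cast h7
        have h8 : (S / 4 - 8 / 2 ^ (J + 1)) * (N * M) < 2 * N := by
          have := mul_le_mul_of_nonneg_right hl hMr.le
          linarith
        have h9 : (S / 4 - 8 / 2 ^ (J + 1)) * M < 2 := by
          have : (S / 4 - 8 / 2 ^ (J + 1)) * M * N < 2 * N := by linarith
          exact lt_of_mul_lt_mul_right this hNr.le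
        have e8 : (8 : ℝ) / 2 ^ (J + 1) = 4 / 2 ^ J := by rw [pow_succ]; field_simp; norm_num
        rw [e8] at h9
        by_cases hneg : S / 4 - 4 / 2 ^ J ≤ 0
        · have : (4 : ℝ) / 2 ^ J ≤ 8 / 2 ^ J := by
            apply div_le_div_of_nonneg_right (by norm_num) hpow.le
          have e : (32 : ℝ) / 2 ^ J = 4 * (8 / 2 ^ J) := by ring
          rw [e]; linarith
        · push Not at hneg
          have h10 : (S / 4 - 4 / 2 ^ J) * 2 ^ J < 2 :=
            lt_of_le_of_lt (mul_le_mul_of_nonneg_left h7r hneg.le) h9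
          have h11 : S / 4 - 4 / 2 ^ J < 2 / 2 ^ J := by
            rw [lt_div_iff₀ hpow]; exact h10
          have e : (32 : ℝ) / 2 ^ J = 4 * (4 / 2 ^ J) + 8 * (2 / 2 ^ J) := by ring
          have : (0 : ℝ) < 2 / 2 ^ J := by positivity
          rw [e]; linarith
  · have hw : wt P J = 0 := by simp only [wt, hrich, if_false]
    rw [hw, zero_add]
    rcases hS with hS | hS
    · left; exact hS.trans hpow1
    · obtain ⟨N, a, l, F, hN0, hNd, hcov, hF, hFc, hF1, hF2, ha, hl⟩ := hS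
      right
      have hJJ : J ^ 2 ≤ (J + 1) ^ 2 := Nat.pow_le_pow_left (by omega) 2
      have hpJ : 2 ^ (J + 1) = 2 * 2 ^ J := by rw [pow_succ]; ring
      rw [hpJ] at hF1 ha
      refine ⟨N, a, l, F, hN0, ?_, hcov, hF, by omega, ?_, hF2, ?_, ?_⟩
      · exact hNd.trans (Finset.prod_dvd_prod_of_subset _ _ _ (up_anti P J))
      · calc 2 ^ J * ∑ f ∈ F, f ≤ 2 * 2 ^ J * ∑ f ∈ F, f := Nat.mul_le_mul_right _ (by omega)
          _ ≤ N := hF1
      · calc 2 ^ J * a ≤ 2 * 2 ^ J * a := Nat.mul_le_mul_right _ (by omega)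
          _ ≤ 4 * N := ha
      · refine le_trans (mul_le_mul_of_nonneg_right ?_ (Nat.cast_nonneg _)) hl
        linarith

theorem state_all (P : Finset ℕ) (hP : ∀ p ∈ P, p.Prime) (k : ℕ) :
    ∀ J, 200 ≤ J → State P J (∑ j ∈ Finset.Ico J (J + k), wt P j) := by
  induction k with
  | zero =>
    intro J _
    left
    simp only [add_zero, Finset.Ico_self, Finset.sum_empty]
    positivity
  | succ k ih =>
    intro J hJ
    rw [Finset.sum_eq_sum_Ico_succ_bot (by omega)]
    have := ih (J + 1) (by omega)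
    have e : J + 1 + k = J + (k + 1) := by omega
    rw [e] at this
    exact step P hP J hJ _ this

/-- a divisor-sum argument: multiples of semiperfect numbers are semiperfect. -/
theorem SS_dvd {N m : ℕ} (hm : 0 < m) (h : N ∣ m) (hs : SS N.properDivisors N) :
    SS m.properDivisors m := by
  obtain ⟨c, rfl⟩ := h
  have hc : 0 < c := Nat.pos_of_mul_pos_left hm
  have := hs.mul c hc
  rw [mul_comm N c]
  refine this.mono ?_
  intro a ha
  obtain ⟨x, hx, rfl⟩ := Finset.mem_image.mp ha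
  have hx' := Nat.mem_properDivisors.mp hx
  rw [Nat.mem_properDivisors]
  exact ⟨Nat.mul_dvd_mul_left c hx'.1, Nat.mul_lt_mul_of_pos_left hx'.2 hc⟩

theorem main_rich (m : ℕ) (hm : 0 < m) (k : ℕ)
    (h : 8 ≤ ∑ j ∈ Finset.Ico 200 (200 + k), wt m.primeFactors j) : SS m.properDivisors m := by
  have hP : ∀ p ∈ m.primeFactors, p.Prime := fun p hp => Nat.prime_of_mem_primeFactors hp
  rcases state_all m.primeFactors hP k 200 (le_refl _) with hS | hS
  · exfalso
    have h2 : (32 : ℝ) / 2 ^ 200 < 8 := by norm_num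
    linarith
  · obtain ⟨N, A, L, F, hN0, hNd, hcov, _, _, _, _, hA, hL⟩ := hS
    have h1 : (1 : ℝ) * N ≤ L := by
      refine le_trans (mul_le_mul_of_nonneg_right ?_ (Nat.cast_nonneg _)) hL
      have : (8 : ℝ) / 2 ^ 200 ≤ 1 := by norm_num
      linarith
    have h2 : N ≤ L := by
      rw [one_mul] at h1; exact_mod_cast h1
    have h3 : A ≤ N := by
      have : 4 * A ≤ 4 * N := by
        calc 4 * A ≤ 2 ^ 200 * A := Nat.mul_le_mul_right _ (by norm_num)
          _ ≤ 4 * N := hA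
      omega
    have h4 := hcov N h3 (by omega)
    apply SS_dvd hm _ h4
    refine hNd.trans ?_
    refine dvd_trans (Finset.prod_dvd_prod_of_subset _ _ _ (Finset.filter_subset _ _)) ?_
    exact Nat.prod_primeFactors_dvd m

end Pool.Agent.TH849.Weird
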